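import Pool.Agent.Lib.PO69.LinkSM

/-! The sum of gcd's. -/

set_option autoImplicit false

namespace Pool.Agent.Lib.PO69

open Finset

theorem gcd_sum' (b B s s' lo hi lo' hi' G : ℕ) (Λ : ℝ) (hb : Nat.Coprime b (B * s))
    (hb' : Nat.Coprime b (B * s')) (P : Finset (ℕ × ℕ))
    (hP : ∀ p ∈ P, lo ≤ p.1 ∧ p.1 < hi ∧ lo' ≤ p.2 ∧ p.2 < hi' ∧ B * s < b * p.1 ∧
      B * s' < b * p.2 ∧ Nat.gcd (b * p.1 - B * s) (b * p.2 - B * s') ≤ G)
    (h1 : ((hi - lo : ℕ) : ℝ) ≤ Λ) (h2 : ((hi' - lo' : ℕ) : ℝ) ≤ Λ) :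
    ∑ p ∈ P, (Nat.gcd (b * p.1 - B * s) (b * p.2 - B * s') : ℝ)
      ≤ Λ ^ 2 * (1 + Real.log G) + 2 * Λ * G + (G : ℝ) ^ 2 := by
  classical
  have hΛ : 0 ≤ Λ := le_trans (Nat.cast_nonneg _) h1
  have step1 : ∀ p ∈ P, (Nat.gcd (b * p.1 - B * s) (b * p.2 - B * s') : ℝ)
      ≤ ∑ e ∈ Icc 1 G, if e ∣ Nat.gcd (b * p.1 - B * s) (b * p.2 - B * s') then (e : ℝ) else 0 := by
    intro p hp
    obtain ⟨_, _, _, _, h5, _, h7⟩ := hP p hp
    have hg0 : 0 < Nat.gcd (b * p.1 - B * s) (b * p.2 - B * s') :=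
      Nat.gcd_pos_of_pos_left _ (Nat.sub_pos_of_lt h5)
    have hmem : Nat.gcd (b * p.1 - B * s) (b * p.2 - B * s') ∈ Icc 1 G := mem_Icc.2 ⟨hg0, h7⟩
    have := single_le_sum (f := fun e : ℕ =>
      if e ∣ Nat.gcd (b * p.1 - B * s) (b * p.2 - B * s') then (e : ℝ) else 0)
      (fun i _ => by split_ifs <;> positivity) hmem
    simpa using this
  refine (sum_le_sum step1).trans ?_
  rw [sum_comm]
  have cong : ∀ (s lo hi e : ℕ), Nat.Coprime b (B * s) → 0 < e →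
      (((Ico lo hi).filter (fun L => B * s < b * L ∧ e ∣ b * L - B * s)).card : ℝ)
        ≤ ((hi - lo : ℕ) : ℝ) / e + 1 := by
    intro s lo hi e hb he
    have := card_le_of_congr_Ico lo hi e he
      ((Ico lo hi).filter (fun L => B * s < b * L ∧ e ∣ b * L - B * s)) (filter_subset _ _) ?_
    · rwa [Nat.card_Ico] at this
    · intro x hx y hy
      rw [mem_filter] at hx hy
      have hcop : Nat.Coprime e b := by
        have h3 : Nat.gcd e b ∣ B * s := by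
          have h4 : Nat.gcd e b ∣ b * x - B * s := (Nat.gcd_dvd_left e b).trans hx.2.2
          have h5 : Nat.gcd e b ∣ b * x := (Nat.gcd_dvd_right e b).mul_right x
          exact (Nat.dvd_sub_iff_right hx.2.1.le h5).1 h4
        exact Nat.Coprime.symm (Nat.eq_one_of_dvd_coprimes hb (Nat.gcd_dvd_left b e)
          (by rw [Nat.gcd_comm]; exact h3))
      have h3 : b * x ≡ b * y [MOD e] := by
        have hx' : b * x - B * s ≡ b * y - B * s [MOD e] :=
          ((Nat.modEq_zero_iff_dvd).2 hx.2.2).trans ((Nat.modEq_zero_iff_dvd).2 hy.2.2).symm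
        have := Nat.ModEq.add_right (B * s) hx'
        rwa [Nat.sub_add_cancel hx.2.1.le, Nat.sub_add_cancel hy.2.1.le] at this
      exact Nat.ModEq.cancel_left_of_coprime hcop h3
  have step2 : ∀ e ∈ Icc 1 G,
      (∑ p ∈ P, if e ∣ Nat.gcd (b * p.1 - B * s) (b * p.2 - B * s') then (e : ℝ) else 0)
        ≤ Λ ^ 2 * (e : ℝ)⁻¹ + 2 * Λ + G := by
    intro e he
    rw [mem_Icc] at he
    have he0 : (0 : ℝ) < e := by exact_mod_cast he.1
    have heG : (e : ℝ) ≤ G := by exact_mod_cast he.2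
    rw [← sum_filter, sum_const, nsmul_eq_mul]
    have hsub : P.filter (fun p => e ∣ Nat.gcd (b * p.1 - B * s) (b * p.2 - B * s'))
        ⊆ ((Ico lo hi).filter (fun L => B * s < b * L ∧ e ∣ b * L - B * s)) ×ˢ
          ((Ico lo' hi').filter (fun L => B * s' < b * L ∧ e ∣ b * L - B * s')) := by
      intro p hp
      rw [mem_filter] at hp
      obtain ⟨a1, a2, a3, a4, a5, a6, _⟩ := hP p hp.1
      rw [mem_product, mem_filter, mem_filter, mem_Ico, mem_Ico]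
      exact ⟨⟨⟨a1, a2⟩, a5, hp.2.trans (Nat.gcd_dvd_left _ _)⟩,
        ⟨⟨a3, a4⟩, a6, hp.2.trans (Nat.gcd_dvd_right _ _)⟩⟩
    have hc := card_le_card hsub
    rw [card_product] at hc
    have hc' : ((P.filter (fun p => e ∣ Nat.gcd (b * p.1 - B * s) (b * p.2 - B * s'))).card : ℝ)
        ≤ (Λ / e + 1) * (Λ / e + 1) := by
      have h3 := cong s lo hi e hb he.1
      have h4 := cong s' lo' hi' e hb' he.1
      have h5 : ((hi - lo : ℕ) : ℝ) / e ≤ Λ / e := div_le_div_of_nonneg_right h1 he0.le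
      have h6 : ((hi' - lo' : ℕ) : ℝ) / e ≤ Λ / e := div_le_div_of_nonneg_right h2 he0.le
      calc ((P.filter (fun p => e ∣ Nat.gcd (b * p.1 - B * s) (b * p.2 - B * s'))).card : ℝ)
          ≤ (((Ico lo hi).filter (fun L => B * s < b * L ∧ e ∣ b * L - B * s)).card : ℝ) *
            (((Ico lo' hi').filter (fun L => B * s' < b * L ∧ e ∣ b * L - B * s')).card : ℝ) := by
            exact_mod_cast hc
        _ ≤ (Λ / e + 1) * (Λ / e + 1) :=
            mul_le_mul (by linarith) (by linarith) (Nat.cast_nonneg _) (by positivity)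
    calc ((P.filter (fun p => e ∣ Nat.gcd (b * p.1 - B * s) (b * p.2 - B * s'))).card : ℝ) * e
        ≤ (Λ / e + 1) * (Λ / e + 1) * e := mul_le_mul_of_nonneg_right hc' he0.le
      _ = Λ ^ 2 * (e : ℝ)⁻¹ + 2 * Λ + e := by field_simp; ring
      _ ≤ Λ ^ 2 * (e : ℝ)⁻¹ + 2 * Λ + G := by linarith
  refine (sum_le_sum step2).trans ?_
  have hh : (∑ e ∈ Icc 1 G, ((e : ℝ))⁻¹) ≤ 1 + Real.log G := by
    have := harmonic_le_one_add_log G
    rw [harmonic_eq_sum_Icc] at this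
    push_cast at this
    exact this
  rw [sum_add_distrib, sum_add_distrib, ← mul_sum, sum_const, sum_const, Nat.card_Icc,
    nsmul_eq_mul, nsmul_eq_mul]
  have h3 : Λ ^ 2 * (∑ e ∈ Icc 1 G, ((e : ℝ))⁻¹) ≤ Λ ^ 2 * (1 + Real.log G) :=
    mul_le_mul_of_nonneg_left hh (by positivity)
  have h4 : ((G + 1 - 1 : ℕ) : ℝ) = G := by simp
  rw [h4]
  nlinarith

end Pool.Agent.Lib.PO69
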