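import Pool.Agent.Lib.PO69.Stat
import Pool.Agent.Lib.MP_bf4c7f_mr.Equi

/-! TANK MR, row E3: equidistribution (wrapper of `MREq.equi_up`). helper4. -/

set_option autoImplicit false

namespace Pool.Agent.PO69

open Finset

theorem equi : Equi := by
  intro q r Q M0 u u' R1 R2 ε hq hQ hu huu hu' hR1 hR12 hε
  obtain ⟨T0, hT0⟩ := Pool.Agent.MREq.equi_up R1 R2 hR1 hR12.le q Q r M0 hq hQ u u' huu (ε / 2)
    (by positivity)
  refine ⟨max T0 (max 1 ((2 / ε) ^ 2)), fun t ht s hs => ?_⟩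
  have ht1 : T0 ≤ t := (le_max_left _ _).trans ht
  have ht2 : 1 ≤ t := ((le_max_left _ _).trans (le_max_right _ _)).trans ht
  have ht3 : (2 / ε) ^ 2 ≤ t := ((le_max_right _ _).trans (le_max_right _ _)).trans ht
  have ht0 : 0 < t := by linarith
  have hsq : 0 < √t := Real.sqrt_pos.2 ht0
  have h8 : 1 ≤ ε / 2 * √t := by
    have : 2 / ε ≤ √t := Real.le_sqrt_of_sq_le ht3
    rw [div_le_iff₀ hε] at this
    linarith
  classical
  have h1 := hT0 t ht1 (s.filter fun n : ℕ => R1 * √t < (n : ℝ)) (by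
    intro n hn
    rw [mem_filter] at hn
    obtain ⟨g1, g2, g3, g4, g5, g6⟩ := hs n hn.1
    exact ⟨hn.2, g2, g3, g4, g5, g6⟩)
  have h2 : (s.filter fun n : ℕ => ¬ R1 * √t < (n : ℝ)).card ≤ 1 := by
    rw [card_le_one]
    intro a ha b hb
    rw [mem_filter] at ha hb
    have e1 := (hs a ha.1).1
    have e2 := (hs b hb.1).1
    have e3 : (a : ℝ) = b := by linarith [not_lt.1 ha.2, not_lt.1 hb.2]
    exact_mod_cast e3
  have h3 : (s.card : ℝ) = ((s.filter fun n : ℕ => R1 * √t < (n : ℝ)).card : ℝ) +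
      ((s.filter fun n : ℕ => ¬ R1 * √t < (n : ℝ)).card : ℝ) := by
    rw [← Nat.cast_add]; congr 1; exact (card_filter_add_card_filter_not _).symm
  have h4 : ((s.filter fun n : ℕ => ¬ R1 * √t < (n : ℝ)).card : ℝ) ≤ 1 := by exact_mod_cast h2
  have e : (R2 - R1) * (u' - u) / (q * Q) = (u' - u) * (R2 - R1) / (q * Q) := by ring
  rw [e] at h1
  rw [h3]
  calc _ ≤ ((u' - u) * (R2 - R1) / (q * Q) + ε / 2) * √t + ε / 2 * √t := by linarith
    _ = ((u' - u) * (R2 - R1) / (q * Q) + ε) * √t := by ring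

end Pool.Agent.PO69
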