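import Pool.Agent.Lib.MRL.Defs

/-! TANK MR, E rows (helper69): exact statements of the linking part. -/

set_option autoImplicit false

namespace Pool.Agent.PO69

open Finset Pool.Agent.MRL

/-- E1. The deterministic linking.  `X1 = w' D / b1`, `X2 = w D / b2`, `φ = t / n - M`, `κ = c / R`;
the two windows may be in either order (`d = b1 w - b2 w'` or `d = b2 w' - b1 w`). -/
def Chain : Prop := ∀ c R : ℝ, 0 < c → c ≤ 1 → 1000 ≤ c * R → ∃ T0 : ℝ, ∀ t : ℝ, T0 ≤ t →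
  (∀ m n : ℕ, t < m → (m : ℝ) < t + c * √t → t < n → (n : ℝ) < t + c * √t → lam m = lam n) →
  ∀ n b1 b2 D w w' M d : ℕ, b1.Prime → b2.Prime → b1 ∣ n → b2 ∣ n + 1 →
    R * √t < n → (n : ℝ) ≤ 1.01 * R * √t →
    (M : ℝ) ≤ t / n → t / n < M + c ^ 2 / 200 →
    0 < D → 0 < w → 0 < w' → 0 < d →
    d ∣ b1 * M + w' * D → d ∣ b2 * M + w * D →
    ((b2 * w' + d = b1 * w ∧
        (t / n - M + 0.25 * (c / R) < (w' : ℝ) * D / b1) ∧ ((w' : ℝ) * D / b1 < t / n - M + 0.45 * (c / R)) ∧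
        (t / n - M + 0.75 * (c / R) < (w : ℝ) * D / b2) ∧ ((w : ℝ) * D / b2 < t / n - M + 0.95 * (c / R))) ∨
      (b1 * w + d = b2 * w' ∧
        (t / n - M + 0.25 * (c / R) < (w : ℝ) * D / b2) ∧ ((w : ℝ) * D / b2 < t / n - M + 0.45 * (c / R)) ∧
        (t / n - M + 0.75 * (c / R) < (w' : ℝ) * D / b1) ∧ ((w' : ℝ) * D / b1 < t / n - M + 0.95 * (c / R)))) →
    lam n = lam (n + 1)

/-- E2. The second moment, for one pair of primes `b < B`; `s` belongs to `b`, `L` to `B`. -/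
def SecondMoment : Prop := ∀ κ δ : ℝ, 0 < κ → κ ≤ 1 / 1000 → 0 < δ → ∃ b0 : ℕ, ∀ b B : ℕ,
  b.Prime → B.Prime → b0 ≤ b → b < B → 1 + Real.log B ≤ √b → ∀ f : ℝ, 0 ≤ f → f ≤ 1 / 200 →
  ∃ Q : ℕ, 0 < Q ∧ ∃ bad : Finset ℕ, bad ⊆ range Q ∧ (bad.card : ℝ) ≤ δ * Q ∧
  ∀ M : ℕ, M % Q ∉ bad → ∃ D s L d : ℕ, 0 < D ∧ 0 < s ∧ 0 < L ∧ 0 < d ∧ B * s + d = b * L ∧
    d ∣ b * M + s * D ∧ d ∣ B * M + L * D ∧
    f + 0.3 * κ < (s : ℝ) * D / b ∧ (s : ℝ) * D / b < f + 0.4 * κ ∧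
    f + 0.8 * κ < (L : ℝ) * D / B ∧ (L : ℝ) * D / B < f + 0.9 * κ

/-- E3. Equidistribution, upper bound. -/
def Equi : Prop := ∀ (q r Q M0 : ℕ) (u u' R1 R2 ε : ℝ), 0 < q → 0 < Q → 0 ≤ u → u ≤ u' → u' ≤ 1 →
  0 < R1 → R1 < R2 → 0 < ε → ∃ t0 : ℝ, ∀ t : ℝ, t0 ≤ t → ∀ s : Finset ℕ,
  (∀ n ∈ s, R1 * √t ≤ n ∧ (n : ℝ) ≤ R2 * √t ∧ n % q = r % q ∧ ⌊t / n⌋₊ % Q = M0 % Q ∧
    u ≤ Int.fract (t / n) ∧ Int.fract (t / n) ≤ u') →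
  (s.card : ℝ) ≤ ((u' - u) * (R2 - R1) / (q * Q) + ε) * √t

/-- E4a. Density of the integers without a prime factor in `P`, in any interval, shifted by `j`. -/
def SieveDensity : Prop := ∀ P : Finset ℕ, (∀ p ∈ P, p.Prime) → ∀ j : ℕ, ∃ C : ℝ, ∀ X Y : ℝ,
  0 ≤ X → X ≤ Y → ∀ s : Finset ℕ, (∀ n ∈ s, X ≤ n ∧ (n : ℝ) ≤ Y ∧ ∀ p ∈ P, ¬ p ∣ n + j) →
  (s.card : ℝ) ≤ (Y - X) * ∏ p ∈ P, (1 - 1 / (p : ℝ)) + C

/-- E4b. A finite set of primes, beyond `b0`, with reciprocal sum in `[S, S + 1]`, all comparable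
logarithmically. -/
def PrimeSet : Prop := ∀ S : ℝ, 0 < S → ∀ b0 : ℕ, ∃ P : Finset ℕ, (∀ p ∈ P, p.Prime ∧ b0 ≤ p) ∧
  S ≤ ∑ p ∈ P, 1 / (p : ℝ) ∧ ∑ p ∈ P, 1 / (p : ℝ) ≤ S + 1 ∧
  ∀ p ∈ P, ∀ p' ∈ P, 1 + Real.log p ≤ √(p' : ℝ)

/-- E5a. The linking statement: if `lam` is constant on the integers in `(t, t + c √t)`, then
`lam n = lam (n + 1)` for almost all `n` in `(R √t, 1.01 R √t]` with `fract (t / n) < c² / 200`. -/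
def LinkP : Prop :=
  ∀ c R eps : ℝ, 0 < c → c ≤ 1 → 1000 ≤ c * R → 0 < eps → ∃ T₀ : ℝ, ∀ t : ℝ, T₀ ≤ t →
    (∀ m n : ℕ, t < m → (m : ℝ) < t + c * √t → t < n → (n : ℝ) < t + c * √t → lam m = lam n) →
    ∀ s : Finset ℕ, (∀ n ∈ s, R * √t < n ∧ (n : ℝ) ≤ 1.01 * R * √t ∧
      Int.fract (t / n) < c ^ 2 / 200 ∧ lam n ≠ lam (n + 1)) →
    (s.card : ℝ) ≤ eps * √t

end Pool.Agent.PO69
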