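import Pool.Agent.Lib.PO69.E4
import Pool.Agent.Lib.PO69.Stat

/-! TANK MR, row E4 in the words of `Stat.lean` (helper69), from `sieve_count` and `exists_primes`
of helper22. -/

set_option autoImplicit false

namespace Pool.Agent.PO69

open Finset Pool.Agent.MRL

theorem sieveDensity : SieveDensity := by
  intro P hP j
  refine ⟨((∏ p ∈ P, p : ℕ) : ℝ) + 2, fun X Y hX hXY s hs => ?_⟩
  have hY : 0 ≤ Y := hX.trans hXY
  set a : ℕ := ⌊X⌋₊ with ha
  set b : ℕ := ⌊Y⌋₊ with hb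
  have hab : a ≤ b := Nat.floor_le_floor hXY
  have hsub : s ⊆ insert a ((Ioc a b).filter (fun n => ∀ p ∈ P, ¬ p ∣ n + j)) := by
    intro n hn
    obtain ⟨h1, h2, h3⟩ := hs n hn
    have hna : a ≤ n := by
      have := Nat.floor_le_floor h1
      simpa using this
    have hnb : n ≤ b := Nat.le_floor h2
    rw [mem_insert]
    rcases hna.eq_or_lt with h | h
    · exact Or.inl h.symm
    · exact Or.inr (mem_filter.2 ⟨mem_Ioc.2 ⟨h, hnb⟩, h3⟩)
  have h1 : s.card ≤ ((Ioc a b).filter (fun n => ∀ p ∈ P, ¬ p ∣ n + j)).card + 1 :=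
    (card_le_card hsub).trans (card_insert_le _ _)
  have h1' : (s.card : ℝ) ≤ (((Ioc a b).filter (fun n => ∀ p ∈ P, ¬ p ∣ n + j)).card : ℝ) + 1 := by
    exact_mod_cast h1
  have h2 := sieve_count P hP j a b hab
  have hprod0 : 0 ≤ ∏ p ∈ P, (1 - 1 / (p : ℝ)) := by
    apply prod_nonneg
    intro p hp
    have : (1 : ℝ) ≤ p := by exact_mod_cast (hP p hp).one_lt.le
    rw [sub_nonneg, div_le_one (by linarith)]
    exact this
  have hprod1 : ∏ p ∈ P, (1 - 1 / (p : ℝ)) ≤ 1 := by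
    apply prod_le_one
    · intro p hp
      have : (1 : ℝ) ≤ p := by exact_mod_cast (hP p hp).one_lt.le
      rw [sub_nonneg, div_le_one (by linarith)]
      exact this
    · intro p hp
      have : (0 : ℝ) ≤ 1 / (p : ℝ) := by positivity
      linarith
  have h3 : (b : ℝ) - a ≤ Y - X + 1 := by
    have e1 : (b : ℝ) ≤ Y := Nat.floor_le hY
    have e2 : X < (a : ℝ) + 1 := Nat.lt_floor_add_one X
    linarith
  nlinarith

/-- a subfamily with sum in `[S, S + 1]`. -/
theorem exists_subfamily (g : ℕ → ℝ) (S : ℝ) (hS : 0 ≤ S) (F : Finset ℕ)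
    (hg : ∀ p ∈ F, g p ≤ 1) (hF : S ≤ ∑ p ∈ F, g p) :
    ∃ P ⊆ F, S ≤ ∑ p ∈ P, g p ∧ ∑ p ∈ P, g p ≤ S + 1 := by
  classical
  induction F using Finset.induction_on with
  | empty => exact ⟨∅, Subset.refl _, hF, by simp; linarith⟩
  | insert a F ha ih =>
    by_cases h : S ≤ ∑ p ∈ F, g p
    · obtain ⟨P, hP, h1, h2⟩ := ih (fun p hp => hg p (mem_insert_of_mem hp)) h
      exact ⟨P, hP.trans (subset_insert _ _), h1, h2⟩
    · refine ⟨insert a F, Subset.refl _, hF, ?_⟩
      rw [sum_insert ha]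
      have := hg a (mem_insert_self _ _)
      push Not at h
      linarith

theorem primeSet (hM : MertensLower) : PrimeSet := by
  intro S hS b0
  obtain ⟨B0, hB0⟩ := exists_primes hM (S + 3)
  set B : ℕ := max B0 (max b0 1) with hB
  have hB1 : 1 ≤ B := (le_max_right _ _).trans (le_max_right _ _)
  have hBb : b0 ≤ B := (le_max_left _ _).trans (le_max_right _ _)
  obtain ⟨B1, hBB1, hlog, hsum⟩ := hB0 B (le_max_left _ _)
  have hBr : (1 : ℝ) ≤ B := by exact_mod_cast hB1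
  set F0 := (Ioc B B1).filter Nat.Prime with hF0
  -- the small part
  have hsplit : ∑ p ∈ F0, 1 / (p : ℝ) = ∑ p ∈ F0.filter (fun p => p ≤ 4 * B), 1 / (p : ℝ)
      + ∑ p ∈ F0.filter (fun p => ¬ p ≤ 4 * B), 1 / (p : ℝ) :=
    (sum_filter_add_sum_filter_not _ _ _).symm
  have hsmall : ∑ p ∈ F0.filter (fun p => p ≤ 4 * B), 1 / (p : ℝ) ≤ 3 := by
    have hcard : (F0.filter (fun p => p ≤ 4 * B)).card ≤ 3 * B := by
      have : F0.filter (fun p => p ≤ 4 * B) ⊆ Ioc B (4 * B) := by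
        intro p hp
        rw [mem_filter] at hp
        rw [mem_Ioc]
        have h1 := (mem_filter.1 hp.1).1
        rw [mem_Ioc] at h1
        exact ⟨h1.1, hp.2⟩
      have h2 := card_le_card this
      rw [Nat.card_Ioc] at h2
      omega
    calc ∑ p ∈ F0.filter (fun p => p ≤ 4 * B), 1 / (p : ℝ)
        ≤ ∑ p ∈ F0.filter (fun p => p ≤ 4 * B), 1 / (B : ℝ) := by
          apply sum_le_sum
          intro p hp
          rw [mem_filter] at hp
          have h1 := (mem_filter.1 hp.1).1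
          rw [mem_Ioc] at h1
          have : (B : ℝ) ≤ p := by exact_mod_cast h1.1.le
          gcongr
      _ = (F0.filter (fun p => p ≤ 4 * B)).card * (1 / (B : ℝ)) := by
          rw [sum_const, nsmul_eq_mul]
      _ ≤ (3 * B : ℕ) * (1 / (B : ℝ)) := by
          have : ((F0.filter (fun p => p ≤ 4 * B)).card : ℝ) ≤ (3 * B : ℕ) := by exact_mod_cast hcard
          gcongr
      _ = 3 := by push_cast; field_simp
  have hbig : S ≤ ∑ p ∈ F0.filter (fun p => ¬ p ≤ 4 * B), 1 / (p : ℝ) := by linarith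
  obtain ⟨P, hPF, h1, h2⟩ := exists_subfamily (fun p => 1 / (p : ℝ)) S hS.le _ (by
    intro p hp
    rw [mem_filter] at hp
    have h1 := (mem_filter.1 hp.1).1
    rw [mem_Ioc] at h1
    have : (1 : ℝ) ≤ p := by exact_mod_cast (by omega : 1 ≤ p)
    show 1 / (p : ℝ) ≤ 1
    rw [div_le_one (by linarith)]
    exact this) hbig
  have hmem : ∀ p ∈ P, p.Prime ∧ 4 * B < p ∧ p ≤ B1 := by
    intro p hp
    have h3 := mem_filter.1 (hPF hp)
    have h4 := mem_filter.1 h3.1
    have h5 := mem_Ioc.1 h4.1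
    exact ⟨h4.2, by omega, h5.2⟩
  refine ⟨P, fun p hp => ⟨(hmem p hp).1, by have := (hmem p hp).2.1; omega⟩, h1, h2, ?_⟩
  intro p hp p' hp'
  have e1 : Real.log p ≤ Real.log B1 := by
    apply Real.log_le_log
    · have := (hmem p hp).1.pos
      exact_mod_cast this
    · exact_mod_cast (hmem p hp).2.2
  have e2 : 2 * √(B : ℝ) ≤ √(p' : ℝ) := by
    have : 2 * √(B : ℝ) = √((4 : ℝ) * B) := by
      rw [Real.sqrt_mul (by norm_num), show (4 : ℝ) = 2 ^ 2 by norm_num, Real.sqrt_sq (by norm_num)]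
    rw [this]
    apply Real.sqrt_le_sqrt
    exact_mod_cast (hmem p' hp').2.1.le
  have e3 : (1 : ℝ) ≤ √(B : ℝ) := by
    rw [show (1 : ℝ) = √1 by simp]
    exact Real.sqrt_le_sqrt hBr
  linarith

end Pool.Agent.PO69
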