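import Pool.Agent.Lib.PO69.Stat
import Pool.Agent.Lib.MRL.Basics

/-!
# E1: the linking configuration

`n = b1 n1`, `n + 1 = b2 n2`, `d = ±(b1 w - b2 w')`, `p = ±(n2 w - n1 w')`,
`d m1 = b1 M + w' D`, `d m2 = b2 M + w D`: the four products `n1 d m1`, `b2 p m1`, `b1 p m2`, `n2 d m2`
lie in `(t, t + c √t)`; so if `lam` is constant there, it takes the same value at `n` and `n + 1`.
-/

set_option autoImplicit false

namespace Pool.Agent.PO69

open Finset Pool.Agent.MRL Pool.Agent.MRL.Bas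

namespace E1

/-- the sign identity -/
theorem cfg_sign {b1 n1 b2 n2 d m1 m2 p : ℕ} (h1 : d ≠ 0) (h2 : m1 ≠ 0) (h3 : m2 ≠ 0) (h4 : p ≠ 0)
    (hb1 : b1 ≠ 0) (hb2 : b2 ≠ 0) (hn1 : n1 ≠ 0) (hn2 : n2 ≠ 0)
    (e1 : lam (n1 * (d * m1)) = lam (b2 * p * m1))
    (e2 : lam (b1 * p * m2) = lam (n2 * (d * m2))) :
    lam (b1 * n1) = lam (b2 * n2) := by
  have sd := lam_sq d
  have s1 := lam_sq m1
  have s2 := lam_sq m2
  rw [lam_mul hn1 (mul_ne_zero h1 h2), lam_mul h1 h2, lam_mul (mul_ne_zero hb2 h4) h2,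
    lam_mul hb2 h4] at e1
  rw [lam_mul (mul_ne_zero hb1 h4) h3, lam_mul hb1 h4, lam_mul hn2 (mul_ne_zero h1 h3),
    lam_mul h1 h3] at e2
  rw [lam_mul hb1 hn1, lam_mul hb2 hn2]
  generalize lam n1 = x1 at *
  generalize lam n2 = x2 at *
  generalize lam b1 = y1 at *
  generalize lam b2 = y2 at *
  generalize lam d = z at *
  generalize lam m1 = u1 at *
  generalize lam m2 = u2 at *
  generalize lam p = q at *
  have f1 : x1 * z = y2 * q := by
    linear_combination u1 * e1 - (x1 * z - y2 * q) * s1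
  have f2 : y1 * q = x2 * z := by
    linear_combination u2 * e2 - (y1 * q - x2 * z) * s2
  linear_combination (y1 * z) * f1 - y1 * x1 * sd + y2 * z * f2 + y2 * x2 * sd

/-- numerical bound for the two extra terms -/
theorem extra_bound {c R st T th U V W G : ℝ} (hc : 0 < c) (hR0 : 0 < R) (hR : 1000 ≤ c * R)
    (hc1 : c ≤ 1) (hst : 100 ≤ st) (hth1 : th ≤ c ^ 2 / 200) (hT0 : 0 < T)
    (hT : T ≤ st / R) (hU : U ≤ 0.95 * (c / R)) (hV0 : 0 < V) (hV : V ≤ 0.95 * (c / R))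
    (hG : 0.3 * (c / R) ≤ G) (hW0 : 0 ≤ W) (hW : W * G = (th + U) * (T + V)) :
    W ≤ 0.0205 * (c * st) := by
  obtain ⟨r, hr⟩ : ∃ r, r = 1 / R := ⟨_, rfl⟩
  have hr0 : 0 < r := by rw [hr]; positivity
  have hcr : c / R = c * r := by rw [hr]; ring
  have hsr : st / R = st * r := by rw [hr]; ring
  have hr1 : r ≤ c / 1000 := by
    rw [hr, div_le_div_iff₀ hR0 (by norm_num)]
    linarith
  rw [hcr] at hU hV hG
  rw [hsr] at hT
  have h2 : th + U ≤ 0.00595 * c ^ 2 := by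
    have : c * r ≤ c * (c / 1000) := mul_le_mul_of_nonneg_left hr1 hc.le
    nlinarith
  have h3 : T + V ≤ 1.01 * (st * r) := by
    have h31 : c * r ≤ 1 * r := mul_le_mul_of_nonneg_right hc1 hr0.le
    have h32 : 100 * r ≤ st * r := mul_le_mul_of_nonneg_right hst hr0.le
    linarith
  have h4 : (th + U) * (T + V) ≤ (0.00595 * c ^ 2) * (1.01 * (st * r)) :=
    mul_le_mul h2 h3 (by positivity) (by positivity)
  have h5 : W * (0.3 * (c * r)) ≤ (0.0205 * (c * st)) * (0.3 * (c * r)) := by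
    have h51 : W * (0.3 * (c * r)) ≤ W * G := mul_le_mul_of_nonneg_left hG hW0
    refine h51.trans (hW.le.trans (h4.trans ?_))
    have e : (0.0205 * (c * st)) * (0.3 * (c * r)) - (0.00595 * c ^ 2) * (1.01 * (st * r))
        = 0.0001405 * (c ^ 2 * (st * r)) := by ring
    have : 0 ≤ 0.0001405 * (c ^ 2 * (st * r)) := by
      have : 0 < st := by linarith
      positivity
    linarith
  exact le_of_mul_le_mul_right h5 (by positivity)

/-- real values of the four numbers -/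
theorem base {t th X Y G : ℝ} {n b1 b2 n1 n2 D w w' M d m1 m2 : ℕ} (hn0 : 0 < n) (hb1 : 0 < b1)
    (hb2 : 0 < b2) (hD : 0 < D) (hd : 0 < d) (hn1 : n = b1 * n1) (hn2 : n + 1 = b2 * n2)
    (hth : th = t / n - M) (hX : X = (w' : ℝ) * D / b1 - th) (hY : Y = (w : ℝ) * D / b2 - th)
    (hG : (d : ℝ) * D = b1 * b2 * G) (hm1 : b1 * M + w' * D = d * m1)
    (hm2 : b2 * M + w * D = d * m2) :
    ((n1 * (d * m1) : ℕ) : ℝ) = t + n * X ∧ ((n2 * (d * m2) : ℕ) : ℝ) = t + t / n + (n + 1) * Y ∧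
      (w : ℝ) * m1 * G = (th + Y) * (t / n + X) ∧ (w' : ℝ) * m2 * G = (th + X) * (t / n + Y) := by
  have hn0r : (0 : ℝ) < n := by exact_mod_cast hn0
  have hb1r : (0 : ℝ) < b1 := by exact_mod_cast hb1
  have hb2r : (0 : ℝ) < b2 := by exact_mod_cast hb2
  have hDr : (0 : ℝ) < D := by exact_mod_cast hD
  have hdr : (0 : ℝ) < d := by exact_mod_cast hd
  have hw' : (w' : ℝ) * D = b1 * (th + X) := by
    have : (w' : ℝ) * D / b1 = th + X := by rw [hX]; ring
    rw [← this]; field_simp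
  have hw : (w : ℝ) * D = b2 * (th + Y) := by
    have : (w : ℝ) * D / b2 = th + Y := by rw [hY]; ring
    rw [← this]; field_simp
  have htn : t = (n : ℝ) * (t / n) := by field_simp
  have hMth : (M : ℝ) + th = t / n := by rw [hth]; ring
  have hnr : (n : ℝ) = b1 * n1 := by rw [hn1]; push_cast; ring
  have hnr1 : (n : ℝ) + 1 = b2 * n2 := by
    have : ((n + 1 : ℕ) : ℝ) = ((b2 * n2 : ℕ) : ℝ) := by rw [hn2]
    push_cast at this
    exact this
  have hm1r : (d : ℝ) * m1 = b1 * (t / n + X) := by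
    have : ((b1 * M + w' * D : ℕ) : ℝ) = ((d * m1 : ℕ) : ℝ) := by rw [hm1]
    push_cast at this
    rw [← this, ← hMth]
    linear_combination hw'
  have hm2r : (d : ℝ) * m2 = b2 * (t / n + Y) := by
    have : ((b2 * M + w * D : ℕ) : ℝ) = ((d * m2 : ℕ) : ℝ) := by rw [hm2]
    push_cast at this
    rw [← this, ← hMth]
    linear_combination hw
  refine ⟨?_, ?_, ?_, ?_⟩
  · push_cast
    rw [hm1r]
    calc (n1 : ℝ) * (b1 * (t / n + X)) = (b1 * n1) * (t / n + X) := by ring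
      _ = n * (t / n) + n * X := by rw [← hnr]; ring
      _ = _ := by rw [← htn]
  · push_cast
    rw [hm2r]
    calc (n2 : ℝ) * (b2 * (t / n + Y)) = (b2 * n2) * (t / n + Y) := by ring
      _ = n * (t / n) + t / n + (n + 1) * Y := by rw [← hnr1]; ring
      _ = _ := by rw [← htn]
  · have h1 : (d * D : ℝ) * ((w : ℝ) * m1 * G) = (d * D : ℝ) * ((th + Y) * (t / n + X)) := by
      calc (d : ℝ) * D * ((w : ℝ) * m1 * G)
          = (w * D) * (d * m1) * G := by ring
        _ = (b2 * (th + Y)) * (b1 * (t / n + X)) * G := by rw [hw, hm1r]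
        _ = (b1 * b2 * G) * ((th + Y) * (t / n + X)) := by ring
        _ = _ := by rw [hG]
    exact mul_left_cancel₀ (by positivity) h1
  · have h1 : (d * D : ℝ) * ((w' : ℝ) * m2 * G) = (d * D : ℝ) * ((th + X) * (t / n + Y)) := by
      calc (d : ℝ) * D * ((w' : ℝ) * m2 * G)
          = (w' * D) * (d * m2) * G := by ring
        _ = (b1 * (th + X)) * (b2 * (t / n + Y)) * G := by rw [hw', hm2r]
        _ = (b1 * b2 * G) * ((th + X) * (t / n + Y)) := by ring
        _ = _ := by rw [hG]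
    exact mul_left_cancel₀ (by positivity) h1

/-- the numbers depending on `R` only -/
theorem small {c R t : ℝ} {n : ℕ} (hc : 0 < c) (hc1 : c ≤ 1) (hR0 : 0 < R) (hR : 1000 ≤ c * R)
    (hst : 100 ≤ √t) (ht : 0 < t) (hn1 : R * √t < n) :
    0 < t / n ∧ t / n ≤ √t / R ∧ t / n ≤ 0.001 * (c * √t) ∧ c / R ≤ 0.00001 * (c * √t) := by
  have hst2 : √t * √t = t := Real.mul_self_sqrt ht.le
  have hst0 : 0 < √t := by linarith
  have hn0 : (0 : ℝ) < n := lt_trans (by positivity) hn1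
  have htn1 : t / n ≤ √t / R := by
    rw [div_le_div_iff₀ hn0 hR0]
    calc t * R = √t * (R * √t) := by rw [mul_left_comm, hst2]; ring
      _ ≤ √t * n := mul_le_mul_of_nonneg_left hn1.le hst0.le
  have hiR : 1 / R ≤ c / 1000 := by
    rw [div_le_div_iff₀ hR0 (by norm_num)]
    linarith
  have hiR1 : 1 / R ≤ 0.001 * c := by linarith
  refine ⟨by positivity, htn1, ?_, ?_⟩
  · refine htn1.trans ?_
    have e : √t / R = √t * (1 / R) := by ring
    rw [e]
    have : √t * (1 / R) ≤ √t * (c / 1000) := mul_le_mul_of_nonneg_left hiR hst0.le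
    linarith
  · have e : c / R = c * (1 / R) := by ring
    rw [e]
    have h1 : 1 / R ≤ 0.00001 * √t := by linarith
    have := mul_le_mul_of_nonneg_left h1 hc.le
    linarith

/-- conclusion from the four positions -/
theorem finish {c t : ℝ} {n b1 b2 n1 n2 d m1 m2 p : ℕ} (ht : 0 < t)
    (hI : ∀ m n : ℕ, t < m → (m : ℝ) < t + c * √t → t < n → (n : ℝ) < t + c * √t → lam m = lam n)
    (hn0 : 0 < n) (hn1 : n = b1 * n1) (hn2 : n + 1 = b2 * n2)
    (q1 : t < ((n1 * (d * m1) : ℕ) : ℝ) ∧ ((n1 * (d * m1) : ℕ) : ℝ) < t + c * √t)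
    (q2 : t < ((b2 * p * m1 : ℕ) : ℝ) ∧ ((b2 * p * m1 : ℕ) : ℝ) < t + c * √t)
    (q3 : t < ((n2 * (d * m2) : ℕ) : ℝ) ∧ ((n2 * (d * m2) : ℕ) : ℝ) < t + c * √t)
    (q4 : t < ((b1 * p * m2 : ℕ) : ℝ) ∧ ((b1 * p * m2 : ℕ) : ℝ) < t + c * √t) :
    lam n = lam (n + 1) := by
  have pos : ∀ k : ℕ, t < (k : ℝ) → k ≠ 0 := by
    intro k hk h
    rw [h, Nat.cast_zero] at hk
    linarith
  have r1 := pos _ q1.1
  have r2 := pos _ q2.1
  have r3 := pos _ q3.1
  simp only [ne_eq, mul_eq_zero, not_or] at r1 r2 r3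
  obtain ⟨r11, r12, r13⟩ := r1
  obtain ⟨r31, r32, r33⟩ := r3
  have hb1 : b1 ≠ 0 := by
    intro h
    rw [h, zero_mul] at hn1
    omega
  have key := cfg_sign (b1 := b1) (n1 := n1) (b2 := b2) (n2 := n2) r12 r13 r33 r2.1.2 hb1 r2.1.1
    r11 r31 (hI _ _ q1.1 q1.2 q2.1 q2.2) (hI _ _ q4.1 q4.2 q3.1 q3.2)
  rw [← hn1, ← hn2] at key
  exact key

end E1

open E1 in
theorem chain : Chain := by
  intro c R hc hc1 hR
  refine ⟨10000, ?_⟩
  intro t ht hI n b1 b2 D w w' M d _ _ hb1 hb2 hn1 hn2 hM0 hM1 hD hw0 hw0' hd0 hdv1 hdv2 hcase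
  have ht0 : 0 < t := by linarith
  have hR0 : 0 < R := by
    by_contra h
    push Not at h
    have : c * R ≤ 0 := mul_nonpos_of_nonneg_of_nonpos hc.le h
    linarith
  have hst : 100 ≤ √t := by
    rw [show (100 : ℝ) = √10000 by rw [show (10000 : ℝ) = 100 ^ 2 by norm_num]; exact (Real.sqrt_sq (by norm_num)).symm]
    exact Real.sqrt_le_sqrt ht
  have hst0 : 0 < √t := by linarith
  have hn0 : (0 : ℝ) < n := lt_trans (by positivity) hn1
  have hn0' : 0 < n := by exact_mod_cast hn0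
  have hb10 : 0 < b1 := Nat.pos_of_dvd_of_pos hb1 hn0'
  have hb20 : 0 < b2 := Nat.pos_of_dvd_of_pos hb2 (Nat.succ_pos n)
  have hb1r : (0 : ℝ) < b1 := by exact_mod_cast hb10
  have hb2r : (0 : ℝ) < b2 := by exact_mod_cast hb20
  have hDr : (0 : ℝ) < D := by exact_mod_cast hD
  have hdr0 : (0 : ℝ) < d := by exact_mod_cast hd0
  obtain ⟨n1, hn1e⟩ := hb1
  obtain ⟨n2, hn2e⟩ := hb2
  obtain ⟨m1, hm1⟩ := hdv1
  obtain ⟨m2, hm2⟩ := hdv2
  have hnn : b1 * n1 + 1 = b2 * n2 := by omega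
  obtain ⟨s1, s2, s3, s4⟩ := small (n := n) hc hc1 hR0 hR hst ht0 hn1
  obtain ⟨th, hth⟩ : ∃ th : ℝ, th = t / n - M := ⟨_, rfl⟩
  have hth0 : 0 ≤ th := by rw [hth]; linarith
  have hth1 : th ≤ c ^ 2 / 200 := by rw [hth]; linarith
  obtain ⟨X, hX⟩ : ∃ X, X = (w' : ℝ) * D / b1 - th := ⟨_, rfl⟩
  obtain ⟨Y, hY⟩ : ∃ Y, Y = (w : ℝ) * D / b2 - th := ⟨_, rfl⟩
  have hkap : 0 < c / R := div_pos hc hR0
  have hcs : 0 < c * √t := by positivity
  have hRR : R * (1 / R) = 1 := by field_simp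
  have up : ∀ Z : ℝ, 0 < Z → Z < 0.95 * (c / R) → ((n : ℝ) + 1) * Z ≤ 0.9596 * (c * √t) := by
    intro Z hZ0 hZ
    have h1 : ((n : ℝ) + 1) * Z ≤ (1.01 * R * √t + 1) * (0.95 * (c / R)) :=
      mul_le_mul (by linarith) hZ.le hZ0.le (by positivity)
    have e : (1.01 * R * √t + 1) * (0.95 * (c / R))
        = 0.9595 * (c * √t) * (R * (1 / R)) + 0.95 * (c / R) := by
      ring
    rw [e, hRR, mul_one] at h1
    linarith
  have lo : ∀ Z : ℝ, 0.25 * (c / R) < Z → 0.25 * (c * √t) ≤ (n : ℝ) * Z := by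
    intro Z hZ
    have h1 : (R * √t) * (0.25 * (c / R)) ≤ (n : ℝ) * Z :=
      mul_le_mul hn1.le hZ.le (by positivity) hn0.le
    have e : (R * √t) * (0.25 * (c / R)) = 0.25 * (c * √t) * (R * (1 / R)) := by ring
    rw [e, hRR, mul_one] at h1
    exact h1
  have hnZ : ∀ Z : ℝ, 0 < Z → (n : ℝ) * Z ≤ ((n : ℝ) + 1) * Z := by
    intro Z hZ
    linarith
  rcases hcase with ⟨hde, x1, x2, y1, y2⟩ | ⟨hde, y1, y2, x1, x2⟩
  · -- sign plus
    rw [← hth] at x1 x2 y1 y2
    have hX0 : 0.25 * (c / R) < X := by rw [hX]; linarith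
    have hX1 : X < 0.45 * (c / R) := by rw [hX]; linarith
    have hY0 : 0.75 * (c / R) < Y := by rw [hY]; linarith
    have hY1 : Y < 0.95 * (c / R) := by rw [hY]; linarith
    have hXp : 0 < X := by linarith
    have hYp : 0 < Y := by linarith
    have hdr : (d : ℝ) = (b1 : ℝ) * w - b2 * w' := by
      have : ((b2 * w' + d : ℕ) : ℝ) = ((b1 * w : ℕ) : ℝ) := by rw [hde]
      push_cast at this
      linarith
    have hG : (d : ℝ) * D = b1 * b2 * (Y - X) := by
      rw [hdr, hX, hY]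
      field_simp
      ring
    obtain ⟨P1, P3, e1, e2⟩ := base hn0' hb10 hb20 hD hd0 hn1e hn2e hth hX hY hG hm1 hm2
    have hple : n1 * w' ≤ n2 * w := by
      have h1 : b1 * b2 * (n1 * w') ≤ b1 * b2 * (n2 * w) := by
        have e : b1 * b2 * (n2 * w) = b1 * b2 * (n1 * w') + (b1 * n1 * d + b1 * w) := by
          zify at hde hnn ⊢
          linear_combination (-(b1 : ℤ) * w) * hnn - (b1 * n1 : ℤ) * hde
        rw [e]
        exact Nat.le_add_right _ _
      exact Nat.le_of_mul_le_mul_left h1 (by positivity)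
    obtain ⟨p, hp⟩ := Nat.exists_eq_add_of_le hple
    have id1 : b2 * p = n1 * d + w := by
      zify at hde hnn hp ⊢
      linear_combination -(b2 : ℤ) * hp - w * hnn - n1 * hde
    have id2 : b1 * p = n2 * d + w' := by
      zify at hde hnn hp ⊢
      linear_combination -(b1 : ℤ) * hp - w' * hnn - n2 * hde
    have P2 : ((b2 * p * m1 : ℕ) : ℝ) = t + n * X + w * m1 := by
      rw [← P1, id1]
      push_cast
      ring
    have P4 : ((b1 * p * m2 : ℕ) : ℝ) = t + t / n + (n + 1) * Y + w' * m2 := by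
      rw [← P3, id2]
      push_cast
      ring
    have hm1n : (0 : ℝ) ≤ (w : ℝ) * m1 := by positivity
    have hm2n : (0 : ℝ) ≤ (w' : ℝ) * m2 := by positivity
    have B1 : (w : ℝ) * m1 ≤ 0.0205 * (c * √t) :=
      extra_bound hc hR0 hR hc1 hst hth1 s1 s2 hY1.le hXp (by linarith) (by linarith) hm1n e1
    have B2 : (w' : ℝ) * m2 ≤ 0.0205 * (c * √t) :=
      extra_bound hc hR0 hR hc1 hst hth1 s1 s2 (by linarith) hYp hY1.le (by linarith) hm2n e2
    have u1 := up X hXp (by linarith)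
    have u2 := up Y hYp hY1
    have l1 := lo X hX0
    have l2 := lo Y (by linarith)
    have z1 := hnZ X hXp
    have z2 := hnZ Y hYp
    refine finish ht0 hI hn0' hn1e hn2e ?_ ?_ ?_ ?_ (m1 := m1) (m2 := m2) (d := d) (p := p)
    · rw [P1]; constructor <;> linarith
    · rw [P2]; constructor <;> linarith
    · rw [P3]; constructor <;> linarith
    · rw [P4]; constructor <;> linarith
  · -- sign minus
    rw [← hth] at x1 x2 y1 y2
    have hX0 : 0.75 * (c / R) < X := by rw [hX]; linarith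
    have hX1 : X < 0.95 * (c / R) := by rw [hX]; linarith
    have hY0 : 0.25 * (c / R) < Y := by rw [hY]; linarith
    have hY1 : Y < 0.45 * (c / R) := by rw [hY]; linarith
    have hXp : 0 < X := by linarith
    have hYp : 0 < Y := by linarith
    have hdr : (d : ℝ) = (b2 : ℝ) * w' - b1 * w := by
      have : ((b1 * w + d : ℕ) : ℝ) = ((b2 * w' : ℕ) : ℝ) := by rw [hde]
      push_cast at this
      linarith
    have hG : (d : ℝ) * D = b1 * b2 * (X - Y) := by
      rw [hdr, hX, hY]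
      field_simp
      ring
    obtain ⟨P1, P3, e1, e2⟩ := base hn0' hb10 hb20 hD hd0 hn1e hn2e hth hX hY hG hm1 hm2
    have hm1n : (0 : ℝ) ≤ (w : ℝ) * m1 := by positivity
    have hm2n : (0 : ℝ) ≤ (w' : ℝ) * m2 := by positivity
    have B1 : (w : ℝ) * m1 ≤ 0.0205 * (c * √t) :=
      extra_bound hc hR0 hR hc1 hst hth1 s1 s2 (by linarith) hXp hX1.le (by linarith) hm1n e1
    have B2 : (w' : ℝ) * m2 ≤ 0.0205 * (c * √t) :=
      extra_bound hc hR0 hR hc1 hst hth1 s1 s2 hX1.le hYp (by linarith) (by linarith) hm2n e2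
    have u1 := up X hXp hX1
    have u2 := up Y hYp (by linarith)
    have l1 := lo X (by linarith)
    have l2 := lo Y hY0
    have z1 := hnZ X hXp
    have z2 := hnZ Y hYp
    have hwd : w ≤ n1 * d := by
      have h1 : ((w * m1 : ℕ) : ℝ) < ((n1 * d * m1 : ℕ) : ℝ) := by
        have e : ((n1 * d * m1 : ℕ) : ℝ) = ((n1 * (d * m1) : ℕ) : ℝ) := by rw [mul_assoc]
        rw [e, P1]
        push_cast
        linarith
      have h2 : w * m1 < n1 * d * m1 := by exact_mod_cast h1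
      exact (Nat.lt_of_mul_lt_mul_right h2).le
    have hple : n2 * w ≤ n1 * w' := by
      have h1 : b1 * b2 * (n2 * w) ≤ b1 * b2 * (n1 * w') := by
        have e : b1 * b2 * (n1 * w') + b1 * w = b1 * b2 * (n2 * w) + b1 * (n1 * d) := by
          zify at hde hnn ⊢
          linear_combination (b1 * w : ℤ) * hnn - (b1 * n1 : ℤ) * hde
        have h2 : b1 * w ≤ b1 * (n1 * d) := Nat.mul_le_mul_left _ hwd
        omega
      exact Nat.le_of_mul_le_mul_left h1 (by positivity)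
    obtain ⟨p, hp⟩ := Nat.exists_eq_add_of_le hple
    have id1 : b2 * p + w = n1 * d := by
      zify at hde hnn hp ⊢
      linear_combination -(b2 : ℤ) * hp + w * hnn - n1 * hde
    have id2 : b1 * p + w' = n2 * d := by
      zify at hde hnn hp ⊢
      linear_combination -(b1 : ℤ) * hp + w' * hnn - n2 * hde
    have P2 : ((b2 * p * m1 : ℕ) : ℝ) = t + n * X - w * m1 := by
      rw [← P1]
      have : ((n1 * (d * m1) : ℕ) : ℝ) = (((b2 * p + w) * m1 : ℕ) : ℝ) := by rw [id1, mul_assoc]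
      rw [this]
      push_cast
      ring
    have P4 : ((b1 * p * m2 : ℕ) : ℝ) = t + t / n + (n + 1) * Y - w' * m2 := by
      rw [← P3]
      have : ((n2 * (d * m2) : ℕ) : ℝ) = (((b1 * p + w') * m2 : ℕ) : ℝ) := by rw [id2, mul_assoc]
      rw [this]
      push_cast
      ring
    refine finish ht0 hI hn0' hn1e hn2e ?_ ?_ ?_ ?_ (m1 := m1) (m2 := m2) (d := d) (p := p)
    · rw [P1]; constructor <;> linarith
    · rw [P2]; constructor <;> linarith
    · rw [P3]; constructor <;> linarith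
    · rw [P4]; constructor <;> linarith

end Pool.Agent.PO69
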