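import Pool.Agent.Lib.PO69.E2Geo

/-! # Row E2: the number of admissible `L` -/

set_option autoImplicit false

namespace Pool.Agent.Lib.PO69

open Finset

theorem adm_iff {κ X0 : ℝ} {b B s L : ℕ} (hb : 0 < b) :
    Adm κ X0 b B (s, L) ↔ s.Prime ∧ ¬ s ∣ L ∧
      (1 + 0.49 * κ / X0) * (B * s) / b < L ∧ (L : ℝ) < (1 + 0.51 * κ / X0) * (B * s) / b := by
  have hbr : (0 : ℝ) < b := by exact_mod_cast hb
  unfold Adm
  rw [div_lt_iff₀ hbr, lt_div_iff₀ hbr, mul_comm (L : ℝ) b]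

theorem len_eq {κ X0 : ℝ} {b B s : ℕ} (hX : 0 < X0) (hb : 0 < b) :
    (1 + 0.51 * κ / X0) * (B * s) / b - (1 + 0.49 * κ / X0) * (B * s) / b
      = 0.02 * (κ / X0) * ((B : ℝ) * s / b) := by
  have hbr : (0 : ℝ) < b := by exact_mod_cast hb
  field_simp
  ring

theorem count_L_le (κ X0 : ℝ) (b B s : ℕ) (hκ : 0 < κ) (hX : 0 < X0) (hb : 0 < b)
    (A : Finset ℕ) (hA : ∀ L ∈ A, Adm κ X0 b B (s, L)) :
    ∃ lo hi : ℕ, A ⊆ Ico lo hi ∧
      ((hi - lo : ℕ) : ℝ) ≤ 0.02 * (κ / X0) * ((B : ℝ) * s / b) + 1 := by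
  have hbr : (0 : ℝ) < b := by exact_mod_cast hb
  obtain ⟨a, ha⟩ : ∃ a, a = (1 + 0.49 * κ / X0) * ((B : ℝ) * s) / b := ⟨_, rfl⟩
  obtain ⟨e, he⟩ : ∃ e, e = (1 + 0.51 * κ / X0) * ((B : ℝ) * s) / b := ⟨_, rfl⟩
  have hl : e - a = 0.02 * (κ / X0) * ((B : ℝ) * s / b) := by
    rw [ha, he]; exact len_eq hX hb
  have ha0 : 0 ≤ a := by rw [ha]; positivity
  have he0 : 0 ≤ e := by rw [he]; positivity
  refine ⟨⌊a⌋₊ + 1, ⌈e⌉₊, ?_, ?_⟩
  · intro L hL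
    have h := (adm_iff hb).1 (hA L hL)
    rw [← ha, ← he] at h
    rw [mem_Ico]
    exact ⟨(Nat.floor_lt ha0).2 h.2.2.1, Nat.lt_ceil.2 h.2.2.2⟩
  · rw [← hl]
    have h1 : a < ⌊a⌋₊ + 1 := Nat.lt_floor_add_one a
    have h2 : (⌈e⌉₊ : ℝ) < e + 1 := Nat.ceil_lt_add_one he0
    rcases le_total (⌊a⌋₊ + 1) ⌈e⌉₊ with h | h
    · rw [Nat.cast_sub h]
      push_cast
      linarith
    · rw [Nat.sub_eq_zero_of_le h, Nat.cast_zero]
      rw [hl]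
      positivity

open Classical in
/-- the same with a real lower bound for the length -/
theorem count_L' (κ X0 : ℝ) (b B s W : ℕ) (hκ : 0 < κ) (hX : 0 < X0)
    (hb : 0 < b) (hs : s.Prime) (hbig : 6 ≤ 0.02 * (κ / X0) * ((B : ℝ) * s / b))
    (hW : ∀ L : ℕ, (b : ℝ) * L < (1 + 0.51 * κ / X0) * (B * s) → L < W) :
    0.005 * (κ / X0) * ((B : ℝ) * s / b)
      ≤ (((range W).filter (fun L => Adm κ X0 b B (s, L))).card : ℝ) := by
  have hbr : (0 : ℝ) < b := by exact_mod_cast hb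
  obtain ⟨a, ha⟩ : ∃ a, a = (1 + 0.49 * κ / X0) * ((B : ℝ) * s) / b := ⟨_, rfl⟩
  obtain ⟨e, he⟩ : ∃ e, e = (1 + 0.51 * κ / X0) * ((B : ℝ) * s) / b := ⟨_, rfl⟩
  obtain ⟨l, hl⟩ : ∃ l, l = 0.02 * (κ / X0) * ((B : ℝ) * s / b) := ⟨_, rfl⟩
  have hl' : e - a = l := by
    rw [ha, he, hl]; exact len_eq hX hb
  have ha0 : 0 ≤ a := by rw [ha]; positivity
  have he0 : 0 ≤ e := by rw [he]; positivity
  have hl6 : 6 ≤ l := by rw [hl]; exact hbig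
  have hgoal : 0.005 * (κ / X0) * ((B : ℝ) * s / b) = l / 4 := by rw [hl]; ring
  rw [hgoal]
  -- the integers of the open interval
  obtain ⟨I, hI⟩ : ∃ I, I = Ico (⌊a⌋₊ + 1) ⌈e⌉₊ := ⟨_, rfl⟩
  have hmem : ∀ L ∈ I, a < L ∧ (L : ℝ) < e := by
    intro L hL
    rw [hI, mem_Ico] at hL
    refine ⟨(Nat.floor_lt ha0).1 hL.1, Nat.lt_ceil.1 hL.2⟩
  have hf : (⌊a⌋₊ : ℝ) ≤ a := Nat.floor_le ha0
  have hc : e ≤ ⌈e⌉₊ := Nat.le_ceil e
  have hle : ⌊a⌋₊ + 1 ≤ ⌈e⌉₊ := by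
    have : ((⌊a⌋₊ + 1 : ℕ) : ℝ) ≤ (⌈e⌉₊ : ℝ) := by
      push_cast
      linarith
    exact_mod_cast this
  have hN : l - 1 ≤ (I.card : ℝ) := by
    rw [hI, Nat.card_Ico, Nat.cast_sub hle]
    push_cast
    linarith
  have hsub : I.filter (fun L => ¬ s ∣ L) ⊆ (range W).filter (fun L => Adm κ X0 b B (s, L)) := by
    intro L hL
    rw [mem_filter] at hL
    have h := hmem L hL.1
    rw [mem_filter, mem_range, adm_iff hb, ← ha, ← he]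
    refine ⟨hW L ?_, hs, hL.2, h.1, h.2⟩
    have h2 := h.2
    rw [he, lt_div_iff₀ hbr] at h2
    rw [mul_comm]
    exact h2
  have hmul : ((I.filter (fun L => s ∣ L)).card : ℝ) ≤ (I.card : ℝ) / s + 1 := by
    rw [hI]
    refine card_le_of_congr_Ico _ _ s hs.pos _ (filter_subset _ _) ?_
    intro x hx y hy
    exact ((Nat.modEq_zero_iff_dvd).2 (mem_filter.1 hx).2).trans
      ((Nat.modEq_zero_iff_dvd).2 (mem_filter.1 hy).2).symm
  have hsplit : ((I.filter (fun L => s ∣ L)).card : ℝ) + ((I.filter (fun L => ¬ s ∣ L)).card : ℝ)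
      = I.card := by
    exact_mod_cast card_filter_add_card_filter_not (s := I) (fun L => s ∣ L)
  have h2s : (I.card : ℝ) / s ≤ I.card / 2 := by
    have : (2 : ℝ) ≤ s := by exact_mod_cast hs.two_le
    gcongr
  have hfin : ((I.filter (fun L => ¬ s ∣ L)).card : ℝ)
      ≤ (((range W).filter (fun L => Adm κ X0 b B (s, L))).card : ℝ) := by
    exact_mod_cast card_le_card hsub
  linarith

open Classical in
theorem count_L (κ X0 : ℝ) (b B s W : ℕ) (hκ : 0 < κ) (hX : 0 < X0) (hX1 : X0 ≤ 0.006)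
    (hb : 0 < b) (hbB : b < B) (hs : s.Prime) (hs1 : 2 ≤ κ * s)
    (hW : ∀ L : ℕ, (b : ℝ) * L < (1 + 0.51 * κ / X0) * (B * s) → L < W) :
    0.005 * (κ / X0) * ((B : ℝ) * s / b)
      ≤ (((range W).filter (fun L => Adm κ X0 b B (s, L))).card : ℝ) := by
  have hbr : (0 : ℝ) < b := by exact_mod_cast hb
  refine count_L' κ X0 b B s W hκ hX hb hs ?_ hW
  have h1 : (1 : ℝ) ≤ (B : ℝ) / b := by
    rw [le_div_iff₀ hbr, one_mul]
    exact_mod_cast hbB.le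
  have h2 : 300 ≤ (κ * s) / X0 := by
    rw [le_div_iff₀ hX]
    nlinarith
  have h3 : 0.02 * (κ / X0) * ((B : ℝ) * s / b) = 0.02 * ((κ * s) / X0) * ((B : ℝ) / b) := by ring
  rw [h3]
  nlinarith

end Pool.Agent.Lib.PO69
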