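import Mathlib

/-! TANK MR, row E2: divergence of the sum of the reciprocals of the primes. helper4. -/

set_option autoImplicit false

namespace Pool.Agent.Lib.PO69

open Finset Filter

theorem exists_W0 (w0 : ℕ) (S : ℝ) :
    ∃ W0 : ℕ, S ≤ ∑ s ∈ (Icc w0 W0).filter Nat.Prime, 1 / (s : ℝ) := by
  classical
  have hns := Nat.Primes.not_summable_one_div
  have h1 : ¬ Summable (Set.indicator {p : ℕ | p.Prime} (fun n : ℕ => 1 / (n : ℝ))) :=
    not_summable_one_div_on_primes
  have h2 : Tendsto (fun n : ℕ => ∑ i ∈ range n,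
      Set.indicator {p : ℕ | p.Prime} (fun n : ℕ => 1 / (n : ℝ)) i) atTop atTop := by
    refine (not_summable_iff_tendsto_nat_atTop_of_nonneg ?_).1 h1
    intro n
    apply Set.indicator_nonneg
    intro x _
    positivity
  obtain ⟨N, hN⟩ := (tendsto_atTop.1 h2 (S + ∑ i ∈ range w0,
      Set.indicator {p : ℕ | p.Prime} (fun n : ℕ => 1 / (n : ℝ)) i)).exists_forall_of_atTop
  refine ⟨max N w0, ?_⟩
  have h3 := hN (max N w0 + 1) (by omega)
  have h4 : ∑ i ∈ range (max N w0 + 1),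
      Set.indicator {p : ℕ | p.Prime} (fun n : ℕ => 1 / (n : ℝ)) i =
      ∑ i ∈ range w0, Set.indicator {p : ℕ | p.Prime} (fun n : ℕ => 1 / (n : ℝ)) i +
      ∑ i ∈ Icc w0 (max N w0), Set.indicator {p : ℕ | p.Prime} (fun n : ℕ => 1 / (n : ℝ)) i := by
    rw [range_eq_Ico, range_eq_Ico, ← sum_Ico_consecutive _ (Nat.zero_le w0)
      (by omega : w0 ≤ max N w0 + 1)]
    rfl
  rw [h4] at h3
  have h5 : ∑ i ∈ Icc w0 (max N w0), Set.indicator {p : ℕ | p.Prime} (fun n : ℕ => 1 / (n : ℝ)) i =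
      ∑ s ∈ (Icc w0 (max N w0)).filter Nat.Prime, 1 / (s : ℝ) := by
    rw [sum_filter]
    apply sum_congr rfl
    intro i _
    by_cases hi : i.Prime
    · rw [Set.indicator_of_mem (by exact hi), if_pos hi]
    · rw [Set.indicator_of_notMem (by exact hi), if_neg hi]
  rw [h5] at h3
  linarith

end Pool.Agent.Lib.PO69
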