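import Pool.Agent.Lib.PO69.E2Sum
import Pool.Agent.Lib.PO69.E2Div
import Pool.Agent.Lib.PO69.E2Cnt
import Pool.Agent.Lib.PO69.GcdSumB
import Pool.Agent.Lib.PO69.Stat

/-! Row E2: the second moment. -/

set_option autoImplicit false

namespace Pool.Agent.Lib.PO69

open Finset

def GcdSumP : Prop := ∀ (b B s s' lo hi lo' hi' G : ℕ) (Λ : ℝ), Nat.Coprime b (B * s) →
  Nat.Coprime b (B * s') → ∀ P : Finset (ℕ × ℕ), (∀ p ∈ P, lo ≤ p.1 ∧ p.1 < hi ∧ lo' ≤ p.2 ∧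
    p.2 < hi' ∧ B * s < b * p.1 ∧ B * s' < b * p.2 ∧
    Nat.gcd (b * p.1 - B * s) (b * p.2 - B * s') ≤ G) → ((hi - lo : ℕ) : ℝ) ≤ Λ →
  ((hi' - lo' : ℕ) : ℝ) ≤ Λ →
  ∑ p ∈ P, (Nat.gcd (b * p.1 - B * s) (b * p.2 - B * s') : ℝ)
    ≤ Λ ^ 2 * (1 + Real.log G) + 2 * Λ * G + (G : ℝ) ^ 2

open Classical in
def CountLP : Prop := ∀ (κ X0 : ℝ) (b B s W : ℕ), 0 < κ → 0 < X0 → X0 ≤ 0.006 → 0 < b → b < B →
  s.Prime → 2 ≤ κ * s → (∀ L : ℕ, (b : ℝ) * L < (1 + 0.51 * κ / X0) * (B * s) → L < W) →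
  0.005 * (κ / X0) * (B * s / b) ≤ (((range W).filter (fun L => Adm κ X0 b B (s, L))).card : ℝ)

def CountLleP : Prop := ∀ (κ X0 : ℝ) (b B s : ℕ), 0 < κ → 0 < X0 → 0 < b →
  ∀ A : Finset ℕ, (∀ L ∈ A, Adm κ X0 b B (s, L)) → ∃ lo hi : ℕ, A ⊆ Ico lo hi ∧
    ((hi - lo : ℕ) : ℝ) ≤ 0.02 * (κ / X0) * (B * s / b) + 1

open Classical in
/-- the family -/
noncomputable def FF (κ X0 : ℝ) (b B w0 W0 : ℕ) : Finset (ℕ × ℕ) :=
  (((Icc w0 W0).filter Nat.Prime) ×ˢ range (3 * B * W0)).filter (fun p => Adm κ X0 b B p)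

theorem mem_FF {κ X0 : ℝ} {b B w0 W0 : ℕ} {p : ℕ × ℕ} (h : p ∈ FF κ X0 b B w0 W0) :
    w0 ≤ p.1 ∧ p.1 ≤ W0 ∧ Adm κ X0 b B p := by
  classical
  unfold FF at h
  rw [mem_filter, mem_product, mem_filter, mem_Icc] at h
  exact ⟨h.1.1.1.1, h.1.1.1.2, h.2⟩

/-- lower bound of the total expectation. -/
theorem EN_ge (hC : CountLP) {κ X0 : ℝ} {b B w0 W0 : ℕ} (hκ : 0 < κ) (hX : 0.35 * κ ≤ X0)
    (hX1 : X0 ≤ 0.006) (hb : 0 < b) (hbB : b < B) (hw0 : 2 ≤ κ * w0)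
    (hbig : 100 * W0 ≤ κ * b) :
    9.5e-5 * κ * (∑ s ∈ (Icc w0 W0).filter Nat.Prime, 1 / (s : ℝ))
      ≤ ∑ p ∈ FF κ X0 b B w0 W0, rho κ X0 b B p := by
  classical
  have hX0 : 0 < X0 := by linarith
  have hb' : (0 : ℝ) < b := by exact_mod_cast hb
  have hbB' : (b : ℝ) < B := by exact_mod_cast hbB
  have hB' : (0 : ℝ) < B := by linarith
  have hκX : κ / X0 ≤ 20 / 7 := by
    rw [div_le_iff₀ hX0]; linarith
  have e0 : ∑ p ∈ FF κ X0 b B w0 W0, rho κ X0 b B p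
      = ∑ s ∈ (Icc w0 W0).filter Nat.Prime, ∑ L ∈ range (3 * B * W0),
        if Adm κ X0 b B (s, L) then rho κ X0 b B (s, L) else 0 := by
    unfold FF
    rw [sum_filter, sum_product]
  rw [e0, mul_sum]
  refine sum_le_sum fun s hs => ?_
  rw [mem_filter, mem_Icc] at hs
  have hs0 : (0 : ℝ) < s := by exact_mod_cast hs.2.pos
  have hsW : (s : ℝ) ≤ W0 := by exact_mod_cast hs.1.2
  have hsw : (w0 : ℝ) ≤ s := by exact_mod_cast hs.1.1
  have hbs : 100 ≤ κ * (b / s) := by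
    rw [← mul_div_assoc, le_div_iff₀ hs0]
    nlinarith
  rw [← sum_filter]
  have h1 : ∀ L ∈ (range (3 * B * W0)).filter (fun L => Adm κ X0 b B (s, L)),
      0.019 * (X0 * b / (B * (s : ℝ) ^ 2)) ≤ rho κ X0 b B (s, L) := by
    intro L hL
    rw [mem_filter] at hL
    exact hL.2.rho_ge hκ hX hb (by omega) hbs
  have h2 := card_nsmul_le_sum _ _ _ h1
  rw [nsmul_eq_mul] at h2
  refine le_trans ?_ h2
  have h3 := hC κ X0 b B s (3 * B * W0) hκ hX0 hX1 hb hbB hs.2 (by nlinarith) (by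
    intro L hL
    have e2 : 0.51 * κ / X0 = 0.51 * (κ / X0) := by ring
    rw [e2] at hL
    have hb1 : (1 : ℝ) ≤ b := by exact_mod_cast hb
    have h4 : (L : ℝ) < 3 * B * W0 := by
      have h5 : (1 + 0.51 * (κ / X0)) * ((B : ℝ) * s) ≤ 3 * (B * W0) := by
        have h6 : (B : ℝ) * s ≤ B * W0 := mul_le_mul_of_nonneg_left hsW hB'.le
        exact mul_le_mul (by linarith) h6 (by positivity) (by norm_num)
      have h7 : (L : ℝ) ≤ b * L := by
        have : (0 : ℝ) ≤ L := Nat.cast_nonneg L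
        nlinarith
      linarith
    exact_mod_cast h4)
  have h4 : 0 ≤ 0.019 * (X0 * b / (B * (s : ℝ) ^ 2)) := by positivity
  refine le_trans ?_ (mul_le_mul_of_nonneg_right h3 h4)
  have e3 : 0.005 * (κ / X0) * (B * s / b) * (0.019 * (X0 * b / (B * (s : ℝ) ^ 2)))
      = 9.5e-5 * κ * (1 / s) := by
    field_simp
    norm_num
  rw [e3]

/-- upper bound of the sum of the gcd's. -/
theorem gcd_total (hG : GcdSumP) (hL : CountLleP) {κ X0 : ℝ} {b B w0 W0 : ℕ} (hκ : 0 < κ)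
    (hX : 0.35 * κ ≤ X0) (hb : b.Prime) (hB : B.Prime) (hbB : b < B) (hW0 : 1 ≤ W0)
    (hw0 : 1 ≤ w0) (hWb : W0 < b) :
    ∑ p ∈ FF κ X0 b B w0 W0, ∑ q ∈ (FF κ X0 b B w0 W0).erase p,
      ((Nat.gcd (b * p.2 - B * p.1) (b * q.2 - B * q.1) : ℕ) : ℝ)
      ≤ (W0 : ℝ) ^ 2 * (37 * (W0 : ℝ) ^ 4 * (B / b) ^ 2 * (1 + Real.log B)) := by
  classical
  have hX0 : 0 < X0 := by linarith
  have hb' : (0 : ℝ) < b := by exact_mod_cast hb.pos
  have hbB' : (b : ℝ) < B := by exact_mod_cast hbB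
  have hB' : (0 : ℝ) < B := by linarith
  have hB1 : (1 : ℝ) ≤ B := by exact_mod_cast hB.one_lt.le
  have hκX : κ / X0 ≤ 20 / 7 := by
    rw [div_le_iff₀ hX0]; linarith
  have hr1 : 1 ≤ (B : ℝ) / b := by
    rw [le_div_iff₀ hb']; linarith
  have h0 := off_total (FF κ X0 b B w0 W0) ((Icc w0 W0).filter Nat.Prime)
    (37 * (W0 : ℝ) ^ 4 * (B / b) ^ 2 * (1 + Real.log B))
    (fun p q => ((Nat.gcd (b * p.2 - B * p.1) (b * q.2 - B * q.1) : ℕ) : ℝ)) ?_ ?_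
  · refine h0.trans ?_
    have h1 : (((Icc w0 W0).filter Nat.Prime).card : ℝ) ≤ W0 := by
      have h2 : ((Icc w0 W0).filter Nat.Prime).card ≤ (Icc w0 W0).card := card_filter_le _ _
      rw [Nat.card_Icc] at h2
      have h3 : ((Icc w0 W0).filter Nat.Prime).card ≤ W0 := by omega
      exact_mod_cast h3
    have hlog : 0 ≤ Real.log B := Real.log_nonneg hB1
    have h4 : 0 ≤ 37 * (W0 : ℝ) ^ 4 * (B / b) ^ 2 * (1 + Real.log B) := by positivity
    exact mul_le_mul_of_nonneg_right (pow_le_pow_left₀ (Nat.cast_nonneg _) h1 2) h4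
  · intro p hp
    have := mem_FF hp
    rw [mem_filter, mem_Icc]
    exact ⟨⟨this.1, this.2.1⟩, this.2.2.1⟩
  · intro s hs s' hs' P hP
    rw [mem_filter, mem_Icc] at hs hs'
    have hsW : (s : ℝ) ≤ W0 := by exact_mod_cast hs.1.2
    have hsW' : (s' : ℝ) ≤ W0 := by exact_mod_cast hs'.1.2
    obtain ⟨l, h, hA, hlen⟩ := hL κ X0 b B s hκ hX0 hb.pos (P.image Prod.fst) (by
      intro L hL
      rw [mem_image] at hL
      obtain ⟨x, hx, rfl⟩ := hL
      exact (mem_FF (hP x hx).1).2.2)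
    obtain ⟨l', h', hA', hlen'⟩ := hL κ X0 b B s' hκ hX0 hb.pos (P.image Prod.snd) (by
      intro L hL
      rw [mem_image] at hL
      obtain ⟨x, hx, rfl⟩ := hL
      exact (mem_FF (hP x hx).2.1).2.2)
    have hΛ : ∀ s : ℝ, 0 ≤ s → s ≤ W0 →
        0.02 * (κ / X0) * (B * s / b) + 1 ≤ 2 * (W0 : ℝ) * (B / b) := by
      intro s hs0 hs
      have h1 : (B : ℝ) * s / b ≤ W0 * (B / b) := by
        rw [mul_div_assoc', mul_comm (W0 : ℝ) (B : ℝ)]
        exact div_le_div_of_nonneg_right (mul_le_mul_of_nonneg_left hs hB'.le) hb'.le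
      have h2 : 0.02 * (κ / X0) ≤ 1 := by linarith
      have h3 : 0 ≤ (B : ℝ) * s / b := by positivity
      have h4 : (1 : ℝ) ≤ W0 * (B / b) := by
        have : (1 : ℝ) ≤ W0 := by exact_mod_cast hW0
        nlinarith
      nlinarith
    have hmain := hG b B s s' l h l' h' ⌊3 * (W0 : ℝ) ^ 2 * (B / b)⌋₊ (2 * (W0 : ℝ) * (B / b))
      (coprime_bB hb hB (by omega) hs.2.pos (by omega))
      (coprime_bB hb hB (by omega) hs'.2.pos (by omega)) P (by
        intro x hx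
        have hx1 := mem_Ico.1 (hA (mem_image_of_mem _ hx))
        have hx2 := mem_Ico.1 (hA' (mem_image_of_mem _ hx))
        obtain ⟨hF1, hF2, hne⟩ := hP x hx
        have a1 := mem_FF hF1
        have a2 := mem_FF hF2
        refine ⟨hx1.1, hx1.2, hx2.1, hx2.2, a1.2.2.lt hκ hX0 hB.pos, a2.2.2.lt hκ hX0 hB.pos, ?_⟩
        exact Nat.le_floor (a1.2.2.gcd_le a2.2.2 hne hκ hX hb hB hbB W0 a1.2.1 a2.2.1 hWb))
      (hlen.trans (hΛ s (Nat.cast_nonneg _) hsW)) (hlen'.trans (hΛ s' (Nat.cast_nonneg _) hsW'))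
    refine hmain.trans (T_le W0 B b hW0 hb.pos hbB)

theorem countLP : CountLP := by
  classical
  intro κ X0 b B s W hκ hX hX1 hb hbB hs hs1 hW
  have := count_L κ X0 b B s W hκ hX hX1 hb hbB hs hs1 hW
  convert this using 2

theorem countLleP : CountLleP := by
  intro κ X0 b B s hκ hX hb A hA
  exact count_L_le κ X0 b B s hκ hX hb A hA

theorem second_moment_of (hG : GcdSumP) : Pool.Agent.PO69.SecondMoment := by
  classical
  intro κ δ hκ hκ1 hδ
  -- choose w0, W0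
  obtain ⟨w0, hw0⟩ : ∃ w0 : ℕ, 2 / κ ≤ w0 := exists_nat_ge _
  have hw0' : 2 ≤ κ * w0 := by
    rw [div_le_iff₀ hκ] at hw0; linarith
  have hw01 : 1 ≤ w0 := by
    rcases Nat.eq_zero_or_pos w0 with h | h
    · rw [h] at hw0'; norm_num at hw0'
    · exact h
  obtain ⟨W0, hW0⟩ := exists_W0 w0 ((1 + 2 / δ) / (9.5e-5 * κ))
  have hS0 : 0 < (1 + 2 / δ) / (9.5e-5 * κ) := by positivity
  have hW01 : 1 ≤ W0 := by
    rcases Nat.eq_zero_or_pos W0 with h | h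
    · rw [h] at hW0
      have : (Icc w0 0).filter Nat.Prime = ∅ := by
        rw [Icc_eq_empty (by omega), filter_empty]
      rw [this, sum_empty] at hW0
      linarith
    · exact h
  -- choose b0
  obtain ⟨b0, hb0⟩ : ∃ b0 : ℕ, max (max ((W0 : ℝ) + 1) (100 * W0 / κ))
      (((W0 : ℝ) ^ 6 / κ * (2 / δ)) ^ 2) ≤ b0 := exists_nat_ge _
  refine ⟨b0, ?_⟩
  intro b B hb hB hb0b hbB hlog f hf hf1
  have hbb : (b0 : ℝ) ≤ b := by exact_mod_cast hb0b
  have hb' : (0 : ℝ) < b := by exact_mod_cast hb.pos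
  have hbB' : (b : ℝ) < B := by exact_mod_cast hbB
  have hB' : (0 : ℝ) < B := by linarith
  have hWb : W0 < b := by
    have : (W0 : ℝ) + 1 ≤ b := ((le_max_left _ _).trans (le_max_left _ _)).trans (hb0.trans hbb)
    have : ((W0 + 1 : ℕ) : ℝ) ≤ b := by push_cast; linarith
    have : W0 + 1 ≤ b := by exact_mod_cast this
    omega
  have hbig : 100 * (W0 : ℝ) ≤ κ * b := by
    have : 100 * (W0 : ℝ) / κ ≤ b :=
      ((le_max_right _ _).trans (le_max_left _ _)).trans (hb0.trans hbb)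
    rw [div_le_iff₀ hκ] at this
    linarith
  have hsq : (W0 : ℝ) ^ 6 / κ * (2 / δ) ≤ √b := by
    have : ((W0 : ℝ) ^ 6 / κ * (2 / δ)) ^ 2 ≤ b := (le_max_right _ _).trans (hb0.trans hbb)
    exact Real.le_sqrt_of_sq_le this
  set X0 : ℝ := f + 0.35 * κ with hX0def
  have hX : 0.35 * κ ≤ X0 := by linarith
  have hX1 : X0 ≤ 0.006 := by norm_num at hf1 hκ1 ⊢; linarith
  have hX0 : 0 < X0 := by linarith
  set F := FF κ X0 b B w0 W0 with hF
  have hmem : ∀ p ∈ F, w0 ≤ p.1 ∧ p.1 ≤ W0 ∧ Adm κ X0 b B p := fun p hp => mem_FF hp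
  have hdpos : ∀ p ∈ F, 0 < dd b B p := fun p hp =>
    Nat.sub_pos_of_lt ((hmem p hp).2.2.lt hκ hX0 hB.pos)
  set Q : ℕ := ∏ p ∈ F, dd b B p with hQ
  have hQ0 : 0 < Q := prod_pos hdpos
  have hdvd1 : ∀ p ∈ F, dd b B p ∣ Q := fun p hp => dvd_prod_of_mem _ hp
  have hdvd2 : ∀ p ∈ F, ∀ q ∈ F, p ≠ q → dd b B p * dd b B q ∣ Q := by
    intro p hp q hq hne
    rw [hQ, ← mul_prod_erase F _ hp]
    exact mul_dvd_mul_left _ (dvd_prod_of_mem _ (mem_erase.2 ⟨hne.symm, hq⟩))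
  have hbs : ∀ p ∈ F, 100 ≤ κ * ((b : ℝ) / p.1) := by
    intro p hp
    have h1 : (0 : ℝ) < p.1 := by exact_mod_cast (hmem p hp).2.2.pos.1
    have h2 : (p.1 : ℝ) ≤ W0 := by exact_mod_cast (hmem p hp).2.1
    rw [← mul_div_assoc, le_div_iff₀ h1]
    nlinarith
  set X : ℕ × ℕ → ℕ → ℝ := fun p M =>
    cnt b p.1 (dd b B p) (lo κ X0 b p.1) (hi κ X0 b p.1) M with hXX
  set E : ℝ := ∑ p ∈ F, rho κ X0 b B p with hE
  have hE1 : 1 + 2 / δ ≤ E := by
    have h1 := EN_ge countLP hκ hX hX1 hb.pos hbB hw0' hbig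
    have h2 : (1 + 2 / δ) = 9.5e-5 * κ * ((1 + 2 / δ) / (9.5e-5 * κ)) := by
      field_simp
    rw [h2]
    refine le_trans ?_ h1
    exact mul_le_mul_of_nonneg_left hW0 (by positivity)
  have hE0 : 0 < E := by
    have : 0 < 2 / δ := by positivity
    linarith
  have hEge1 : 1 ≤ E := by
    have : 0 < 2 / δ := by positivity
    linarith
  -- the off diagonal total
  set G : ℝ := ∑ p ∈ F, ∑ q ∈ F.erase p,
      ((Nat.gcd (b * p.2 - B * p.1) (b * q.2 - B * q.1) : ℕ) : ℝ) with hGdef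
  have hGle : G ≤ (W0 : ℝ) ^ 2 * (37 * (W0 : ℝ) ^ 4 * (B / b) ^ 2 * (1 + Real.log B)) :=
    gcd_total hG countLleP hκ hX hb hB hbB hW01 hw01 hWb
  set K : ℝ := 0.07 * (X0 * b / B) * (3 * (X0 / κ) / B) with hK
  have hK0 : 0 ≤ K := by positivity
  have hKG : K * G ≤ δ / 2 := by
    have h1 : K * G ≤ K * ((W0 : ℝ) ^ 2 * (37 * (W0 : ℝ) ^ 4 * (B / b) ^ 2 * (1 + Real.log B))) :=
      mul_le_mul_of_nonneg_left hGle hK0
    have h2 : K * ((W0 : ℝ) ^ 2 * (37 * (W0 : ℝ) ^ 4 * (B / b) ^ 2 * (1 + Real.log B)))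
        = (0.07 * 3 * 37) * X0 ^ 2 * ((W0 : ℝ) ^ 6 / κ) * ((1 + Real.log B) / b) := by
      rw [hK]
      field_simp
    have h3 : (1 + Real.log B) / b ≤ 1 / √b := by
      rw [div_le_div_iff₀ hb' (by positivity)]
      have h4 : √(b : ℝ) * √b = b := Real.mul_self_sqrt hb'.le
      have h5 : 0 ≤ √(b : ℝ) := Real.sqrt_nonneg _
      nlinarith
    have h6 : X0 ^ 2 ≤ 0.006 ^ 2 := pow_le_pow_left₀ hX0.le hX1 2
    have h7 : (0.07 * 3 * 37) * X0 ^ 2 ≤ 1 := by nlinarith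
    have h8 : (0 : ℝ) ≤ (W0 : ℝ) ^ 6 / κ := by positivity
    have hB1 : (1 : ℝ) ≤ B := by exact_mod_cast hB.one_lt.le
    have h9 : 0 ≤ (1 + Real.log B) / b := by
      have := Real.log_nonneg hB1
      positivity
    have h10 : (W0 : ℝ) ^ 6 / κ * (1 / √b) ≤ δ / 2 := by
      rw [mul_one_div, div_le_iff₀ (Real.sqrt_pos.2 hb')]
      have h11 : (W0 : ℝ) ^ 6 / κ * (2 / δ) * (δ / 2) ≤ √b * (δ / 2) :=
        mul_le_mul_of_nonneg_right hsq (by positivity)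
      have h12 : (W0 : ℝ) ^ 6 / κ * (2 / δ) * (δ / 2) = (W0 : ℝ) ^ 6 / κ := by
        field_simp
      linarith
    calc K * G ≤ (0.07 * 3 * 37) * X0 ^ 2 * ((W0 : ℝ) ^ 6 / κ) * ((1 + Real.log B) / b) :=
          h2 ▸ h1
      _ ≤ 1 * ((W0 : ℝ) ^ 6 / κ) * ((1 + Real.log B) / b) := by gcongr
      _ ≤ 1 * ((W0 : ℝ) ^ 6 / κ) * (1 / √b) := by gcongr
      _ ≤ δ / 2 := by linarith
  have hsm := sm_total F Q X (fun p => rho κ X0 b B p) (δ / 2) ?_ ?_ ?_ hE0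
  · refine ⟨Q, hQ0, (range Q).filter (fun M => ∀ i ∈ F, X i M = 0), filter_subset _ _, ?_, ?_⟩
    · refine hsm.trans (mul_le_mul_of_nonneg_right ?_ (Nat.cast_nonneg _))
      rw [div_le_iff₀ (by positivity)]
      have h1 : 1 ≤ δ / 2 * E := by
        have : 2 / δ ≤ E := by linarith
        rw [div_le_iff₀ hδ] at this
        linarith
      nlinarith
    · intro M hM
      have hMQ : M % Q ∈ range Q := mem_range.2 (Nat.mod_lt _ hQ0)
      rw [mem_filter, not_and] at hM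
      have h1 := hM hMQ
      push Not at h1
      obtain ⟨p, hpF, hp⟩ := h1
      obtain ⟨_, hpW, hpA⟩ := hmem p hpF
      have h2 : ((Ico (lo κ X0 b p.1) (hi κ X0 b p.1)).filter
          (fun D => dd b B p ∣ b * (M % Q) + p.1 * D)).Nonempty := by
        rw [nonempty_iff_ne_empty]
        intro h3
        apply hp
        rw [hXX]
        simp only [cnt]
        rw [h3, card_empty, Nat.cast_zero]
      obtain ⟨D, hD⟩ := h2
      rw [mem_filter] at hD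
      obtain ⟨hDI, hDd⟩ := hD
      have hdM : dd b B p ∣ b * M + p.1 * D := by
        have h3 : b * M + p.1 * D ≡ b * (M % Q) + p.1 * D [MOD dd b B p] := by
          refine Nat.ModEq.add_right _ (Nat.ModEq.mul_left _ ?_)
          exact ((Nat.mod_modEq M Q).symm).of_dvd (hdvd1 p hpF)
        exact (Nat.modEq_zero_iff_dvd).1 (h3.trans ((Nat.modEq_zero_iff_dvd).2 hDd))
      have hlt := hpA.lt hκ hX0 hB.pos
      have hBd : B * p.1 + dd b B p = b * p.2 := by unfold dd; omega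
      have hcop : Nat.Coprime b (dd b B p) :=
        hpA.coprime_b hκ hX0 hb hB (by omega) (by omega)
      obtain ⟨a1, a2, a3, a4⟩ := hpA.window hκ hX hb.pos hB.pos hDI
      refine ⟨D, p.1, p.2, dd b B p, ?_, hpA.pos.1, hpA.pos.2, hdpos p hpF, hBd, hdM, ?_,
        by linarith, by linarith, by linarith, by linarith⟩
      · have := (mem_Ico.1 hDI).1
        unfold lo at this
        omega
      · have h3 : dd b B p ∣ b * (B * M + p.2 * D) := by
          have h4 : b * (B * M + p.2 * D) = B * (b * M + p.1 * D) + dd b B p * D := by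
            have h5 : b * (B * M + p.2 * D) = B * (b * M) + (b * p.2) * D := by ring
            rw [h5, ← hBd]
            ring
          rw [h4]
          exact dvd_add (hdM.mul_left _) (dvd_mul_right _ _)
        exact (Nat.Coprime.dvd_of_dvd_mul_left hcop.symm h3)
  · intro p hp
    obtain ⟨_, hpW, hpA⟩ := hmem p hp
    have := sum_cnt b p.1 (dd b B p) (lo κ X0 b p.1) (hi κ X0 b p.1) Q (hdpos p hp)
      (hpA.coprime_b hκ hX0 hb hB (by omega) (by omega)) (hdvd1 p hp)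
    rw [hXX]
    exact this
  · intro p hp
    obtain ⟨_, hpW, hpA⟩ := hmem p hp
    have := sum_cnt_sq b p.1 (dd b B p) (lo κ X0 b p.1) (hi κ X0 b p.1) Q (hdpos p hp)
      (hpA.coprime_b hκ hX0 hb hB (by omega) (by omega)) (hdvd1 p hp)
      (hpA.coprime_s hκ hX0 hb hB (by omega)) (hpA.hi_le hκ hX hX1 hb.pos hbB (hbs p hp))
    rw [hXX]
    exact this
  · have h1 : ∀ p ∈ F, ∑ q ∈ F.erase p, ∑ M ∈ range Q, X p M * X q M
        ≤ ∑ q ∈ F.erase p, (rho κ X0 b B p * rho κ X0 b B q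
          + K * (Nat.gcd (b * p.2 - B * p.1) (b * q.2 - B * q.1) : ℕ)) * Q := by
      intro p hp
      refine sum_le_sum fun q hq => ?_
      rw [mem_erase] at hq
      obtain ⟨_, hpW, hpA⟩ := hmem p hp
      obtain ⟨_, hqW, hqA⟩ := hmem q hq.2
      exact mixed hpA hqA Q hκ hX hb hB hbB (by omega) (by omega) (hbs p hp)
        (hdvd2 p hp q hq.2 hq.1.symm)
    refine (sum_le_sum h1).trans ?_
    have h2 : ∑ p ∈ F, ∑ q ∈ F.erase p, (rho κ X0 b B p * rho κ X0 b B q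
          + K * (Nat.gcd (b * p.2 - B * p.1) (b * q.2 - B * q.1) : ℕ)) * (Q : ℝ)
        = (∑ p ∈ F, ∑ q ∈ F.erase p, rho κ X0 b B p * rho κ X0 b B q + K * G) * Q := by
      rw [hGdef, mul_sum, ← sum_add_distrib, sum_mul]
      refine sum_congr rfl fun p _ => ?_
      rw [mul_sum, ← sum_add_distrib, sum_mul]
    rw [h2]
    refine mul_le_mul_of_nonneg_right ?_ (Nat.cast_nonneg _)
    have h3 : ∑ p ∈ F, ∑ q ∈ F.erase p, rho κ X0 b B p * rho κ X0 b B q ≤ E ^ 2 := by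
      rw [sq, hE, sum_mul_sum]
      refine sum_le_sum fun p _ => ?_
      exact sum_le_sum_of_subset_of_nonneg (erase_subset _ _) fun q _ _ =>
        mul_nonneg (rho_nonneg p) (rho_nonneg q)
    linarith

/-- Row E2. -/
theorem second_moment : Pool.Agent.PO69.SecondMoment :=
  second_moment_of (fun b B s s' lo hi lo' hi' G Λ hb hb' P hP h1 h2 =>
    gcd_sum' b B s s' lo hi lo' hi' G Λ hb hb' P hP h1 h2)

end Pool.Agent.Lib.PO69
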