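import Pool.Agent.Lib.PO69.Stat

/-! TANK MR, row E4: few integers have no prime factor in a given rich finite set of primes. helper22. -/

set_option autoImplicit false

namespace Pool.Agent.PO69

open Finset Pool.Agent.MRL

/-- `φ(M) = M ∏ (1 - 1/p)` for a product of distinct primes. -/
theorem totient_prod_primes (P : Finset ℕ) (hP : ∀ p ∈ P, p.Prime) :
    ((Nat.totient (∏ p ∈ P, p) : ℕ) : ℝ) = ((∏ p ∈ P, p : ℕ) : ℝ) * ∏ p ∈ P, (1 - 1 / (p : ℝ)) := by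
  have h := Nat.totient_eq_mul_prod_factors (∏ p ∈ P, p)
  rw [Nat.primeFactors_prod hP] at h
  have h2 : (((Nat.totient (∏ p ∈ P, p) : ℕ) : ℚ) : ℝ)
      = (((((∏ p ∈ P, p : ℕ) : ℚ) * ∏ p ∈ P, (1 - ((p : ℚ))⁻¹) : ℚ)) : ℝ) := by rw [h]
  push_cast at h2
  push_cast
  simpa [one_div] using h2

/-- the number of `n ∈ (a, b]` for which no prime of `P` divides `n + j`, explicit error. -/
theorem sieve_count (P : Finset ℕ) (hP : ∀ p ∈ P, p.Prime) (j a b : ℕ) (hab : a ≤ b) :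
    (((Ioc a b).filter (fun n => ∀ p ∈ P, ¬ p ∣ n + j)).card : ℝ)
      ≤ ((b : ℝ) - a) * ∏ p ∈ P, (1 - 1 / (p : ℝ)) + ((∏ p ∈ P, p : ℕ) : ℝ) := by
  set M : ℕ := ∏ p ∈ P, p with hM
  have hMpos : 0 < M := Finset.prod_pos fun p hp => (hP p hp).pos
  -- the filter is a set of integers coprime to `M`
  have hcop : ∀ m : ℕ, (∀ p ∈ P, ¬ p ∣ m) ↔ Nat.Coprime M m := by
    intro m
    rw [hM, Nat.coprime_prod_left_iff]
    constructor
    · intro h p hp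
      exact (Nat.Prime.coprime_iff_not_dvd (hP p hp)).2 (h p hp)
    · intro h p hp
      exact (Nat.Prime.coprime_iff_not_dvd (hP p hp)).1 (h p hp)
  have hcard : ((Ioc a b).filter (fun n => ∀ p ∈ P, ¬ p ∣ n + j)).card
      ≤ ((Ico (a + 1 + j) (a + 1 + j + (b - a))).filter (Nat.Coprime M)).card := by
    apply Finset.card_le_card_of_injOn (fun n => n + j)
    · intro n hn
      simp only [coe_filter, mem_Ioc, Set.mem_ofPred_eq] at hn
      simp only [coe_filter, mem_Ico, Set.mem_ofPred_eq]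
      refine ⟨by omega, (hcop _).1 hn.2⟩
    · intro x _ y _ hxy
      simpa using hxy
  have h1 := Nat.Ico_filter_coprime_le (a := M) (a + 1 + j) (b - a) hMpos.ne'
  have h2 : (((Ioc a b).filter (fun n => ∀ p ∈ P, ¬ p ∣ n + j)).card : ℝ)
      ≤ ((Nat.totient M * ((b - a) / M + 1) : ℕ) : ℝ) := by
    exact_mod_cast hcard.trans h1
  have h3 : (((b - a) / M : ℕ) : ℝ) ≤ ((b : ℝ) - a) / M := by
    have := @Nat.cast_div_le ℝ _ _ _ (b - a) M
    rwa [Nat.cast_sub hab] at this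
  have hφ := totient_prod_primes P hP
  rw [← hM] at hφ
  have hφ0 : (0 : ℝ) ≤ (Nat.totient M : ℝ) := Nat.cast_nonneg _
  have hφM : (Nat.totient M : ℝ) ≤ M := by exact_mod_cast Nat.totient_le M
  have hMr : (0 : ℝ) < M := by exact_mod_cast hMpos
  calc (((Ioc a b).filter (fun n => ∀ p ∈ P, ¬ p ∣ n + j)).card : ℝ)
      ≤ ((Nat.totient M * ((b - a) / M + 1) : ℕ) : ℝ) := h2
    _ = (Nat.totient M : ℝ) * ((((b - a) / M : ℕ) : ℝ) + 1) := by push_cast; ring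
    _ ≤ (Nat.totient M : ℝ) * (((b : ℝ) - a) / M + 1) := by gcongr
    _ = ((b : ℝ) - a) * ((Nat.totient M : ℝ) / M) + Nat.totient M := by
        field_simp
    _ ≤ ((b : ℝ) - a) * ∏ p ∈ P, (1 - 1 / (p : ℝ)) + M := by
        have : (Nat.totient M : ℝ) / M = ∏ p ∈ P, (1 - 1 / (p : ℝ)) := by
          rw [hφ]
          field_simp
        rw [this]
        gcongr

/-- the product is at most `exp (- Σ 1/p)`. -/
theorem prod_le_exp (P : Finset ℕ) (hP : ∀ p ∈ P, p.Prime) :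
    ∏ p ∈ P, (1 - 1 / (p : ℝ)) ≤ Real.exp (-∑ p ∈ P, 1 / (p : ℝ)) := by
  rw [← Finset.sum_neg_distrib, Real.exp_sum]
  apply Finset.prod_le_prod
  · intro p hp
    have : (1 : ℝ) ≤ p := by exact_mod_cast (hP p hp).one_lt.le
    rw [sub_nonneg, div_le_one (by linarith)]
    exact this
  · intro p _
    have := Real.add_one_le_exp (-(1 / (p : ℝ)))
    linarith

theorem prod_nonneg' (P : Finset ℕ) (hP : ∀ p ∈ P, p.Prime) :
    0 ≤ ∏ p ∈ P, (1 - 1 / (p : ℝ)) := by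
  apply Finset.prod_nonneg
  intro p hp
  have : (1 : ℝ) ≤ p := by exact_mod_cast (hP p hp).one_lt.le
  rw [sub_nonneg, div_le_one (by linarith)]
  exact this

/-- row E4 (a): density of the integers without a prime factor in `P`, dyadic form. -/
theorem sieve_density_dyadic (P : Finset ℕ) (hP : ∀ p ∈ P, p.Prime) (j : ℕ) {ε : ℝ} (hε : 0 < ε) :
    ∃ X0 : ℝ, ∀ X : ℝ, X0 ≤ X →
      (((Icc ⌈X⌉₊ ⌊2 * X⌋₊).filter (fun n => ∀ p ∈ P, ¬ p ∣ n + j)).card : ℝ)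
        ≤ (∏ p ∈ P, (1 - 1 / (p : ℝ)) + ε) * X := by
  set M : ℕ := ∏ p ∈ P, p with hM
  refine ⟨max 1 ((M + 1) / ε), fun X hX => ?_⟩
  have hX1 : (1 : ℝ) ≤ X := (le_max_left _ _).trans hX
  have hX2 : ((M : ℝ) + 1) / ε ≤ X := (le_max_right _ _).trans hX
  have hX3 : (M : ℝ) + 1 ≤ ε * X := by
    rw [div_le_iff₀ hε] at hX2
    linarith
  have hc1 : 1 ≤ ⌈X⌉₊ := Nat.one_le_ceil_iff.2 (by linarith)
  have hsub : (Icc ⌈X⌉₊ ⌊2 * X⌋₊).filter (fun n => ∀ p ∈ P, ¬ p ∣ n + j)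
      ⊆ (Ioc (⌈X⌉₊ - 1) (max (⌈X⌉₊ - 1) ⌊2 * X⌋₊)).filter (fun n => ∀ p ∈ P, ¬ p ∣ n + j) := by
    intro n hn
    simp only [mem_filter, mem_Icc] at hn
    simp only [mem_filter, mem_Ioc]
    exact ⟨⟨by omega, by omega⟩, hn.2⟩
  have h1 := sieve_count P hP j (⌈X⌉₊ - 1) (max (⌈X⌉₊ - 1) ⌊2 * X⌋₊) (le_max_left _ _)
  have h2 : ((max (⌈X⌉₊ - 1) ⌊2 * X⌋₊ : ℕ) : ℝ) - ((⌈X⌉₊ - 1 : ℕ) : ℝ) ≤ X + 1 := by
    have e1 : ((⌈X⌉₊ - 1 : ℕ) : ℝ) = (⌈X⌉₊ : ℝ) - 1 := by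
      rw [Nat.cast_sub hc1, Nat.cast_one]
    have e2 : X ≤ (⌈X⌉₊ : ℝ) := Nat.le_ceil X
    have e3 : ((⌊2 * X⌋₊ : ℕ) : ℝ) ≤ 2 * X := Nat.floor_le (by linarith)
    rw [Nat.cast_max, e1]
    have : max ((⌈X⌉₊ : ℝ) - 1) (⌊2 * X⌋₊ : ℝ) ≤ X + 1 + ((⌈X⌉₊ : ℝ) - 1) := by
      apply max_le <;> linarith
    linarith
  have hp0 := prod_nonneg' P hP
  have hp1 : ∏ p ∈ P, (1 - 1 / (p : ℝ)) ≤ 1 := by
    refine (prod_le_exp P hP).trans ?_
    rw [Real.exp_le_one_iff, neg_nonpos]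
    positivity
  calc (((Icc ⌈X⌉₊ ⌊2 * X⌋₊).filter (fun n => ∀ p ∈ P, ¬ p ∣ n + j)).card : ℝ)
      ≤ _ := by exact_mod_cast card_le_card hsub
    _ ≤ _ := h1
    _ ≤ (X + 1) * ∏ p ∈ P, (1 - 1 / (p : ℝ)) + M := by gcongr
    _ ≤ X * ∏ p ∈ P, (1 - 1 / (p : ℝ)) + 1 + M := by nlinarith
    _ ≤ (∏ p ∈ P, (1 - 1 / (p : ℝ)) + ε) * X := by nlinarith

/-- row E4a. -/
theorem sieve_density : SieveDensity := by
  intro P hP j
  refine ⟨((∏ p ∈ P, p : ℕ) : ℝ) + 2, fun X Y hX hXY s hs => ?_⟩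
  set a : ℕ := ⌈X⌉₊ - 1 with ha
  set b : ℕ := ⌊Y⌋₊ with hb
  have hY : 0 ≤ Y := hX.trans hXY
  have hab : a ≤ b := by
    have h1 : ⌈X⌉₊ ≤ ⌊X⌋₊ + 1 := Nat.ceil_le_floor_add_one X
    have h2 : ⌊X⌋₊ ≤ ⌊Y⌋₊ := Nat.floor_le_floor hXY
    omega
  have hsub : s ⊆ insert 0 ((Ioc a b).filter (fun n => ∀ p ∈ P, ¬ p ∣ n + j)) := by
    intro n hn
    obtain ⟨h1, h2, h3⟩ := hs n hn
    rw [mem_insert]
    rcases Nat.eq_zero_or_pos n with h0 | h0
    · exact Or.inl h0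
    · right
      rw [mem_filter, mem_Ioc]
      refine ⟨⟨?_, Nat.le_floor h2⟩, h3⟩
      have : ⌈X⌉₊ ≤ n := Nat.ceil_le.2 h1
      omega
  have hcard : s.card ≤ ((Ioc a b).filter (fun n => ∀ p ∈ P, ¬ p ∣ n + j)).card + 1 :=
    (card_le_card hsub).trans (card_insert_le _ _)
  have hcard' : (s.card : ℝ)
      ≤ (((Ioc a b).filter (fun n => ∀ p ∈ P, ¬ p ∣ n + j)).card : ℝ) + 1 := by
    exact_mod_cast hcard
  have hmain := sieve_count P hP j a b hab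
  have hp0 := prod_nonneg' P hP
  have hp1 : ∏ p ∈ P, (1 - 1 / (p : ℝ)) ≤ 1 := by
    refine (prod_le_exp P hP).trans ?_
    rw [Real.exp_le_one_iff, neg_nonpos]
    positivity
  have hba : (b : ℝ) - a ≤ (Y - X) + 1 := by
    have h1 : (b : ℝ) ≤ Y := Nat.floor_le hY
    have h2 : X ≤ (⌈X⌉₊ : ℝ) := Nat.le_ceil X
    have h3 : (⌈X⌉₊ : ℝ) ≤ (a : ℝ) + 1 := by
      have : ⌈X⌉₊ ≤ a + 1 := by omega
      exact_mod_cast this
    linarith
  have : ((b : ℝ) - a) * ∏ p ∈ P, (1 - 1 / (p : ℝ))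
      ≤ (Y - X) * ∏ p ∈ P, (1 - 1 / (p : ℝ)) + 1 := by
    calc ((b : ℝ) - a) * ∏ p ∈ P, (1 - 1 / (p : ℝ))
        ≤ ((Y - X) + 1) * ∏ p ∈ P, (1 - 1 / (p : ℝ)) := by gcongr
      _ ≤ _ := by nlinarith
  linarith

/-- eventually `K (log x + 1) + 2 ≤ √x`. -/
theorem ev_sqrt (K : ℝ) (hK : 0 < K) :
    ∃ x0 : ℝ, 1 ≤ x0 ∧ ∀ x : ℝ, x0 ≤ x → K * (Real.log x + 1) + 2 ≤ √x := by
  have h1 : ∀ᶠ x : ℝ in Filter.atTop, ‖Real.log x‖ ≤ 1 / (2 * K) * ‖x ^ (1 / 2 : ℝ)‖ :=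
    (isLittleO_log_rpow_atTop (by norm_num : (0 : ℝ) < 1 / 2)).bound (by positivity)
  have h2 : ∀ᶠ x : ℝ in Filter.atTop, 2 * (K + 2) ≤ √x :=
    Real.tendsto_sqrt_atTop.eventually_ge_atTop _
  obtain ⟨x0, hx0⟩ := Filter.eventually_atTop.1 (h1.and h2)
  refine ⟨max 1 x0, le_max_left _ _, fun x hx => ?_⟩
  obtain ⟨a, b⟩ := hx0 x ((le_max_right _ _).trans hx)
  have hx1 : (1 : ℝ) ≤ x := (le_max_left _ _).trans hx
  rw [← Real.sqrt_eq_rpow, Real.norm_of_nonneg (Real.sqrt_nonneg x)] at a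
  have a' : Real.log x ≤ 1 / (2 * K) * √x := (le_abs_self _).trans a
  have : K * Real.log x ≤ √x / 2 := by
    calc K * Real.log x ≤ K * (1 / (2 * K) * √x) := by gcongr
      _ = √x / 2 := by field_simp
  linarith

/-- for large `B` the primes of `(B, B1]`, `1 + log B1 ≤ √B`, have reciprocal sum `≥ S`. -/
theorem exists_primes (hM : MertensLower) (S : ℝ) :
    ∃ B0 : ℕ, ∀ B : ℕ, B0 ≤ B → ∃ B1 : ℕ, B ≤ B1 ∧ 1 + Real.log B1 ≤ √(B : ℝ) ∧
      S ≤ ∑ p ∈ (Ioc B B1).filter Nat.Prime, 1 / (p : ℝ) := by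
  obtain ⟨c, hc, C, hC⟩ := hM
  set K : ℝ := max 1 (Real.exp ((S + C) / c)) with hK
  have hK1 : 1 ≤ K := le_max_left _ _
  have hK2 : Real.exp ((S + C) / c) ≤ K := le_max_right _ _
  obtain ⟨x0, hx01, hx0⟩ := ev_sqrt K (by linarith)
  refine ⟨max 3 ⌈x0⌉₊, fun B hB => ?_⟩
  have hB3 : 3 ≤ B := (le_max_left _ _).trans hB
  have hB3' : (3 : ℝ) ≤ B := by exact_mod_cast hB3
  have hBx : x0 ≤ B := (Nat.le_ceil x0).trans (by exact_mod_cast (le_max_right _ _).trans hB)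
  have hmain := hx0 B hBx
  have hlog1 : 1 ≤ Real.log B := by
    rw [← Real.log_exp 1]
    apply Real.log_le_log (Real.exp_pos 1)
    have := Real.exp_one_lt_d9
    linarith
  have hlog0 : 0 < Real.log B := by linarith
  set v1 : ℕ := ⌈Real.log B⌉₊ with hv1
  set v2 : ℕ := ⌊√(B : ℝ) - 1⌋₊ with hv2
  have hv1a : Real.log B ≤ v1 := Nat.le_ceil _
  have hv1b : (v1 : ℝ) < Real.log B + 1 := Nat.ceil_lt_add_one hlog0.le
  have hsq : 1 ≤ √(B : ℝ) - 1 := by nlinarith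
  have hv2a : √(B : ℝ) - 1 - 1 < v2 := Nat.sub_one_lt_floor _
  have hv2b : (v2 : ℝ) ≤ √(B : ℝ) - 1 := Nat.floor_le (by linarith)
  have hv1pos : 1 ≤ v1 := Nat.one_le_ceil_iff.2 hlog0
  have hv1pos' : (0 : ℝ) < v1 := by exact_mod_cast hv1pos
  have hKv : K * v1 ≤ v2 := by
    have : K * v1 ≤ K * (Real.log B + 1) := by gcongr
    linarith
  have hv12 : v1 ≤ v2 := by
    have : (v1 : ℝ) ≤ v2 := by nlinarith
    exact_mod_cast this
  have hLL := hC 1 v1 v2 le_rfl hv1pos hv12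
  have hKr : K ≤ (v2 : ℝ) / v1 := by
    rw [le_div_iff₀ hv1pos']
    exact hKv
  have hS : S ≤ LL 1 v1 v2 := by
    have e1 : (S + C) / c ≤ Real.log ((v2 : ℝ) / v1) := by
      rw [← Real.log_exp ((S + C) / c)]
      exact Real.log_le_log (Real.exp_pos _) (hK2.trans hKr)
    have e2 : S + C ≤ c * Real.log ((v2 : ℝ) / v1) := by
      rw [div_le_iff₀ hc] at e1
      linarith
    linarith
  refine ⟨⌊Real.exp (√(B : ℝ) - 1)⌋₊, ?_, ?_, ?_⟩
  · apply Nat.le_floor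
    have : Real.log B ≤ √(B : ℝ) - 1 := by nlinarith
    calc (B : ℝ) = Real.exp (Real.log B) := (Real.exp_log (by linarith)).symm
      _ ≤ _ := Real.exp_le_exp.2 this
  · have hpos : (0 : ℝ) < (⌊Real.exp (√(B : ℝ) - 1)⌋₊ : ℝ) := by
      have : 0 < ⌊Real.exp (√(B : ℝ) - 1)⌋₊ := by
        rw [Nat.floor_pos]
        exact Real.one_le_exp (by linarith)
      exact_mod_cast this
    have : Real.log (⌊Real.exp (√(B : ℝ) - 1)⌋₊ : ℝ) ≤ √(B : ℝ) - 1 := by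
      calc Real.log (⌊Real.exp (√(B : ℝ) - 1)⌋₊ : ℝ)
          ≤ Real.log (Real.exp (√(B : ℝ) - 1)) :=
            Real.log_le_log hpos (Nat.floor_le (Real.exp_pos _).le)
        _ = _ := Real.log_exp _
    linarith
  · refine hS.trans ?_
    unfold LL
    rw [← Finset.sum_biUnion]
    · apply Finset.sum_le_sum_of_subset_of_nonneg
      · intro p hp
        simp only [mem_biUnion, mem_Ico, W, mem_filter, mem_Ioc] at hp
        obtain ⟨v, ⟨hva, hvb⟩, ⟨hpa, hpb⟩, hpp⟩ := hp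
        simp only [mem_filter, mem_Ioc]
        refine ⟨⟨?_, ?_⟩, hpp⟩
        · refine lt_of_le_of_lt (Nat.le_floor ?_) hpa
          calc (B : ℝ) = Real.exp (Real.log B) := (Real.exp_log (by linarith)).symm
            _ ≤ _ := by
              apply Real.exp_le_exp.2
              have : (v1 : ℝ) ≤ v := by exact_mod_cast hva
              simp only [Nat.cast_one, div_one]
              linarith
        · refine hpb.trans (Nat.floor_le_floor ?_)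
          apply Real.exp_le_exp.2
          have : (v : ℝ) + 1 ≤ v2 := by exact_mod_cast hvb
          simp only [Nat.cast_one, div_one]
          linarith
      · intro p _ _
        positivity
    · intro v _ w _ hvw
      simp only [Function.onFun]
      rw [Finset.disjoint_left]
      intro p hp hq
      simp only [W, mem_filter, mem_Ioc] at hp hq
      rcases lt_or_gt_of_ne hvw with h | h
      · have h' : (v : ℝ) + 1 ≤ w := by exact_mod_cast h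
        have : ⌊Real.exp (((v : ℝ) + 1) / (1 : ℕ))⌋₊ ≤ ⌊Real.exp ((w : ℝ) / (1 : ℕ))⌋₊ := by
          apply Nat.floor_le_floor
          apply Real.exp_le_exp.2
          gcongr
        omega
      · have h' : (w : ℝ) + 1 ≤ v := by exact_mod_cast h
        have : ⌊Real.exp (((w : ℝ) + 1) / (1 : ℕ))⌋₊ ≤ ⌊Real.exp ((v : ℝ) / (1 : ℕ))⌋₊ := by
          apply Nat.floor_le_floor
          apply Real.exp_le_exp.2
          gcongr
        omega

/-- row E4b. -/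
theorem prime_set (h : MertensLower) : PrimeSet := by
  intro S hS b0
  obtain ⟨B0, hB0⟩ := exists_primes h S
  set B : ℕ := max (max B0 b0) 1 with hBdef
  obtain ⟨B1, hB1a, hB1b, hB1c⟩ := hB0 B ((le_max_left _ _).trans (le_max_left _ _))
  have hBb : b0 ≤ B := (le_max_right _ _).trans (le_max_left _ _)
  have hB1 : 1 ≤ B := le_max_right _ _
  have hex : ∃ N : ℕ, S ≤ ∑ p ∈ (Ioc B N).filter Nat.Prime, 1 / (p : ℝ) := ⟨B1, hB1c⟩
  classical
  set N : ℕ := Nat.find hex with hN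
  have hN1 : S ≤ ∑ p ∈ (Ioc B N).filter Nat.Prime, 1 / (p : ℝ) := Nat.find_spec hex
  have hN2 : N ≤ B1 := Nat.find_min' hex hB1c
  have hN3 : B < N := by
    by_contra hcon
    have : Ioc B N = ∅ := Ioc_eq_empty (by omega)
    rw [this] at hN1
    simp at hN1
    linarith
  obtain ⟨m, hm⟩ : ∃ m, N = m + 1 := ⟨N - 1, by omega⟩
  have hN4 : ∑ p ∈ (Ioc B m).filter Nat.Prime, 1 / (p : ℝ) < S := by
    by_contra hcon
    have := Nat.find_min hex (m := m) (by omega)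
    exact this (not_lt.1 hcon)
  refine ⟨(Ioc B N).filter Nat.Prime, ?_, hN1, ?_, ?_⟩
  · intro p hp
    rw [mem_filter, mem_Ioc] at hp
    exact ⟨hp.2, by omega⟩
  · have hsub : (Ioc B N).filter Nat.Prime ⊆ insert N ((Ioc B m).filter Nat.Prime) := by
      intro p hp
      rw [mem_filter, mem_Ioc] at hp
      rw [mem_insert, mem_filter, mem_Ioc]
      rcases Nat.lt_or_ge p N with h1 | h1
      · right
        exact ⟨⟨hp.1.1, by omega⟩, hp.2⟩
      · left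
        omega
    calc ∑ p ∈ (Ioc B N).filter Nat.Prime, 1 / (p : ℝ)
        ≤ ∑ p ∈ insert N ((Ioc B m).filter Nat.Prime), 1 / (p : ℝ) :=
          sum_le_sum_of_subset_of_nonneg hsub (fun _ _ _ => by positivity)
      _ ≤ 1 / (N : ℝ) + ∑ p ∈ (Ioc B m).filter Nat.Prime, 1 / (p : ℝ) := by
          rw [sum_insert]
          rw [mem_filter, mem_Ioc]
          omega
      _ ≤ 1 + S := by
          have : 1 / (N : ℝ) ≤ 1 := by
            rw [div_le_one (by exact_mod_cast (by omega : 0 < N))]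
            exact_mod_cast (by omega : 1 ≤ N)
          linarith
      _ = S + 1 := by ring
  · intro p hp p' hp'
    rw [mem_filter, mem_Ioc] at hp hp'
    have h1 : Real.log p ≤ Real.log B1 := by
      apply Real.log_le_log
      · exact_mod_cast hp.2.pos
      · exact_mod_cast hp.1.2.trans hN2
    have h2 : √(B : ℝ) ≤ √(p' : ℝ) := Real.sqrt_le_sqrt (by exact_mod_cast hp'.1.1.le)
    linarith

end Pool.Agent.PO69
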