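import Pool.Agent.Lib.PO69.Stat

/-!
# The end of the argument: `link` and the bounded Matomaki-Radziwill statement give both parities
-/

set_option autoImplicit false

namespace Pool.Agent.PO69

open Finset Pool.Agent.MRL

set_option maxHeartbeats 2000000

theorem lam_eq_one_or (n : ℕ) : lam n = 1 ∨ lam n = -1 := by
  unfold lam
  exact neg_one_pow_eq_or ℝ _

theorem lam_of_even {n : ℕ} (h : Even (ArithmeticFunction.cardFactors n)) : lam n = 1 := by
  unfold lam
  exact h.neg_one_pow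

theorem lam_of_odd {n : ℕ} (h : Odd (ArithmeticFunction.cardFactors n)) : lam n = -1 := by
  unfold lam
  exact h.neg_one_pow

/-- If `lam` is not constant on `x, …, x + h - 1` there is a change. -/
theorem exists_change {x h : ℕ} (hx : ¬ ∀ j < h, lam (x + j) = lam x) :
    ∃ j, j + 1 < h ∧ lam (x + j) ≠ lam (x + j + 1) := by
  by_contra hcon
  have hcon' : ∀ j, j + 1 < h → lam (x + j) = lam (x + j + 1) := by
    intro j hj
    by_contra hne
    exact hcon ⟨j, hj, hne⟩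
  apply hx
  intro j
  induction j with
  | zero => intro _; simp
  | succ j ih =>
    intro hj
    have h1 := hcon' j hj
    rw [← ih (by omega), h1]
    rfl

/-- both parities in `(t, t + ℓ)`. -/
def BothPar (t ℓ : ℝ) : Prop :=
  (∃ n : ℕ, t < n ∧ (n : ℝ) < t + ℓ ∧ Even (ArithmeticFunction.cardFactors n)) ∧
  (∃ n : ℕ, t < n ∧ (n : ℝ) < t + ℓ ∧ Odd (ArithmeticFunction.cardFactors n))

/-- The parity is constant if `BothPar` fails. -/
theorem const_of_not {t ℓ : ℝ} (h : ¬ BothPar t ℓ) :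
    ∀ m n : ℕ, t < m → (m : ℝ) < t + ℓ → t < n → (n : ℝ) < t + ℓ → lam m = lam n := by
  unfold BothPar at h
  rw [not_and_or] at h
  intro m n hm hm' hn hn'
  rcases h with h | h
  · have key : ∀ k : ℕ, t < k → (k : ℝ) < t + ℓ → lam k = -1 := by
      intro k hk hk'
      apply lam_of_odd
      rw [← Nat.not_even_iff_odd]
      intro he
      exact h ⟨k, hk, hk', he⟩
    rw [key m hm hm', key n hn hn']
  · have key : ∀ k : ℕ, t < k → (k : ℝ) < t + ℓ → lam k = 1 := by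
      intro k hk hk'
      apply lam_of_even
      rw [← Nat.not_odd_iff_even]
      intro he
      exact h ⟨k, hk, hk', he⟩
    rw [key m hm hm', key n hn hn']

theorem BothPar.mono {t ℓ ℓ' : ℝ} (h : BothPar t ℓ) (hl : ℓ ≤ ℓ') : BothPar t ℓ' := by
  obtain ⟨⟨m, hm, hm', he⟩, ⟨n, hn, hn', ho⟩⟩ := h
  exact ⟨⟨m, hm, by linarith, he⟩, ⟨n, hn, by linarith, ho⟩⟩

/-- The counting step, for one `t`. -/
theorem count_step {c R S κ : ℝ} {h : ℕ} (hc : 0 < c) (hc1 : c ≤ 1) (hκ : κ = c ^ 2 / 200)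
    (hh : 1 ≤ h) (hR : 0 < R) (hR1 : 1 ≤ R) (hRh : 400 * (h : ℝ) ≤ κ * R ^ 2)
    (hS : 0 < S) (hS1 : 4000 * R ≤ S)
    (hMR : (((Icc ⌈R * S⌉₊ ⌊2 * (R * S)⌋₊).filter
      (fun x => ∀ j < h, lam (x + j) = lam x)).card : ℝ) ≤ κ * R * S / 1000)
    (hbad : ∀ s : Finset ℕ, (∀ n ∈ s, R * S < n ∧ (n : ℝ) ≤ 1.01 * R * S ∧
      Int.fract (S ^ 2 / n) < κ ∧ lam n ≠ lam (n + 1)) → (s.card : ℝ) ≤ κ * R * S / (2000 * h)) :
    False := by
  have hκ0 : 0 < κ := by rw [hκ]; positivity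
  have hκ1 : κ < 1 := by rw [hκ]; nlinarith
  have hh0 : (1 : ℝ) ≤ h := by exact_mod_cast hh
  set Exc := (Icc ⌈R * S⌉₊ ⌊2 * (R * S)⌋₊).filter
      (fun x => ∀ j < h, lam (x + j) = lam x) with hExc
  set Bad := (Finset.range (⌊2 * (R * S)⌋₊ + 1)).filter (fun n : ℕ =>
      R * S < n ∧ (n : ℝ) ≤ 1.01 * R * S ∧
      Int.fract (S ^ 2 / n) < κ ∧ lam n ≠ lam (n + 1)) with hBad
  have hbad' : (Bad.card : ℝ) ≤ κ * R * S / (2000 * h) := by
    apply hbad
    intro n hn
    rw [hBad, Finset.mem_filter] at hn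
    exact hn.2
  -- the index set of `M`
  set I := (Finset.Icc ⌈S / (1.005 * R)⌉₊ ⌊S / R - 1⌋₊) with hI
  -- the starting points of runs
  let A : ℕ → Finset ℕ := fun M =>
    (Finset.Ioc ⌊S ^ 2 / (M + κ)⌋₊ (⌊S ^ 2 / M⌋₊ + 1 - h))
  have hIM : ∀ M ∈ I, S / (1.005 * R) ≤ M ∧ (M : ℝ) ≤ S / R - 1 := by
    intro M hM
    rw [hI, Finset.mem_Icc] at hM
    refine ⟨Nat.ceil_le.mp hM.1, ?_⟩
    have : (0 : ℝ) ≤ S / R - 1 := by
      rw [sub_nonneg, le_div_iff₀ hR]
      nlinarith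
    exact (Nat.le_floor_iff this).mp hM.2
  have hMpos : ∀ M ∈ I, (0 : ℝ) < M := by
    intro M hM
    exact lt_of_lt_of_le (by positivity) (hIM M hM).1
  -- basic facts on elements of A M
  have hA : ∀ M ∈ I, ∀ x ∈ A M, S ^ 2 / (M + κ) < x ∧ (x : ℝ) + h ≤ S ^ 2 / M + 1 ∧ 0 < x := by
    intro M hM x hx
    have hM0 := hMpos M hM
    rw [Finset.mem_Ioc] at hx
    obtain ⟨h1, h2⟩ := hx
    have h3 : S ^ 2 / (M + κ) < x := Nat.lt_of_floor_lt h1
    have h4 : x + h ≤ ⌊S ^ 2 / (M : ℝ)⌋₊ + 1 := by omega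
    have h5 : ((⌊S ^ 2 / (M : ℝ)⌋₊ : ℕ) : ℝ) ≤ S ^ 2 / M := Nat.floor_le (by positivity)
    have h6 : ((x + h : ℕ) : ℝ) ≤ ((⌊S ^ 2 / (M : ℝ)⌋₊ + 1 : ℕ) : ℝ) := by exact_mod_cast h4
    push_cast at h6
    exact ⟨h3, by linarith, by omega⟩
  -- consequences: for j < h the point x + j lies in the cell and in J_M
  have hpt : ∀ M ∈ I, ∀ x ∈ A M, ∀ j : ℕ, j < h →
      R * S < ((x + j : ℕ) : ℝ) ∧ ((x + j : ℕ) : ℝ) ≤ 1.005 * R * S ∧
      (M : ℝ) ≤ S ^ 2 / ((x + j : ℕ) : ℝ) ∧ S ^ 2 / ((x + j : ℕ) : ℝ) < M + κ := by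
    intro M hM x hx j hj
    obtain ⟨hI1, hI2⟩ := hIM M hM
    have hM0 := hMpos M hM
    obtain ⟨hx1, hx2, hx3⟩ := hA M hM x hx
    have hj' : (j : ℝ) + 1 ≤ h := by exact_mod_cast hj
    have hxr : (0 : ℝ) < x := by exact_mod_cast hx3
    have hj0 : (0 : ℝ) ≤ j := by positivity
    push_cast
    have hMk : 0 < (M : ℝ) + κ := by linarith
    have e1 : S ^ 2 / (M + κ) < x + j := by linarith
    have e2 : (x : ℝ) + j ≤ S ^ 2 / M := by linarith
    have hxj : (0 : ℝ) < x + j := by linarith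
    refine ⟨?_, ?_, ?_, ?_⟩
    · refine lt_of_le_of_lt ?_ e1
      rw [le_div_iff₀ hMk]
      have : (M : ℝ) + κ ≤ S / R := by linarith
      calc R * S * (M + κ) ≤ R * S * (S / R) := by
            apply mul_le_mul_of_nonneg_left this (by positivity)
        _ = S ^ 2 := by field_simp
    · refine le_trans e2 ?_
      rw [div_le_iff₀ hM0]
      have : 1.005 * R * S * (S / (1.005 * R)) ≤ 1.005 * R * S * M := by
        apply mul_le_mul_of_nonneg_left hI1 (by positivity)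
      have h2 : 1.005 * R * S * (S / (1.005 * R)) = S ^ 2 := by field_simp
      linarith
    · rw [le_div_iff₀ hxj]
      rw [le_div_iff₀ hM0] at e2
      linarith
    · rw [div_lt_iff₀ hxj]
      rw [div_lt_iff₀ hMk] at e1
      linarith
  -- disjointness
  have hdisj : ∀ M ∈ I, ∀ M' ∈ I, M ≠ M' → Disjoint (A M) (A M') := by
    intro M hM M' hM' hne
    rw [Finset.disjoint_left]
    intro x hx hx'
    apply hne
    have h1 := hpt M hM x hx 0 (by omega)
    have h2 := hpt M' hM' x hx' 0 (by omega)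
    have h3 : (M : ℝ) < M' + 1 := by linarith [h1.2.2.1, h2.2.2.2]
    have h4 : (M' : ℝ) < M + 1 := by linarith [h2.2.2.1, h1.2.2.2]
    have h5 : M < M' + 1 := by exact_mod_cast h3
    have h6 : M' < M + 1 := by exact_mod_cast h4
    omega
  -- size of A M
  have hcardA : ∀ M ∈ I, κ * R ^ 2 / 2 ≤ ((A M).card : ℝ) := by
    intro M hM
    obtain ⟨hI1, hI2⟩ := hIM M hM
    have hM0 := hMpos M hM
    have hMk : 0 < (M : ℝ) + κ := by linarith
    have h1 : (S ^ 2 / M : ℝ) < ⌊S ^ 2 / (M : ℝ)⌋₊ + 1 := Nat.lt_floor_add_one _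
    have h2 : ((⌊S ^ 2 / (M + κ)⌋₊ : ℕ) : ℝ) ≤ S ^ 2 / (M + κ) := Nat.floor_le (by positivity)
    have h3 : κ * R ^ 2 ≤ S ^ 2 / M - S ^ 2 / (M + κ) := by
      have : S ^ 2 / M - S ^ 2 / (M + κ) = S ^ 2 * κ / (M * (M + κ)) := by
        field_simp
        ring
      rw [this, le_div_iff₀ (by positivity)]
      have h4 : (M : ℝ) + κ ≤ S / R := by linarith
      have h5 : (M : ℝ) ≤ S / R := by linarith
      have h6 : (M : ℝ) * (M + κ) ≤ (S / R) * (S / R) :=
        mul_le_mul h5 h4 hMk.le (by positivity)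
      calc κ * R ^ 2 * (M * (M + κ)) ≤ κ * R ^ 2 * ((S / R) * (S / R)) := by
            apply mul_le_mul_of_nonneg_left h6 (by positivity)
        _ = S ^ 2 * κ := by field_simp
    have h7 : (A M).card = ⌊S ^ 2 / (M : ℝ)⌋₊ + 1 - h - ⌊S ^ 2 / ((M : ℝ) + κ)⌋₊ := by
      simp only [A, Nat.card_Ioc]
    have h8 : (⌊S ^ 2 / (M : ℝ)⌋₊ : ℝ) + 1 - h - ⌊S ^ 2 / ((M : ℝ) + κ)⌋₊ ≤ ((A M).card : ℝ) := by
      rw [h7]
      have : ((⌊S ^ 2 / (M : ℝ)⌋₊ + 1 : ℕ) : ℝ) - h - ⌊S ^ 2 / ((M : ℝ) + κ)⌋₊ ≤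
          ((⌊S ^ 2 / (M : ℝ)⌋₊ + 1 - h - ⌊S ^ 2 / ((M : ℝ) + κ)⌋₊ : ℕ) : ℝ) := by
        have hz : ((⌊S ^ 2 / (M : ℝ)⌋₊ + 1 : ℕ) : ℤ) - h - ⌊S ^ 2 / ((M : ℝ) + κ)⌋₊ ≤
          ((⌊S ^ 2 / (M : ℝ)⌋₊ + 1 - h - ⌊S ^ 2 / ((M : ℝ) + κ)⌋₊ : ℕ) : ℤ) := by
          omega
        exact_mod_cast hz
      push_cast at this ⊢
      linarith
    linarith
  -- number of M
  have hcardI : 0.004 * (S / R) ≤ (I.card : ℝ) := by
    have hSR : 4000 ≤ S / R := by
      rw [le_div_iff₀ hR]; linarith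
    have h1 : ((⌈S / (1.005 * R)⌉₊ : ℕ) : ℝ) < S / (1.005 * R) + 1 :=
      Nat.ceil_lt_add_one (by positivity)
    have h2 : S / R - 1 < ⌊S / R - 1⌋₊ + 1 := Nat.lt_floor_add_one _
    have h4 : I.card = ⌊S / R - 1⌋₊ + 1 - ⌈S / (1.005 * R)⌉₊ := by
      rw [hI, Nat.card_Icc]
    have h5 : ((⌊S / R - 1⌋₊ + 1 : ℕ) : ℝ) - ⌈S / (1.005 * R)⌉₊ ≤ (I.card : ℝ) := by
      rw [h4]
      have hz : ((⌊S / R - 1⌋₊ + 1 : ℕ) : ℤ) - ⌈S / (1.005 * R)⌉₊ ≤
          ((⌊S / R - 1⌋₊ + 1 - ⌈S / (1.005 * R)⌉₊ : ℕ) : ℤ) := by omega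
      exact_mod_cast hz
    push_cast at h5
    have h6 : S / (1.005 * R) ≤ 0.9951 * (S / R) := by
      rw [div_le_iff₀ (by positivity)]
      have : 0.9951 * (S / R) * (1.005 * R) = 0.9951 * 1.005 * S := by
        field_simp
      rw [this]
      nlinarith
    generalize S / R = a at *
    generalize S / (1.005 * R) = b at *
    linarith
  -- union
  set G := I.biUnion A with hG
  have hGcard : (G.card : ℝ) = ∑ M ∈ I, ((A M).card : ℝ) := by
    rw [hG, Finset.card_biUnion (fun M hM M' hM' hne => hdisj M hM M' hM' hne)]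
    push_cast
    rfl
  have hGlow : 0.002 * (κ * R * S) ≤ (G.card : ℝ) := by
    rw [hGcard]
    calc 0.002 * (κ * R * S) = 0.004 * (S / R) * (κ * R ^ 2 / 2) := by
          field_simp
          ring
      _ ≤ (I.card : ℝ) * (κ * R ^ 2 / 2) := by
          apply mul_le_mul_of_nonneg_right hcardI (by positivity)
      _ = ∑ M ∈ I, (κ * R ^ 2 / 2) := by simp
      _ ≤ _ := Finset.sum_le_sum hcardA
  -- every element of G is exceptional or near a bad one
  have hcover : G ⊆ Exc ∪ (Finset.range h).biUnion (fun j => Bad.image (fun n => n - j)) := by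
    intro x hx
    rw [hG, Finset.mem_biUnion] at hx
    obtain ⟨M, hM, hxM⟩ := hx
    have hM0 := hMpos M hM
    by_cases hex : ∀ j < h, lam (x + j) = lam x
    · apply Finset.mem_union_left
      rw [hExc, Finset.mem_filter, Finset.mem_Icc]
      have h0 := hpt M hM x hxM 0 (by omega)
      simp only [add_zero] at h0
      refine ⟨⟨?_, ?_⟩, hex⟩
      · exact Nat.ceil_le.mpr h0.1.le
      · apply Nat.le_floor
        have : 0 < R * S := by positivity
        linarith [h0.2.1]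
    · apply Finset.mem_union_right
      obtain ⟨j, hj, hne⟩ := exists_change hex
      rw [Finset.mem_biUnion]
      refine ⟨j, Finset.mem_range.mpr (by omega), ?_⟩
      rw [Finset.mem_image]
      refine ⟨x + j, ?_, by omega⟩
      obtain ⟨p1, p2, p3, p4⟩ := hpt M hM x hxM j (by omega)
      rw [hBad, Finset.mem_filter, Finset.mem_range]
      have hRS : 0 < R * S := by positivity
      refine ⟨?_, p1, ?_, ?_, hne⟩
      · have : (x + j : ℕ) ≤ ⌊2 * (R * S)⌋₊ := by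
          apply Nat.le_floor
          linarith
        omega
      · linarith
      · have hfl : ⌊S ^ 2 / ((x + j : ℕ) : ℝ)⌋ = (M : ℤ) := by
          rw [Int.floor_eq_iff]
          constructor
          · exact_mod_cast p3
          · have : S ^ 2 / ((x + j : ℕ) : ℝ) < (M : ℝ) + 1 := by linarith
            exact_mod_cast this
        rw [← Int.self_sub_floor, hfl]
        have : ((M : ℤ) : ℝ) = (M : ℝ) := by norm_cast
        rw [this]
        linarith
  have hcard := Finset.card_le_card hcover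
  have h1 : (Exc ∪ (Finset.range h).biUnion (fun j => Bad.image (fun n => n - j))).card ≤
      Exc.card + h * Bad.card := by
    refine le_trans (Finset.card_union_le _ _) ?_
    apply Nat.add_le_add_left
    refine le_trans Finset.card_biUnion_le ?_
    refine le_trans (Finset.sum_le_sum (fun j _ => Finset.card_image_le)) ?_
    simp
  have h2 : (G.card : ℝ) ≤ Exc.card + h * Bad.card := by exact_mod_cast le_trans hcard h1
  have h3 : (h : ℝ) * Bad.card ≤ h * (κ * R * S / (2000 * h)) :=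
    mul_le_mul_of_nonneg_left hbad' (by positivity)
  have h4 : (h : ℝ) * (κ * R * S / (2000 * h)) = κ * R * S / 2000 := by
    field_simp
  have h5 : 0 < κ * R * S := by positivity
  rw [h4] at h3
  generalize κ * R * S = z at *
  linarith

/-- **The end**: linking and the scarcity of runs give both parities in every `(t, t + c √t)`. -/
theorem final (hlink : LinkP) (hNR : NoRuns) : Final := by
  have key : ∀ c : ℝ, 0 < c → c ≤ 1 → ∃ t₀ : ℝ, ∀ t : ℝ, t₀ ≤ t → BothPar t (c * √t) := by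
    intro c hc hc1
    set κ : ℝ := c ^ 2 / 200 with hκ
    have hκ0 : 0 < κ := by rw [hκ]; positivity
    obtain ⟨h', X₀, hX⟩ := hNR (κ / 1000) (by positivity)
    obtain ⟨h, hh⟩ : ∃ h : ℕ, h = h' + 1 := ⟨_, rfl⟩
    have hh1 : 1 ≤ h := by omega
    have hh0 : (1 : ℝ) ≤ h := by exact_mod_cast hh1
    set R : ℝ := (1000 + 400 * h) / c with hR
    have hR1000 : 1000 ≤ c * R := by
      rw [hR, mul_div_cancel₀ _ hc.ne']
      linarith
    have hR0 : 0 < R := by rw [hR]; positivity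
    have hR1 : 1 ≤ R := by
      rw [hR, le_div_iff₀ hc]; nlinarith
    have hRh : 400 * (h : ℝ) ≤ κ * R ^ 2 := by
      have : κ * R ^ 2 = (1000 + 400 * h) ^ 2 / 200 := by
        rw [hκ, hR]
        field_simp
      rw [this, le_div_iff₀ (by norm_num)]
      nlinarith
    obtain ⟨T₀, hT⟩ := hlink c R (κ * R / (2000 * h)) hc hc1 hR1000 (by positivity)
    refine ⟨max T₀ (max ((4000 * R) ^ 2) (X₀ ^ 2)), ?_⟩
    intro t ht
    have ht1 : T₀ ≤ t := le_trans (le_max_left _ _) ht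
    have ht2 : (4000 * R) ^ 2 ≤ t := le_trans (le_trans (le_max_left _ _) (le_max_right _ _)) ht
    have ht3 : X₀ ^ 2 ≤ t := le_trans (le_trans (le_max_right _ _) (le_max_right _ _)) ht
    have ht0 : 0 < t := lt_of_lt_of_le (by positivity) ht2
    by_contra hnot
    have hconst := const_of_not hnot
    have hb := hT t ht1 hconst
    set S := √t with hSdef
    have hS0 : 0 < S := Real.sqrt_pos.mpr ht0
    have hSt : S ^ 2 = t := Real.sq_sqrt ht0.le
    have hS1 : 4000 * R ≤ S := Real.le_sqrt_of_sq_le ht2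
    have hS2 : X₀ ≤ S := Real.le_sqrt_of_sq_le ht3
    have hM := hX (R * S) (by nlinarith)
    refine count_step (c := c) (R := R) (S := S) (κ := κ) (h := h)
      hc hc1 hκ hh1 hR0 hR1 hRh hS0 hS1 ?_ ?_
    · have hsub : (Icc ⌈R * S⌉₊ ⌊2 * (R * S)⌋₊).filter (fun x => ∀ j < h, lam (x + j) = lam x) ⊆
          (Icc ⌈R * S⌉₊ ⌊2 * (R * S)⌋₊).filter (fun x => ∀ j < h', lam (x + j) = lam x) := by
        intro x hx
        rw [Finset.mem_filter] at hx ⊢
        exact ⟨hx.1, fun j hj => hx.2 j (by omega)⟩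
      have h1 : (((Icc ⌈R * S⌉₊ ⌊2 * (R * S)⌋₊).filter
          (fun x => ∀ j < h, lam (x + j) = lam x)).card : ℝ) ≤
          (((Icc ⌈R * S⌉₊ ⌊2 * (R * S)⌋₊).filter
          (fun x => ∀ j < h', lam (x + j) = lam x)).card : ℝ) := by
        exact_mod_cast Finset.card_le_card hsub
      refine le_trans h1 (le_trans hM (le_of_eq ?_))
      ring
    · intro s hs
      rw [hSt] at hs
      refine le_trans (hb s hs) (le_of_eq ?_)
      ring
  intro c hc
  rcases le_total c 1 with h1 | h1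
  · exact key c hc h1
  · obtain ⟨t₀, ht⟩ := key 1 one_pos le_rfl
    refine ⟨t₀, fun t h => (ht t h).mono ?_⟩
    exact mul_le_mul_of_nonneg_right h1 (Real.sqrt_nonneg t)

end Pool.Agent.PO69
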