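import Pool.Agent.Lib.MRL.AS
import Pool.Agent.Lib.MRL.NR
import Pool.Agent.Lib.MRL.PA
import Pool.Agent.Lib.MRL.AC
import Pool.Agent.Lib.MRL.DC
import Pool.Agent.Lib.MRL.S1
import Pool.Agent.Lib.MRL.SJ
import Pool.Agent.Lib.MRL.LC
import Pool.Agent.Lib.MRL.SP
import Pool.Agent.Lib.MRL.ZU
import Pool.Agent.Lib.MRL.FL
import Pool.Agent.Lib.MRL.HA
import Pool.Agent.Lib.MRL.HZ
import Pool.Agent.Lib.MRL.MV
import Pool.Agent.Lib.MRL.MO0
import Pool.Agent.Lib.MRL.AU
import Pool.Agent.Lib.MRL.AT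
import Pool.Agent.Lib.MRL.AN
import Pool.Agent.Lib.MRL.VD
import Pool.Agent.Lib.MRL.ML
import Pool.Agent.Lib.PO69.E1
import Pool.Agent.Lib.PO69.E2
import Pool.Agent.Lib.PO69.E3
import Pool.Agent.Lib.PO69.E4
import Pool.Agent.Lib.PO69.E5
import Pool.Agent.Lib.PO69.End

/-! TANK MR: assembly of all rows. (helper69) -/

set_option autoImplicit false

namespace Pool.Agent.PO69

open Pool.Agent.MRL

theorem mrd_all : MRD := by
  have hMV : MeanValue := meanValue
  have hDC : Decomp := decomp_of_meanValue hMV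
  have hCP : ChainPart := chainPart hDC (stepOne hMV) (stepJ hMV moment)
  have hHA : HalaszA := halaszA_of_halasz (halasz (flUp (zetaUp vdc_row)))
  have hUP : UPart := uPart hDC (SP vdc_row) hHA mertensLower
  exact mrd hCP hUP (tailPart hMV) numJ (LC.largeCount hMV) (params mertensLower)

theorem final_all : Final :=
  final (linkP chain Pool.Agent.Lib.PO69.second_moment equi sieve_density
    (prime_set mertensLower)) (noRuns_of_MRD mrd_all)

end Pool.Agent.PO69
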