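import Mathlib

/-!
# Liouville's function, bounded Matomaki-Radziwill statement, both parities
-/

set_option autoImplicit false

namespace Pool.Agent.PO69

/-- Liouville's function. -/
def lam (n : ℕ) : ℤ := (-1) ^ ArithmeticFunction.cardFactors n

/-- Bounded Matomaki-Radziwill statement for the Liouville function: for every `ε > 0` there is a
length `h` such that for all large `N` the sum of `lam` over `[x, x + h)` is at most `ε h` in absolute
value for all but `ε N` of the `x` in `[N, 2N]`. -/
def MRlam : Prop :=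
  ∀ ε : ℝ, 0 < ε → ∃ h : ℕ, 1 ≤ h ∧ ∃ X₀ : ℕ, ∀ N : ℕ, X₀ ≤ N →
    (((Finset.Icc N (2 * N)).filter (fun x =>
      ε * h < |((∑ j ∈ Finset.range h, lam (x + j) : ℤ) : ℝ)|)).card : ℝ) ≤ ε * N

/-- The open interval `(a, a + ℓ)` contains an integer with an even number and an integer with an odd
number of prime factors, counted with multiplicity (`cardFactors` is Mathlib's `Ω`). -/
def BothParities (a ℓ : ℝ) : Prop :=
  (∃ m : ℕ, a < m ∧ (m : ℝ) < a + ℓ ∧ Even (ArithmeticFunction.cardFactors m)) ∧
  (∃ n : ℕ, a < n ∧ (n : ℝ) < a + ℓ ∧ Odd (ArithmeticFunction.cardFactors n))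

theorem lam_eq_one_or (n : ℕ) : lam n = 1 ∨ lam n = -1 := by
  unfold lam
  exact neg_one_pow_eq_or ℤ _

theorem lam_mul {m n : ℕ} (hm : m ≠ 0) (hn : n ≠ 0) : lam (m * n) = lam m * lam n := by
  unfold lam
  rw [ArithmeticFunction.cardFactors_mul hm hn, pow_add]

theorem lam_mul_self (n : ℕ) : lam n * lam n = 1 := by
  rcases lam_eq_one_or n with h | h <;> simp [h]

theorem lam_eq_one_iff (n : ℕ) : lam n = 1 ↔ Even (ArithmeticFunction.cardFactors n) := by
  unfold lam
  constructor
  · intro h
    by_contra hodd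
    rw [Nat.not_even_iff_odd] at hodd
    rw [hodd.neg_one_pow] at h
    norm_num at h
  · intro h
    exact h.neg_one_pow

theorem lam_eq_neg_one_iff (n : ℕ) : lam n = -1 ↔ Odd (ArithmeticFunction.cardFactors n) := by
  unfold lam
  constructor
  · intro h
    by_contra heven
    rw [Nat.not_odd_iff_even] at heven
    rw [heven.neg_one_pow] at h
    norm_num at h
  · intro h
    exact h.neg_one_pow

end Pool.Agent.PO69
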