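import Pool.Agent.Lib.PO69.LinkSM

/-!
# The family of linking configurations (row E2)

`b < B` primes, `s` prime `≤ W0`, `s ∤ L`, `d = b L - B s`.
-/

set_option autoImplicit false

namespace Pool.Agent.Lib.PO69

open Finset

/-- Admissible pairs `(s, L)`; `X0 = f + 0.35 κ`. -/
def Adm (κ X0 : ℝ) (b B : ℕ) (p : ℕ × ℕ) : Prop :=
  p.1.Prime ∧ ¬ p.1 ∣ p.2 ∧
    (1 + 0.49 * κ / X0) * ((B : ℝ) * p.1) < b * p.2 ∧
    (b : ℝ) * p.2 < (1 + 0.51 * κ / X0) * (B * p.1)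

/-- Lower end of the interval for `D`. -/
noncomputable def lo (κ X0 : ℝ) (b s : ℕ) : ℕ := ⌊(X0 - 0.01 * κ) * b / s⌋₊ + 1

/-- Upper end of the interval for `D`. -/
noncomputable def hi (κ X0 : ℝ) (b s : ℕ) : ℕ := ⌈(X0 + 0.01 * κ) * b / s⌉₊

section geo

variable {κ X0 : ℝ} {b B : ℕ}

theorem Adm.pos {p : ℕ × ℕ} (h : Adm κ X0 b B p) : 0 < p.1 ∧ 0 < p.2 := by
  refine ⟨h.1.pos, Nat.pos_of_ne_zero ?_⟩
  intro h0
  exact h.2.1 (by rw [h0]; exact dvd_zero _)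

theorem Adm.lt {p : ℕ × ℕ} (h : Adm κ X0 b B p) (hκ : 0 < κ) (hX : 0 < X0) (hB : 0 < B) :
    B * p.1 < b * p.2 := by
  have h1 := h.2.2.1
  have h2 := h.pos.1
  have h3 : (0 : ℝ) < (B : ℝ) * p.1 := by
    have : (0 : ℝ) < B := by exact_mod_cast hB
    have : (0 : ℝ) < p.1 := by exact_mod_cast h2
    positivity
  have h4 : 0 < 0.49 * κ / X0 := by positivity
  have h5 : ((B * p.1 : ℕ) : ℝ) < ((b * p.2 : ℕ) : ℝ) := by
    push_cast
    nlinarith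
  exact_mod_cast h5

theorem Adm.coprime_b {p : ℕ × ℕ} (h : Adm κ X0 b B p) (hκ : 0 < κ) (hX : 0 < X0)
    (hb : b.Prime) (hB : B.Prime) (hne : b ≠ B) (hlt : p.1 < b) :
    Nat.Coprime b (b * p.2 - B * p.1) := by
  rw [Nat.Prime.coprime_iff_not_dvd hb]
  intro hd
  have h1 : b ∣ B * p.1 :=
    (Nat.dvd_sub_iff_right (h.lt hκ hX hB.pos).le (dvd_mul_right b p.2)).1 hd
  rcases (Nat.Prime.dvd_mul hb).1 h1 with h2 | h2
  · exact hne ((Nat.prime_dvd_prime_iff_eq hb hB).1 h2)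
  · have := Nat.le_of_dvd h.pos.1 h2
    omega

theorem coprime_bB {b B s : ℕ} (hb : b.Prime) (hB : B.Prime) (hne : b ≠ B) (hs : 0 < s)
    (hlt : s < b) : Nat.Coprime b (B * s) := by
  rw [Nat.Prime.coprime_iff_not_dvd hb]
  intro h1
  rcases (Nat.Prime.dvd_mul hb).1 h1 with h2 | h2
  · exact hne ((Nat.prime_dvd_prime_iff_eq hb hB).1 h2)
  · have := Nat.le_of_dvd hs h2
    omega

theorem Adm.coprime_s {p : ℕ × ℕ} (h : Adm κ X0 b B p) (hκ : 0 < κ) (hX : 0 < X0)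
    (hb : b.Prime) (hB : B.Prime) (hlt : p.1 < b) :
    Nat.Coprime p.1 (b * p.2 - B * p.1) := by
  rw [Nat.Prime.coprime_iff_not_dvd h.1]
  intro hd
  have h1 : p.1 ∣ b * p.2 :=
    (Nat.dvd_sub_iff_left (h.lt hκ hX hB.pos).le (dvd_mul_left p.1 B)).1 hd
  rcases (Nat.Prime.dvd_mul h.1).1 h1 with h2 | h2
  · have := (Nat.prime_dvd_prime_iff_eq h.1 hb).1 h2
    omega
  · exact h.2.1 h2

/-- The determinant of two different admissible pairs is not zero. -/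
theorem Adm.det_ne {p q : ℕ × ℕ} (hp : Adm κ X0 b B p) (hq : Adm κ X0 b B q) (hne : p ≠ q) :
    ((p.1 : ℤ) * q.2 - q.1 * p.2) ≠ 0 := by
  intro h0
  have h1 : p.1 * q.2 = q.1 * p.2 := by
    have : (p.1 : ℤ) * q.2 = q.1 * p.2 := by linarith
    exact_mod_cast this
  by_cases h2 : p.1 = q.1
  · rw [h2] at h1
    have h3 := Nat.eq_of_mul_eq_mul_left hq.pos.1 h1
    exact hne (Prod.ext h2 h3.symm)
  · have h3 : p.1 ∣ q.1 * p.2 := ⟨q.2, h1.symm⟩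
    rcases (Nat.Prime.dvd_mul hp.1).1 h3 with h4 | h4
    · exact h2 ((Nat.prime_dvd_prime_iff_eq hp.1 hq.1).1 h4)
    · exact hp.2.1 h4

/-- The gcd of two moduli divides the determinant. -/
theorem Adm.gcd_dvd_det {p q : ℕ × ℕ} (hp : Adm κ X0 b B p) (hq : Adm κ X0 b B q)
    (hκ : 0 < κ) (hX : 0 < X0) (hB : B.Prime) (hcop : Nat.Coprime b (b * p.2 - B * p.1)) :
    ((Nat.gcd (b * p.2 - B * p.1) (b * q.2 - B * q.1) : ℕ) : ℤ)
      ∣ ((p.1 : ℤ) * q.2 - q.1 * p.2) := by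
  set g := Nat.gcd (b * p.2 - B * p.1) (b * q.2 - B * q.1) with hg
  have h1 : (g : ℤ) ∣ (b : ℤ) * p.2 - B * p.1 := by
    have : (g : ℤ) ∣ ((b * p.2 - B * p.1 : ℕ) : ℤ) :=
      Int.natCast_dvd_natCast.2 (Nat.gcd_dvd_left _ _)
    rw [Nat.cast_sub (hp.lt hκ hX hB.pos).le] at this
    push_cast at this
    exact this
  have h2 : (g : ℤ) ∣ (b : ℤ) * q.2 - B * q.1 := by
    have : (g : ℤ) ∣ ((b * q.2 - B * q.1 : ℕ) : ℤ) :=
      Int.natCast_dvd_natCast.2 (Nat.gcd_dvd_right _ _)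
    rw [Nat.cast_sub (hq.lt hκ hX hB.pos).le] at this
    push_cast at this
    exact this
  have h3 : (g : ℤ) ∣ (b : ℤ) * ((p.1 : ℤ) * q.2 - q.1 * p.2) := by
    have : (b : ℤ) * ((p.1 : ℤ) * q.2 - q.1 * p.2)
        = p.1 * ((b : ℤ) * q.2 - B * q.1) - q.1 * ((b : ℤ) * p.2 - B * p.1) := by ring
    rw [this]
    exact dvd_sub (h2.mul_left _) (h1.mul_left _)
  have h4 : IsCoprime (g : ℤ) (b : ℤ) := by
    rw [Nat.isCoprime_iff_coprime]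
    exact (Nat.Coprime.coprime_dvd_right (Nat.gcd_dvd_left _ _) hcop).symm
  exact h4.dvd_of_dvd_mul_left h3

end geo

end Pool.Agent.Lib.PO69
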