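import Pool.Agent.Lib.PO69.E2Win

/-! Off-diagonal terms for row E2. -/

set_option autoImplicit false

namespace Pool.Agent.Lib.PO69

open Finset

section off

variable {κ X0 : ℝ} {b B : ℕ}

/-- the modulus of a pair -/
def dd (b B : ℕ) (p : ℕ × ℕ) : ℕ := b * p.2 - B * p.1

/-- the expected number -/
noncomputable def rho (κ X0 : ℝ) (b B : ℕ) (p : ℕ × ℕ) : ℝ :=
  ((Ico (lo κ X0 b p.1) (hi κ X0 b p.1)).card : ℝ) / (dd b B p : ℕ)

theorem rho_nonneg (p : ℕ × ℕ) : 0 ≤ rho κ X0 b B p := by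
  unfold rho; positivity

/-- gcd bound by the determinant. -/
theorem Adm.gcd_le {p q : ℕ × ℕ} (hp : Adm κ X0 b B p) (hq : Adm κ X0 b B q) (hne : p ≠ q)
    (hκ : 0 < κ) (hX : 0.35 * κ ≤ X0) (hb : b.Prime) (hB : B.Prime) (hbB : b < B) (W0 : ℕ)
    (hpW : p.1 ≤ W0) (hqW : q.1 ≤ W0) (hWb : W0 < b) :
    ((Nat.gcd (b * p.2 - B * p.1) (b * q.2 - B * q.1) : ℕ) : ℝ) ≤ 3 * (W0 : ℝ) ^ 2 * (B / b) := by
  have hX0 : 0 < X0 := by linarith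
  have hcop := hp.coprime_b hκ hX0 hb hB (by omega) (by omega)
  have hdvd := hp.gcd_dvd_det hq hκ hX0 hB hcop
  have hdet := hp.det_ne hq hne
  have h1 : ((Nat.gcd (b * p.2 - B * p.1) (b * q.2 - B * q.1) : ℕ) : ℤ)
      ≤ |((p.1 : ℤ) * q.2 - q.1 * p.2)| :=
    Int.le_of_dvd (abs_pos.2 hdet) ((dvd_abs _ _).2 hdvd)
  have h2 : ((Nat.gcd (b * p.2 - B * p.1) (b * q.2 - B * q.1) : ℕ) : ℝ)
      ≤ |((p.1 : ℝ) * q.2 - q.1 * p.2)| := by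
    exact_mod_cast h1
  refine h2.trans ?_
  have hb' : (0 : ℝ) < b := by exact_mod_cast hb.pos
  have hB' : (0 : ℝ) < B := by exact_mod_cast hB.pos
  have hκX : κ / X0 ≤ 20 / 7 := by
    rw [div_le_iff₀ hX0]; linarith
  have key : ∀ r : ℕ × ℕ, Adm κ X0 b B r → r.1 ≤ W0 → (r.2 : ℝ) ≤ 3 * W0 * (B / b) := by
    intro r hr hrW
    have h3 := hr.2.2.2
    have hrW' : (r.1 : ℝ) ≤ W0 := by exact_mod_cast hrW
    have e2 : 0.51 * κ / X0 = 0.51 * (κ / X0) := by ring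
    rw [e2] at h3
    have h4 : (b : ℝ) * r.2 ≤ 3 * (B * W0) := by
      have h5 : (1 + 0.51 * (κ / X0)) * ((B : ℝ) * r.1) ≤ 3 * (B * W0) := by
        have h6 : (B : ℝ) * r.1 ≤ B * W0 := mul_le_mul_of_nonneg_left hrW' hB'.le
        have h7 : 0 ≤ (B : ℝ) * r.1 := by positivity
        have h8 : 1 + 0.51 * (κ / X0) ≤ 3 := by linarith
        exact mul_le_mul h8 h6 h7 (by norm_num)
      linarith
    rw [mul_div_assoc', le_div_iff₀ hb']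
    linarith
  have hp2 := key p hp hpW
  have hq2 := key q hq hqW
  have hpW' : (p.1 : ℝ) ≤ W0 := by exact_mod_cast hpW
  have hqW' : (q.1 : ℝ) ≤ W0 := by exact_mod_cast hqW
  have hW0 : (0 : ℝ) ≤ W0 := Nat.cast_nonneg _
  have hr0 : 0 ≤ (B : ℝ) / b := by positivity
  have a1 : (p.1 : ℝ) * q.2 ≤ 3 * (W0 : ℝ) ^ 2 * (B / b) := by
    calc (p.1 : ℝ) * q.2 ≤ W0 * (3 * W0 * (B / b)) :=
          mul_le_mul hpW' hq2 (by positivity) hW0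
      _ = _ := by ring
  have a2 : (q.1 : ℝ) * p.2 ≤ 3 * (W0 : ℝ) ^ 2 * (B / b) := by
    calc (q.1 : ℝ) * p.2 ≤ W0 * (3 * W0 * (B / b)) :=
          mul_le_mul hqW' hp2 (by positivity) hW0
      _ = _ := by ring
  rw [abs_le]
  have a3 : (0 : ℝ) ≤ (p.1 : ℝ) * q.2 := by positivity
  have a4 : (0 : ℝ) ≤ (q.1 : ℝ) * p.2 := by positivity
  constructor <;> linarith

/-- one mixed moment -/
theorem mixed {p q : ℕ × ℕ} (hp : Adm κ X0 b B p) (hq : Adm κ X0 b B q) (Q : ℕ)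
    (hκ : 0 < κ) (hX : 0.35 * κ ≤ X0) (hb : b.Prime) (hB : B.Prime) (hbB : b < B)
    (hpb : p.1 < b) (hqb : q.1 < b) (hbp : 100 ≤ κ * (b / p.1))
    (hQ : dd b B p * dd b B q ∣ Q) :
    ∑ M ∈ range Q, cnt b p.1 (dd b B p) (lo κ X0 b p.1) (hi κ X0 b p.1) M
        * cnt b q.1 (dd b B q) (lo κ X0 b q.1) (hi κ X0 b q.1) M
      ≤ (rho κ X0 b B p * rho κ X0 b B q
        + 0.07 * (X0 * b / B) * (3 * (X0 / κ) / B)
          * (Nat.gcd (b * p.2 - B * p.1) (b * q.2 - B * q.1) : ℕ)) * Q := by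
  have hX0 : 0 < X0 := by linarith
  have hdp : 0 < dd b B p := Nat.sub_pos_of_lt (hp.lt hκ hX0 hB.pos)
  have hdq : 0 < dd b B q := Nat.sub_pos_of_lt (hq.lt hκ hX0 hB.pos)
  have hcs : Nat.Coprime q.1 (Nat.gcd (dd b B p) (dd b B q)) :=
    Nat.Coprime.coprime_dvd_right (Nat.gcd_dvd_right _ _) (hq.coprime_s hκ hX0 hb hB hqb)
  have hm := sum_cnt_mul b p.1 (dd b B p) (lo κ X0 b p.1) (hi κ X0 b p.1) q.1 (dd b B q)
    (lo κ X0 b q.1) (hi κ X0 b q.1) Q hdp hdq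
    (hp.coprime_b hκ hX0 hb hB (by omega) hpb) (hq.coprime_b hκ hX0 hb hB (by omega) hqb) hQ hcs
  refine hm.trans ?_
  refine mul_le_mul_of_nonneg_right ?_ (Nat.cast_nonneg _)
  have hdp' : (0 : ℝ) < (dd b B p : ℕ) := by exact_mod_cast hdp
  have hdq' : (0 : ℝ) < (dd b B q : ℕ) := by exact_mod_cast hdq
  have hg0 : 0 < Nat.gcd (dd b B p) (dd b B q) := Nat.gcd_pos_of_pos_left _ hdp
  have hg' : (0 : ℝ) < (Nat.gcd (dd b B p) (dd b B q) : ℕ) := by exact_mod_cast hg0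
  have e1 : ((Nat.gcd (dd b B p) (dd b B q) : ℕ) : ℝ) / ((dd b B p : ℕ) * (dd b B q : ℕ))
      * (((Ico (lo κ X0 b p.1) (hi κ X0 b p.1)).card : ℝ)
        * (((Ico (lo κ X0 b q.1) (hi κ X0 b q.1)).card : ℝ) /
          (Nat.gcd (dd b B p) (dd b B q) : ℕ) + 1))
      = rho κ X0 b B p * rho κ X0 b B q
        + rho κ X0 b B p * (1 / (dd b B q : ℕ)) * (Nat.gcd (dd b B p) (dd b B q) : ℕ) := by
    unfold rho
    field_simp
  rw [e1]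
  have h1 : rho κ X0 b B p ≤ 0.07 * (X0 * b / B) := hp.rho_le hκ hX hb.pos hB.pos hbp
  have h2 : 1 / ((dd b B q : ℕ) : ℝ) ≤ 3 * (X0 / κ) / B := hq.inv_d_le hκ hX0 hB.pos
  have h3 : rho κ X0 b B p * (1 / (dd b B q : ℕ))
      ≤ 0.07 * (X0 * b / B) * (3 * (X0 / κ) / B) :=
    mul_le_mul h1 h2 (by positivity) (le_trans (rho_nonneg p) h1)
  have h4 : rho κ X0 b B p * (1 / (dd b B q : ℕ)) * (Nat.gcd (dd b B p) (dd b B q) : ℕ)
      ≤ 0.07 * (X0 * b / B) * (3 * (X0 / κ) / B) * (Nat.gcd (dd b B p) (dd b B q) : ℕ) :=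
    mul_le_mul_of_nonneg_right h3 hg'.le
  unfold dd at h4 ⊢
  linarith

end off

end Pool.Agent.Lib.PO69
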