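import Pool.Agent.Lib.PO69.E2Off

/-! Off-diagonal total for row E2. -/

set_option autoImplicit false

namespace Pool.Agent.Lib.PO69

open Finset

section tot

variable {κ X0 : ℝ} {b B : ℕ}

/-- reduction of the sum of the gcd's over all pairs to fixed `(s, s')`. -/
theorem off_total (F : Finset (ℕ × ℕ)) (S : Finset ℕ) (T : ℝ) (g : ℕ × ℕ → ℕ × ℕ → ℝ)
    (hFS : ∀ p ∈ F, p.1 ∈ S)
    (hT : ∀ s ∈ S, ∀ s' ∈ S, ∀ P : Finset (ℕ × ℕ),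
      (∀ x ∈ P, (s, x.1) ∈ F ∧ (s', x.2) ∈ F ∧ (s, x.1) ≠ (s', x.2)) →
      ∑ x ∈ P, g (s, x.1) (s', x.2) ≤ T) :
    ∑ p ∈ F, ∑ q ∈ F.erase p, g p q ≤ (S.card : ℝ) ^ 2 * T := by
  classical
  have e1 : ∑ p ∈ F, ∑ q ∈ F.erase p, g p q = ∑ x ∈ F.offDiag, g x.1 x.2 := by
    rw [sum_sigma']
    refine sum_nbij' (fun x => (x.1, x.2)) (fun x => ⟨x.1, x.2⟩) ?_ ?_ ?_ ?_ ?_
    · intro x hx
      simp only [mem_sigma, mem_erase] at hx
      simp only [mem_offDiag]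
      exact ⟨hx.1, hx.2.2, fun h => hx.2.1 h.symm⟩
    · intro x hx
      simp only [mem_offDiag] at hx
      simp only [mem_sigma, mem_erase]
      exact ⟨hx.1, fun h => hx.2.2 h.symm, hx.2.1⟩
    · intro x _; rfl
    · intro x _; rfl
    · intro x _; rfl
  rw [e1]
  have hmap : ∀ x ∈ F.offDiag, (x.1.1, x.2.1) ∈ S ×ˢ S := by
    intro x hx
    rw [mem_offDiag] at hx
    rw [mem_product]
    exact ⟨hFS x.1 hx.1, hFS x.2 hx.2.1⟩
  rw [← sum_fiberwise_of_maps_to hmap]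
  have hb : ∀ y ∈ S ×ˢ S, ∑ x ∈ F.offDiag with (x.1.1, x.2.1) = y, g x.1 x.2 ≤ T := by
    intro y hy
    rw [mem_product] at hy
    have e2 : ∑ x ∈ F.offDiag with (x.1.1, x.2.1) = y, g x.1 x.2
        = ∑ z ∈ (F.offDiag.filter (fun x => (x.1.1, x.2.1) = y)).image (fun x => (x.1.2, x.2.2)),
          g (y.1, z.1) (y.2, z.2) := by
      rw [sum_image]
      · refine sum_congr rfl fun x hx => ?_
        rw [mem_filter] at hx
        rw [← hx.2]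
      · intro x hx x' hx' hxx
        simp only [coe_filter, Set.mem_ofPred_eq] at hx hx'
        have h1 := hx.2
        have h2 := hx'.2
        simp only [Prod.mk.injEq] at hxx
        rw [← h2] at h1
        simp only [Prod.mk.injEq] at h1
        exact Prod.ext (Prod.ext h1.1 hxx.1) (Prod.ext h1.2 hxx.2)
    rw [e2]
    refine hT y.1 hy.1 y.2 hy.2 _ ?_
    intro z hz
    rw [mem_image] at hz
    obtain ⟨x, hx, rfl⟩ := hz
    rw [mem_filter, mem_offDiag] at hx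
    obtain ⟨⟨h1, h2, h3⟩, h4⟩ := hx
    rw [← h4]
    exact ⟨h1, h2, h3⟩
  refine (sum_le_sum hb).trans (le_of_eq ?_)
  rw [sum_const, card_product, nsmul_eq_mul]
  push_cast
  ring

/-- size of the gcd total for fixed `(s, s')`. -/
theorem T_le (W0 B b : ℕ) (hW : 1 ≤ W0) (hb : 0 < b) (hbB : b < B) :
    (2 * (W0 : ℝ) * (B / b)) ^ 2 * (1 + Real.log (⌊3 * (W0 : ℝ) ^ 2 * (B / b)⌋₊ : ℕ))
      + 2 * (2 * (W0 : ℝ) * (B / b)) * (⌊3 * (W0 : ℝ) ^ 2 * (B / b)⌋₊ : ℕ)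
      + ((⌊3 * (W0 : ℝ) ^ 2 * (B / b)⌋₊ : ℕ) : ℝ) ^ 2
      ≤ 37 * (W0 : ℝ) ^ 4 * (B / b) ^ 2 * (1 + Real.log B) := by
  have hb' : (0 : ℝ) < b := by exact_mod_cast hb
  have hb1 : (1 : ℝ) ≤ b := by exact_mod_cast hb
  have hB' : (b : ℝ) < B := by exact_mod_cast hbB
  have hB0 : (0 : ℝ) < B := by linarith
  have hB1 : (1 : ℝ) ≤ B := by linarith
  have hW' : (1 : ℝ) ≤ W0 := by exact_mod_cast hW
  have hr1 : 1 ≤ (B : ℝ) / b := by
    rw [le_div_iff₀ hb']; linarith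
  set r : ℝ := (B : ℝ) / b with hr
  set G : ℕ := ⌊3 * (W0 : ℝ) ^ 2 * r⌋₊ with hG
  have hG1 : (G : ℝ) ≤ 3 * (W0 : ℝ) ^ 2 * r := Nat.floor_le (by positivity)
  have hG0 : (1 : ℝ) ≤ G := by
    have : 1 ≤ G := by
      rw [hG]
      apply Nat.le_floor
      push_cast
      nlinarith [mul_le_mul hW' hW' (by norm_num) (by linarith)]
    exact_mod_cast this
  have hrB : r ≤ B := by
    rw [hr]
    exact div_le_self hB0.le hb1
  have hlogB : 0 ≤ Real.log B := Real.log_nonneg hB1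
  have hlog : Real.log G ≤ 3 * (W0 : ℝ) ^ 2 + Real.log B := by
    have h1 : Real.log G ≤ Real.log (3 * (W0 : ℝ) ^ 2 * B) := by
      apply Real.log_le_log (by linarith)
      refine hG1.trans ?_
      exact mul_le_mul_of_nonneg_left hrB (by positivity)
    rw [Real.log_mul (by positivity) (by positivity)] at h1
    have h2 : Real.log (3 * (W0 : ℝ) ^ 2) ≤ 3 * (W0 : ℝ) ^ 2 := by
      have := Real.log_le_sub_one_of_pos (x := 3 * (W0 : ℝ) ^ 2) (by positivity)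
      linarith
    linarith
  set ℓ : ℝ := Real.log B with hℓ
  have hW2 : (W0 : ℝ) ^ 2 ≤ (W0 : ℝ) ^ 4 := pow_le_pow_right₀ hW' (by norm_num)
  have hW3 : (W0 : ℝ) ^ 3 ≤ (W0 : ℝ) ^ 4 := pow_le_pow_right₀ hW' (by norm_num)
  have t1 : (2 * (W0 : ℝ) * r) ^ 2 * (1 + Real.log G)
      ≤ 16 * (W0 : ℝ) ^ 4 * r ^ 2 * (1 + ℓ) := by
    have h3 : 1 + Real.log G ≤ 4 * (W0 : ℝ) ^ 2 * (1 + ℓ) := by
      have h4 : (1 : ℝ) ≤ (W0 : ℝ) ^ 2 := one_le_pow₀ hW'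
      nlinarith
    calc (2 * (W0 : ℝ) * r) ^ 2 * (1 + Real.log G)
        ≤ (2 * (W0 : ℝ) * r) ^ 2 * (4 * (W0 : ℝ) ^ 2 * (1 + ℓ)) :=
          mul_le_mul_of_nonneg_left h3 (by positivity)
      _ = _ := by ring
  have t2 : 2 * (2 * (W0 : ℝ) * r) * (G : ℝ) ≤ 12 * (W0 : ℝ) ^ 4 * r ^ 2 * (1 + ℓ) := by
    calc 2 * (2 * (W0 : ℝ) * r) * (G : ℝ) ≤ 2 * (2 * (W0 : ℝ) * r) * (3 * (W0 : ℝ) ^ 2 * r) :=
          mul_le_mul_of_nonneg_left hG1 (by positivity)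
      _ = 12 * (W0 : ℝ) ^ 3 * r ^ 2 := by ring
      _ ≤ 12 * (W0 : ℝ) ^ 4 * r ^ 2 := by
          have : 0 ≤ r ^ 2 := by positivity
          nlinarith
      _ ≤ 12 * (W0 : ℝ) ^ 4 * r ^ 2 * (1 + ℓ) := by
          have : 0 ≤ 12 * (W0 : ℝ) ^ 4 * r ^ 2 := by positivity
          nlinarith
  have t3 : (G : ℝ) ^ 2 ≤ 9 * (W0 : ℝ) ^ 4 * r ^ 2 * (1 + ℓ) := by
    calc (G : ℝ) ^ 2 ≤ (3 * (W0 : ℝ) ^ 2 * r) ^ 2 :=
          pow_le_pow_left₀ (by linarith) hG1 2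
      _ = 9 * (W0 : ℝ) ^ 4 * r ^ 2 := by ring
      _ ≤ 9 * (W0 : ℝ) ^ 4 * r ^ 2 * (1 + ℓ) := by
          have : 0 ≤ 9 * (W0 : ℝ) ^ 4 * r ^ 2 := by positivity
          nlinarith
  nlinarith

end tot

end Pool.Agent.Lib.PO69
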