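import Pool.Agent.Lib.PO69.E2Geo

/-! Windows and sizes for row E2. -/

set_option autoImplicit false

namespace Pool.Agent.Lib.PO69

open Finset

section win

variable {κ X0 : ℝ} {b B : ℕ}

theorem mem_lohi {s D : ℕ} (hb : 0 < b) (hs : 0 < s)
    (hD : D ∈ Ico (lo κ X0 b s) (hi κ X0 b s)) :
    X0 - 0.01 * κ < (s : ℝ) * D / b ∧ (s : ℝ) * D / b < X0 + 0.01 * κ := by
  have hs' : (0 : ℝ) < s := by exact_mod_cast hs
  have hb' : (0 : ℝ) < b := by exact_mod_cast hb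
  rw [mem_Ico, lo, hi] at hD
  have h1 : (X0 - 0.01 * κ) * b / s < D := Nat.lt_of_floor_lt (Nat.lt_of_succ_le hD.1)
  have h2 : (D : ℝ) < (X0 + 0.01 * κ) * b / s := Nat.lt_ceil.1 hD.2
  rw [div_lt_iff₀ hs'] at h1
  rw [lt_div_iff₀ hs'] at h2
  constructor
  · rw [lt_div_iff₀ hb']; linarith
  · rw [div_lt_iff₀ hb']; linarith

theorem Adm.window {p : ℕ × ℕ} {D : ℕ} (h : Adm κ X0 b B p) (hκ : 0 < κ)
    (hX : 0.35 * κ ≤ X0) (hb : 0 < b) (hB : 0 < B)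
    (hD : D ∈ Ico (lo κ X0 b p.1) (hi κ X0 b p.1)) :
    X0 - 0.05 * κ < (p.1 : ℝ) * D / b ∧ (p.1 : ℝ) * D / b < X0 + 0.05 * κ ∧
    X0 + 0.45 * κ < (p.2 : ℝ) * D / B ∧ (p.2 : ℝ) * D / B < X0 + 0.55 * κ := by
  obtain ⟨h1, h2⟩ := mem_lohi hb h.pos.1 hD
  have hX0 : 0 < X0 := by linarith
  have hs : (0 : ℝ) < p.1 := by exact_mod_cast h.pos.1
  have hL : (0 : ℝ) < p.2 := by exact_mod_cast h.pos.2
  have hb' : (0 : ℝ) < b := by exact_mod_cast hb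
  have hB' : (0 : ℝ) < B := by exact_mod_cast hB
  set Y : ℝ := (p.1 : ℝ) * D / b with hY
  have hY0 : 0 < Y := by
    have : 0.01 * κ < X0 := by linarith
    linarith
  set z : ℝ := (b : ℝ) * p.2 / (B * p.1) with hz
  have hz1 : 1 + 0.49 * κ / X0 < z := by
    rw [hz, lt_div_iff₀ (by positivity)]; exact h.2.2.1
  have hz2 : z < 1 + 0.51 * κ / X0 := by
    rw [hz, div_lt_iff₀ (by positivity)]; exact h.2.2.2
  have hzY : (p.2 : ℝ) * D / B = z * Y := by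
    rw [hz, hY]
    field_simp
  have hκX : κ / X0 * X0 = κ := by field_simp
  have hκX1 : κ / X0 * κ ≤ 3 * κ := by
    have : κ / X0 ≤ 3 := by
      rw [div_le_iff₀ hX0]; linarith
    nlinarith
  have hκX0 : 0 < κ / X0 := by positivity
  have e1 : 0.49 * κ / X0 = 0.49 * (κ / X0) := by ring
  have e2 : 0.51 * κ / X0 = 0.51 * (κ / X0) := by ring
  rw [e1] at hz1
  rw [e2] at hz2
  rw [hzY]
  refine ⟨by linarith, by linarith, ?_, ?_⟩
  · have h3 : (1 + 0.49 * (κ / X0)) * (X0 - 0.01 * κ) < z * Y :=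
      mul_lt_mul'' hz1 h1 (by positivity) (by linarith)
    nlinarith
  · have h3 : z * Y < (1 + 0.51 * (κ / X0)) * (X0 + 0.01 * κ) :=
      mul_lt_mul'' hz2 h2 (by linarith) hY0.le
    nlinarith

theorem card_lohi_ge {s : ℕ} (hκ : 0 < κ) (hX : 0.35 * κ ≤ X0) (hb : 0 < b) (hs : 0 < s)
    (hbig : 100 ≤ κ * (b / s)) :
    0.01 * κ * (b / s) ≤ ((Ico (lo κ X0 b s) (hi κ X0 b s)).card : ℝ) := by
  have hs' : (0 : ℝ) < s := by exact_mod_cast hs
  have hb' : (0 : ℝ) < b := by exact_mod_cast hb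
  rw [Nat.card_Ico]
  have h5 : ((hi κ X0 b s : ℕ) : ℝ) - (lo κ X0 b s : ℕ)
      ≤ ((hi κ X0 b s - lo κ X0 b s : ℕ) : ℝ) := by
    have : ((hi κ X0 b s : ℕ) : ℝ)
        ≤ ((hi κ X0 b s - lo κ X0 b s : ℕ) : ℝ) + (lo κ X0 b s : ℕ) := by
      have : hi κ X0 b s ≤ (hi κ X0 b s - lo κ X0 b s) + lo κ X0 b s := by omega
      exact_mod_cast this
    linarith
  refine le_trans ?_ h5
  have h6 : (X0 + 0.01 * κ) * (b / s) ≤ (hi κ X0 b s : ℕ) := by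
    rw [hi, ← mul_div_assoc]
    exact Nat.le_ceil _
  have h7 : ((lo κ X0 b s : ℕ) : ℝ) ≤ (X0 - 0.01 * κ) * (b / s) + 1 := by
    rw [lo, ← mul_div_assoc]
    push_cast
    have h8 : 0 ≤ X0 - 0.01 * κ := by linarith
    have : (0 : ℝ) ≤ (X0 - 0.01 * κ) * b / s := by positivity
    linarith [Nat.floor_le this]
  nlinarith

theorem card_lohi_le {s : ℕ} (hκ : 0 < κ) (hX : 0.35 * κ ≤ X0) (hb : 0 < b) (hs : 0 < s)
    (hbig : 100 ≤ κ * (b / s)) :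
    ((Ico (lo κ X0 b s) (hi κ X0 b s)).card : ℝ) ≤ 0.03 * κ * (b / s) := by
  have hs' : (0 : ℝ) < s := by exact_mod_cast hs
  have hb' : (0 : ℝ) < b := by exact_mod_cast hb
  have h6 : ((hi κ X0 b s : ℕ) : ℝ) ≤ (X0 + 0.01 * κ) * (b / s) + 1 := by
    rw [hi, ← mul_div_assoc]
    have : (0 : ℝ) ≤ (X0 + 0.01 * κ) * b / s := by
      have : 0 ≤ X0 := by linarith
      positivity
    exact (Nat.ceil_lt_add_one this).le
  have h7 : (X0 - 0.01 * κ) * (b / s) ≤ (lo κ X0 b s : ℕ) := by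
    rw [lo, ← mul_div_assoc]
    push_cast
    exact (Nat.lt_floor_add_one _).le
  rw [Nat.card_Ico]
  rcases Nat.lt_or_ge (lo κ X0 b s) (hi κ X0 b s) with h | h
  · rw [Nat.cast_sub h.le]
    nlinarith
  · rw [Nat.sub_eq_zero_of_le h]
    have : 0 < κ * (b / s) := by linarith
    push_cast
    linarith

/-- size of `d`. -/
theorem Adm.d_gt {p : ℕ × ℕ} (h : Adm κ X0 b B p) (hκ : 0 < κ) (hX : 0 < X0) (hB : 0 < B) :
    0.49 * (κ / X0) * (B * p.1) < ((b * p.2 - B * p.1 : ℕ) : ℝ) := by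
  rw [Nat.cast_sub (h.lt hκ hX hB).le]
  push_cast
  have h1 := h.2.2.1
  have e1 : (1 + 0.49 * κ / X0) * ((B : ℝ) * p.1)
      = B * p.1 + 0.49 * (κ / X0) * (B * p.1) := by ring
  linarith

theorem Adm.d_lt {p : ℕ × ℕ} (h : Adm κ X0 b B p) (hκ : 0 < κ) (hX : 0 < X0) (hB : 0 < B) :
    ((b * p.2 - B * p.1 : ℕ) : ℝ) < 0.51 * (κ / X0) * (B * p.1) := by
  rw [Nat.cast_sub (h.lt hκ hX hB).le]
  push_cast
  have h1 := h.2.2.2
  have e1 : (1 + 0.51 * κ / X0) * ((B : ℝ) * p.1)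
      = B * p.1 + 0.51 * (κ / X0) * (B * p.1) := by ring
  linarith

/-- the window is shorter than `d`. -/
theorem Adm.hi_le {p : ℕ × ℕ} (h : Adm κ X0 b B p) (hκ : 0 < κ) (hX : 0.35 * κ ≤ X0)
    (hX1 : X0 ≤ 0.006) (hb : 0 < b) (hbB : b < B) (hbig : 100 ≤ κ * (b / p.1)) :
    hi κ X0 b p.1 ≤ lo κ X0 b p.1 + (b * p.2 - B * p.1) := by
  have hX0 : 0 < X0 := by linarith
  have hs : (0 : ℝ) < p.1 := by exact_mod_cast h.pos.1
  have hs1 : (1 : ℝ) ≤ p.1 := by exact_mod_cast h.pos.1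
  have hb' : (0 : ℝ) < b := by exact_mod_cast hb
  have hB' : (b : ℝ) < B := by exact_mod_cast hbB
  have h1 := card_lohi_le (X0 := X0) hκ hX hb h.pos.1 hbig
  have h2 := h.d_gt hκ hX0 (by omega)
  have h3 : 0.03 * κ * (b / p.1) ≤ 0.49 * (κ / X0) * (B * p.1) := by
    have h4 : (b : ℝ) / p.1 ≤ B * p.1 := by
      rw [div_le_iff₀ hs]
      nlinarith [mul_pos (lt_trans hb' hB') hs]
    have h5 : 0.03 * κ ≤ 0.49 * (κ / X0) := by
      have : κ ≤ κ / X0 := by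
        rw [le_div_iff₀ hX0]
        nlinarith
      linarith
    have h6 : (0 : ℝ) ≤ (b : ℝ) / p.1 := by positivity
    have h7 : 0 ≤ 0.49 * (κ / X0) := by positivity
    exact mul_le_mul h5 h4 h6 h7
  rw [Nat.card_Ico] at h1
  have h8 : ((hi κ X0 b p.1 - lo κ X0 b p.1 : ℕ) : ℝ) < ((b * p.2 - B * p.1 : ℕ) : ℝ) := by
    linarith
  have h9 : hi κ X0 b p.1 - lo κ X0 b p.1 < b * p.2 - B * p.1 := by exact_mod_cast h8
  omega

/-- lower bound of one expected number. -/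
theorem Adm.rho_ge {p : ℕ × ℕ} (h : Adm κ X0 b B p) (hκ : 0 < κ) (hX : 0.35 * κ ≤ X0)
    (hb : 0 < b) (hB : 0 < B) (hbig : 100 ≤ κ * (b / p.1)) :
    0.019 * (X0 * b / (B * (p.1 : ℝ) ^ 2))
      ≤ ((Ico (lo κ X0 b p.1) (hi κ X0 b p.1)).card : ℝ) / ((b * p.2 - B * p.1 : ℕ) : ℝ) := by
  have hX0 : 0 < X0 := by linarith
  have hs : (0 : ℝ) < p.1 := by exact_mod_cast h.pos.1
  have hb' : (0 : ℝ) < b := by exact_mod_cast hb
  have hB' : (0 : ℝ) < B := by exact_mod_cast hB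
  have h1 := card_lohi_ge (X0 := X0) hκ hX hb h.pos.1 hbig
  have h2 := h.d_gt hκ hX0 hB
  have h3 := h.d_lt hκ hX0 hB
  have h4 : 0 < ((b * p.2 - B * p.1 : ℕ) : ℝ) := lt_trans (by positivity) h2
  rw [le_div_iff₀ h4]
  refine le_trans ?_ h1
  calc 0.019 * (X0 * b / (B * (p.1 : ℝ) ^ 2)) * ((b * p.2 - B * p.1 : ℕ) : ℝ)
      ≤ 0.019 * (X0 * b / (B * (p.1 : ℝ) ^ 2)) * (0.51 * (κ / X0) * (B * p.1)) :=
        mul_le_mul_of_nonneg_left h3.le (by positivity)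
    _ = 0.019 * 0.51 * κ * (b / p.1) := by
        field_simp
    _ ≤ 0.01 * κ * (b / p.1) := by
        have : 0 < κ * (b / p.1) := by positivity
        nlinarith

/-- upper bound of one expected number. -/
theorem Adm.rho_le {p : ℕ × ℕ} (h : Adm κ X0 b B p) (hκ : 0 < κ) (hX : 0.35 * κ ≤ X0)
    (hb : 0 < b) (hB : 0 < B) (hbig : 100 ≤ κ * (b / p.1)) :
    ((Ico (lo κ X0 b p.1) (hi κ X0 b p.1)).card : ℝ) / ((b * p.2 - B * p.1 : ℕ) : ℝ)
      ≤ 0.07 * (X0 * b / B) := by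
  have hX0 : 0 < X0 := by linarith
  have hs : (0 : ℝ) < p.1 := by exact_mod_cast h.pos.1
  have hs1 : (1 : ℝ) ≤ p.1 := by exact_mod_cast h.pos.1
  have hb' : (0 : ℝ) < b := by exact_mod_cast hb
  have hB' : (0 : ℝ) < B := by exact_mod_cast hB
  have h1 := card_lohi_le (X0 := X0) hκ hX hb h.pos.1 hbig
  have h2 := h.d_gt hκ hX0 hB
  have h4 : 0 < ((b * p.2 - B * p.1 : ℕ) : ℝ) := lt_trans (by positivity) h2
  rw [div_le_iff₀ h4]
  refine h1.trans ?_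
  calc 0.03 * κ * (b / p.1) ≤ 0.07 * 0.49 * κ * (b * p.1) := by
        have : (b : ℝ) / p.1 ≤ b * p.1 := by
          rw [div_le_iff₀ hs]
          nlinarith [mul_pos hb' hs]
        have h5 : 0 < κ * (b * p.1) := by positivity
        have h6 : κ * (b / p.1) ≤ κ * (b * p.1) := mul_le_mul_of_nonneg_left this hκ.le
        nlinarith
    _ = 0.07 * (X0 * b / B) * (0.49 * (κ / X0) * (B * p.1)) := by
        field_simp
    _ ≤ _ := mul_le_mul_of_nonneg_left h2.le (by positivity)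

/-- upper bound of `1/d`. -/
theorem Adm.inv_d_le {p : ℕ × ℕ} (h : Adm κ X0 b B p) (hκ : 0 < κ) (hX : 0 < X0) (hB : 0 < B) :
    1 / ((b * p.2 - B * p.1 : ℕ) : ℝ) ≤ 3 * (X0 / κ) / B := by
  have hs1 : (1 : ℝ) ≤ p.1 := by exact_mod_cast h.pos.1
  have hB' : (0 : ℝ) < B := by exact_mod_cast hB
  have h2 := h.d_gt hκ hX hB
  have h3 : 0.49 * (κ / X0) * B ≤ 0.49 * (κ / X0) * (B * p.1) := by
    apply mul_le_mul_of_nonneg_left _ (by positivity)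
    nlinarith
  have h4 : 0 < 0.49 * (κ / X0) * B := by positivity
  calc 1 / ((b * p.2 - B * p.1 : ℕ) : ℝ) ≤ 1 / (0.49 * (κ / X0) * B) :=
        one_div_le_one_div_of_le h4 (by linarith)
    _ = (1 / 0.49) * (X0 / κ) / B := by field_simp
    _ ≤ 3 * (X0 / κ) / B := by
        have : 0 < X0 / κ := by positivity
        gcongr
        norm_num

end win

end Pool.Agent.Lib.PO69
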