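import Mathlib

/-!
# Second moment for the linking step (integers with a square root of relations)

`b₁ M + w' Δ ≡ 0 (mod d)`, `d = b₂ w' - b₁ w`.  Abstract second moment, counting lemmas.
-/

set_option autoImplicit false

namespace Pool.Agent.Lib.PO69

open Finset

/-! ## Abstract second moment -/

theorem sm_abstract {ι : Type*} [DecidableEq ι] (F : Finset ι) (Q : ℕ) (hQ : 0 < Q)
    (X : ι → ℕ → ℝ) (ρ : ι → ℝ) (ε : ℝ) (hε : 0 ≤ ε)
    (h1 : ∀ i ∈ F, ∑ M ∈ range Q, X i M = ρ i * Q)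
    (h2 : ∀ i ∈ F, ∑ M ∈ range Q, X i M * X i M ≤ ρ i * Q)
    (h3 : ∀ i ∈ F, ∀ j ∈ F, i ≠ j →
      ∑ M ∈ range Q, X i M * X j M ≤ (1 + ε) * (ρ i * ρ j) * Q)
    (hρ : ∀ i ∈ F, 0 ≤ ρ i) (hE : 0 < ∑ i ∈ F, ρ i) :
    (((range Q).filter (fun M => ∀ i ∈ F, X i M = 0)).card : ℝ)
      ≤ (1 / (∑ i ∈ F, ρ i) + ε) * Q := by
  classical
  set E : ℝ := ∑ i ∈ F, ρ i with hEdef
  have hQ' : (0 : ℝ) < Q := by exact_mod_cast hQ
  -- the second moment
  have hN2 : ∑ M ∈ range Q, (∑ i ∈ F, X i M) ^ 2 ≤ (E + (1 + ε) * E ^ 2) * Q := by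
    have e1 : ∑ M ∈ range Q, (∑ i ∈ F, X i M) ^ 2
        = ∑ i ∈ F, ∑ j ∈ F, ∑ M ∈ range Q, X i M * X j M := by
      have : ∀ M ∈ range Q, (∑ i ∈ F, X i M) ^ 2 = ∑ i ∈ F, ∑ j ∈ F, X i M * X j M := by
        intro M _
        rw [sq, sum_mul_sum]
      rw [sum_congr rfl this, sum_comm]
      refine sum_congr rfl fun i _ => ?_
      rw [sum_comm]
    rw [e1]
    have e2 : ∀ i ∈ F, ∑ j ∈ F, ∑ M ∈ range Q, X i M * X j M
        ≤ ρ i * Q + (1 + ε) * (ρ i * E) * Q := by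
      intro i hi
      rw [← add_sum_erase F _ hi]
      have e3 : ∑ j ∈ F.erase i, ∑ M ∈ range Q, X i M * X j M
          ≤ ∑ j ∈ F.erase i, (1 + ε) * (ρ i * ρ j) * Q := by
        refine sum_le_sum fun j hj => ?_
        exact h3 i hi j (mem_of_mem_erase hj) (ne_of_mem_erase hj).symm
      have e4 : ∑ j ∈ F.erase i, (1 + ε) * (ρ i * ρ j) * Q
          ≤ ∑ j ∈ F, (1 + ε) * (ρ i * ρ j) * Q := by
        refine sum_le_sum_of_subset_of_nonneg (erase_subset i F) fun j hj _ => ?_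
        have := hρ i hi
        have := hρ j hj
        positivity
      have e5 : ∑ j ∈ F, (1 + ε) * (ρ i * ρ j) * Q = (1 + ε) * (ρ i * E) * Q := by
        rw [hEdef, mul_sum, mul_sum, sum_mul]
      have := h2 i hi
      linarith
    refine (sum_le_sum e2).trans (le_of_eq ?_)
    rw [sum_add_distrib, ← sum_mul]
    have : ∑ i ∈ F, (1 + ε) * (ρ i * E) * (Q : ℝ) = (1 + ε) * E ^ 2 * Q := by
      rw [← sum_mul, ← mul_sum, ← sum_mul]
      ring
    rw [this]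
    ring
  have hN1 : ∑ M ∈ range Q, ∑ i ∈ F, X i M = E * Q := by
    rw [sum_comm, sum_congr rfl h1, ← sum_mul]
  have hV : ∑ M ∈ range Q, (∑ i ∈ F, X i M - E) ^ 2 ≤ (E + ε * E ^ 2) * Q := by
    have : ∑ M ∈ range Q, (∑ i ∈ F, X i M - E) ^ 2
        = ∑ M ∈ range Q, (∑ i ∈ F, X i M) ^ 2 - 2 * E * ∑ M ∈ range Q, ∑ i ∈ F, X i M
          + E ^ 2 * Q := by
      rw [mul_sum, ← sum_sub_distrib]
      have : (E ^ 2 * Q : ℝ) = ∑ M ∈ range Q, E ^ 2 := by
        rw [sum_const, card_range, nsmul_eq_mul]; ring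
      rw [this, ← sum_add_distrib]
      refine sum_congr rfl fun M _ => ?_
      ring
    rw [this, hN1]
    nlinarith
  have hS : (((range Q).filter (fun M => ∀ i ∈ F, X i M = 0)).card : ℝ) * E ^ 2
      ≤ (E + ε * E ^ 2) * Q := by
    refine le_trans ?_ hV
    have : (((range Q).filter (fun M => ∀ i ∈ F, X i M = 0)).card : ℝ) * E ^ 2
        = ∑ M ∈ (range Q).filter (fun M => ∀ i ∈ F, X i M = 0), (∑ i ∈ F, X i M - E) ^ 2 := by
      rw [← nsmul_eq_mul, ← sum_const]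
      refine sum_congr rfl fun M hM => ?_
      rw [mem_filter] at hM
      rw [sum_congr rfl hM.2, sum_const_zero]
      ring
    rw [this]
    exact sum_le_sum_of_subset_of_nonneg (filter_subset _ _) fun _ _ _ => sq_nonneg _
  have hE2 : 0 < E ^ 2 := by positivity
  rw [← mul_le_mul_iff_left₀ hE2]
  refine hS.trans (le_of_eq ?_)
  field_simp

/-- Variant: only the total of the mixed moments is needed. -/
theorem sm_total {ι : Type*} [DecidableEq ι] (F : Finset ι) (Q : ℕ)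
    (X : ι → ℕ → ℝ) (ρ : ι → ℝ) (e : ℝ)
    (h1 : ∀ i ∈ F, ∑ M ∈ range Q, X i M = ρ i * Q)
    (h2 : ∀ i ∈ F, ∑ M ∈ range Q, X i M * X i M ≤ ρ i * Q)
    (h3 : ∑ i ∈ F, ∑ j ∈ F.erase i, ∑ M ∈ range Q, X i M * X j M
      ≤ ((∑ i ∈ F, ρ i) ^ 2 + e) * Q)
    (hE : 0 < ∑ i ∈ F, ρ i) :
    (((range Q).filter (fun M => ∀ i ∈ F, X i M = 0)).card : ℝ)
      ≤ ((∑ i ∈ F, ρ i) + e) / (∑ i ∈ F, ρ i) ^ 2 * Q := by
  classical
  set E : ℝ := ∑ i ∈ F, ρ i with hEdef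
  have hN2 : ∑ M ∈ range Q, (∑ i ∈ F, X i M) ^ 2 ≤ (E + E ^ 2 + e) * Q := by
    have e1 : ∑ M ∈ range Q, (∑ i ∈ F, X i M) ^ 2
        = ∑ i ∈ F, ∑ j ∈ F, ∑ M ∈ range Q, X i M * X j M := by
      have : ∀ M ∈ range Q, (∑ i ∈ F, X i M) ^ 2 = ∑ i ∈ F, ∑ j ∈ F, X i M * X j M := by
        intro M _
        rw [sq, sum_mul_sum]
      rw [sum_congr rfl this, sum_comm]
      refine sum_congr rfl fun i _ => ?_
      rw [sum_comm]
    rw [e1]
    have e2 : ∑ i ∈ F, ∑ j ∈ F, ∑ M ∈ range Q, X i M * X j M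
        = ∑ i ∈ F, ∑ M ∈ range Q, X i M * X i M
          + ∑ i ∈ F, ∑ j ∈ F.erase i, ∑ M ∈ range Q, X i M * X j M := by
      rw [← sum_add_distrib]
      refine sum_congr rfl fun i hi => ?_
      exact (add_sum_erase F (fun j => ∑ M ∈ range Q, X i M * X j M) hi).symm
    rw [e2]
    have e3 : ∑ i ∈ F, ∑ M ∈ range Q, X i M * X i M ≤ E * Q := by
      rw [hEdef, sum_mul]
      exact sum_le_sum h2
    linarith
  have hN1 : ∑ M ∈ range Q, ∑ i ∈ F, X i M = E * Q := by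
    rw [sum_comm, sum_congr rfl h1, ← sum_mul]
  have hV : ∑ M ∈ range Q, (∑ i ∈ F, X i M - E) ^ 2 ≤ (E + e) * Q := by
    have : ∑ M ∈ range Q, (∑ i ∈ F, X i M - E) ^ 2
        = ∑ M ∈ range Q, (∑ i ∈ F, X i M) ^ 2 - 2 * E * ∑ M ∈ range Q, ∑ i ∈ F, X i M
          + E ^ 2 * Q := by
      rw [mul_sum, ← sum_sub_distrib]
      have : (E ^ 2 * Q : ℝ) = ∑ M ∈ range Q, E ^ 2 := by
        rw [sum_const, card_range, nsmul_eq_mul]; ring
      rw [this, ← sum_add_distrib]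
      refine sum_congr rfl fun M _ => ?_
      ring
    rw [this, hN1]
    nlinarith
  have hS : (((range Q).filter (fun M => ∀ i ∈ F, X i M = 0)).card : ℝ) * E ^ 2
      ≤ (E + e) * Q := by
    refine le_trans ?_ hV
    have : (((range Q).filter (fun M => ∀ i ∈ F, X i M = 0)).card : ℝ) * E ^ 2
        = ∑ M ∈ (range Q).filter (fun M => ∀ i ∈ F, X i M = 0), (∑ i ∈ F, X i M - E) ^ 2 := by
      rw [← nsmul_eq_mul, ← sum_const]
      refine sum_congr rfl fun M hM => ?_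
      rw [mem_filter] at hM
      rw [sum_congr rfl hM.2, sum_const_zero]
      ring
    rw [this]
    exact sum_le_sum_of_subset_of_nonneg (filter_subset _ _) fun _ _ _ => sq_nonneg _
  have hE2 : 0 < E ^ 2 := by positivity
  rw [← mul_le_mul_iff_left₀ hE2]
  refine hS.trans (le_of_eq ?_)
  field_simp

/-! ## Counting in residue classes -/

/-- A subset of `range Q` all of whose elements are congruent modulo `L ∣ Q` has at most `Q / L`
elements. -/
theorem card_le_of_congr (Q L : ℕ) (hL : 0 < L) (hLQ : L ∣ Q) (S : Finset ℕ)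
    (hS : S ⊆ range Q) (h : ∀ x ∈ S, ∀ y ∈ S, x ≡ y [MOD L]) :
    (S.card : ℝ) ≤ (Q : ℝ) / L := by
  classical
  obtain ⟨k, rfl⟩ := hLQ
  have hL' : (0 : ℝ) < L := by exact_mod_cast hL
  have : S.card ≤ k := by
    rw [← card_range k]
    refine card_le_card_of_injOn (fun x => x / L) ?_ ?_
    · intro x hx
      have := hS hx
      simp only [coe_range, Set.mem_Iio, mem_range] at this ⊢
      exact Nat.div_lt_of_lt_mul this
    · intro x hx y hy hxy
      have h1 := h x hx y hy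
      have h2 : x % L = y % L := h1
      rw [← Nat.div_add_mod x L, ← Nat.div_add_mod y L, h2]
      simp only at hxy
      rw [hxy]
  rw [Nat.cast_mul, mul_div_cancel_left₀ _ hL'.ne']
  exact_mod_cast this

/-- A subset of `Ico lo hi` all of whose elements are congruent modulo `g` has at most
`(hi - lo) / g + 1` elements. -/
theorem card_le_of_congr_Ico (lo hi g : ℕ) (hg : 0 < g) (S : Finset ℕ)
    (hS : S ⊆ Ico lo hi) (h : ∀ x ∈ S, ∀ y ∈ S, x ≡ y [MOD g]) :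
    (S.card : ℝ) ≤ ((Ico lo hi).card : ℝ) / g + 1 := by
  classical
  have hg' : (0 : ℝ) < g := by exact_mod_cast hg
  have : S.card ≤ (hi - lo) / g + 1 := by
    rw [← card_range ((hi - lo) / g + 1)]
    refine card_le_card_of_injOn (fun x => (x - lo) / g) ?_ ?_
    · intro x hx
      have := mem_Ico.1 (hS hx)
      simp only [coe_range, Set.mem_Iio]
      exact Nat.lt_succ_of_le (Nat.div_le_div_right (by omega))
    · intro x hx y hy hxy
      have h1 := h x hx y hy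
      have hx' := mem_Ico.1 (hS hx)
      have hy' := mem_Ico.1 (hS hy)
      have h2 : (x - lo) % g = (y - lo) % g := by
        have h3 : (x - lo) + lo ≡ (y - lo) + lo [MOD g] := by
          rw [Nat.sub_add_cancel hx'.1, Nat.sub_add_cancel hy'.1]; exact h1
        exact Nat.ModEq.add_right_cancel' lo h3
      simp only at hxy
      have h4 : x - lo = y - lo := by
        rw [← Nat.div_add_mod (x - lo) g, ← Nat.div_add_mod (y - lo) g, h2, hxy]
      omega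
  rw [Nat.card_Ico]
  have h5 : (((hi - lo) / g : ℕ) : ℝ) ≤ ((hi - lo : ℕ) : ℝ) / g := Nat.cast_div_le
  calc (S.card : ℝ) ≤ (((hi - lo) / g + 1 : ℕ) : ℝ) := by exact_mod_cast this
    _ ≤ _ := by push_cast; linarith

/-- The number of solutions of the congruence. -/
def cnt (b w' d lo hi M : ℕ) : ℝ :=
  (((Ico lo hi).filter (fun D => d ∣ b * M + w' * D)).card : ℝ)

theorem cnt_eq_sum (b w' d lo hi M : ℕ) :
    cnt b w' d lo hi M = ∑ D ∈ Ico lo hi, if d ∣ b * M + w' * D then (1 : ℝ) else 0 := by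
  unfold cnt
  rw [card_filter]
  push_cast
  rfl

theorem congr_of_dvd {b d a M M' : ℕ} (hb : Nat.Coprime b d) (h1 : d ∣ b * M + a)
    (h2 : d ∣ b * M' + a) : M ≡ M' [MOD d] := by
  have h3 : b * M + a ≡ b * M' + a [MOD d] :=
    ((Nat.modEq_zero_iff_dvd).2 h1).trans ((Nat.modEq_zero_iff_dvd).2 h2).symm
  have h4 : b * M ≡ b * M' [MOD d] := Nat.ModEq.add_right_cancel' a h3
  exact Nat.ModEq.cancel_left_of_coprime (by rwa [Nat.coprime_comm] at hb) h4

/-- First moment of one congruence. -/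
theorem card_one (b d a Q : ℕ) (hd : 0 < d) (hb : Nat.Coprime b d) (hdQ : d ∣ Q) :
    (((range Q).filter (fun M => d ∣ b * M + a)).card : ℝ) = (Q : ℝ) / d := by
  classical
  obtain ⟨k, rfl⟩ := hdQ
  have hd' : (0 : ℝ) < d := by exact_mod_cast hd
  -- there is a solution
  obtain ⟨m0, hm0⟩ : ∃ m0 : ℕ, d ∣ b * m0 + a := by
    have : NeZero d := ⟨hd.ne'⟩
    refine ⟨(-(a : ZMod d) * (b : ZMod d)⁻¹).val, ?_⟩
    rw [← ZMod.natCast_eq_zero_iff]
    push_cast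
    rw [ZMod.natCast_zmod_val]
    have h1 := ZMod.coe_mul_inv_eq_one b hb
    calc (b : ZMod d) * (-(a : ZMod d) * (b : ZMod d)⁻¹) + a
        = -(a : ZMod d) * ((b : ZMod d) * (b : ZMod d)⁻¹) + a := by ring
      _ = 0 := by rw [h1]; ring
  have : (range (d * k)).filter (fun M => d ∣ b * M + a)
      = (range (d * k)).filter (fun M => M ≡ m0 [MOD d]) := by
    refine filter_congr fun M _ => ?_
    constructor
    · intro h
      exact congr_of_dvd hb h hm0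
    · intro h
      have h2 : b * M + a ≡ b * m0 + a [MOD d] := (h.mul_left b).add_right a
      exact (Nat.modEq_zero_iff_dvd).1 (h2.trans ((Nat.modEq_zero_iff_dvd).2 hm0))
  rw [this, ← Nat.count_eq_card_filter_range, Nat.count_modEq_card _ hd]
  rw [Nat.mul_mod_right, if_neg (Nat.not_lt_zero _), Nat.mul_div_cancel_left _ hd]
  push_cast
  rw [mul_div_cancel_left₀ _ hd'.ne']
  simp

theorem sum_cnt (b w' d lo hi Q : ℕ) (hd : 0 < d) (hb : Nat.Coprime b d) (hdQ : d ∣ Q) :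
    ∑ M ∈ range Q, cnt b w' d lo hi M = ((Ico lo hi).card : ℝ) / d * Q := by
  simp_rw [cnt_eq_sum]
  rw [sum_comm]
  have : ∀ D ∈ Ico lo hi, (∑ M ∈ range Q, if d ∣ b * M + w' * D then (1 : ℝ) else 0)
      = (Q : ℝ) / d := by
    intro D _
    rw [← card_one b d (w' * D) Q hd hb hdQ, card_filter]
    push_cast
    rfl
  rw [sum_congr rfl this, sum_const, nsmul_eq_mul]
  ring

theorem cnt_nonneg (b w' d lo hi M : ℕ) : 0 ≤ cnt b w' d lo hi M := by
  unfold cnt; positivity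

theorem cnt_le_one (b w' d lo hi M : ℕ) (hw : Nat.Coprime w' d) (h : hi ≤ lo + d) :
    cnt b w' d lo hi M ≤ 1 := by
  classical
  unfold cnt
  have : ((Ico lo hi).filter (fun D => d ∣ b * M + w' * D)).card ≤ 1 := by
    rw [card_le_one]
    intro x hx y hy
    rw [mem_filter, mem_Ico] at hx hy
    have h1 : x ≡ y [MOD d] := by
      refine congr_of_dvd (b := w') (a := b * M) hw ?_ ?_
      · rw [add_comm]; exact hx.2
      · rw [add_comm]; exact hy.2
    rcases Nat.lt_or_ge x y with hxy | hxy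
    · have := (Nat.modEq_iff_dvd' hxy.le).1 h1
      have := Nat.le_of_dvd (by omega) this
      omega
    · rcases Nat.lt_or_ge y x with hyx | hyx
      · have := (Nat.modEq_iff_dvd' hyx.le).1 h1.symm
        have := Nat.le_of_dvd (by omega) this
        omega
      · omega
  exact_mod_cast this

theorem sum_cnt_sq (b w' d lo hi Q : ℕ) (hd : 0 < d) (hb : Nat.Coprime b d) (hdQ : d ∣ Q)
    (hw : Nat.Coprime w' d) (h : hi ≤ lo + d) :
    ∑ M ∈ range Q, cnt b w' d lo hi M * cnt b w' d lo hi M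
      ≤ ((Ico lo hi).card : ℝ) / d * Q := by
  rw [← sum_cnt b w' d lo hi Q hd hb hdQ]
  refine sum_le_sum fun M _ => ?_
  have h0 := cnt_nonneg b w' d lo hi M
  have h1 := cnt_le_one b w' d lo hi M hw h
  nlinarith

/-- Mixed moment. -/
theorem sum_cnt_mul (b w₁ d₁ lo₁ hi₁ w₂ d₂ lo₂ hi₂ Q : ℕ) (hd₁ : 0 < d₁) (hd₂ : 0 < d₂)
    (hb₁ : Nat.Coprime b d₁) (hb₂ : Nat.Coprime b d₂) (hQ : d₁ * d₂ ∣ Q)
    (hw : Nat.Coprime w₂ (Nat.gcd d₁ d₂)) :
    ∑ M ∈ range Q, cnt b w₁ d₁ lo₁ hi₁ M * cnt b w₂ d₂ lo₂ hi₂ M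
      ≤ ((Nat.gcd d₁ d₂ : ℕ) : ℝ) / ((d₁ : ℝ) * d₂) * (((Ico lo₁ hi₁).card : ℝ)
        * (((Ico lo₂ hi₂).card : ℝ) / (Nat.gcd d₁ d₂ : ℕ) + 1)) * Q := by
  classical
  set g := Nat.gcd d₁ d₂ with hg
  have hg0 : 0 < g := Nat.gcd_pos_of_pos_left _ hd₁
  have hg' : (0 : ℝ) < g := by exact_mod_cast hg0
  have hd₁' : (0 : ℝ) < d₁ := by exact_mod_cast hd₁
  have hd₂' : (0 : ℝ) < d₂ := by exact_mod_cast hd₂
  have hlcm : 0 < Nat.lcm d₁ d₂ := Nat.lcm_pos hd₁ hd₂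
  have hlcmQ : Nat.lcm d₁ d₂ ∣ Q :=
    (Nat.lcm_dvd (dvd_mul_right _ _) (dvd_mul_left _ _)).trans hQ
  have hgl : (g : ℝ) * (Nat.lcm d₁ d₂ : ℕ) = (d₁ : ℝ) * d₂ := by
    have := Nat.gcd_mul_lcm d₁ d₂
    rw [hg]
    exact_mod_cast this
  have hL' : (0 : ℝ) < (Nat.lcm d₁ d₂ : ℕ) := by exact_mod_cast hlcm
  -- expand
  have e1 : ∑ M ∈ range Q, cnt b w₁ d₁ lo₁ hi₁ M * cnt b w₂ d₂ lo₂ hi₂ M
      = ∑ D ∈ Ico lo₁ hi₁, ∑ D' ∈ Ico lo₂ hi₂,
        (((range Q).filter (fun M => d₁ ∣ b * M + w₁ * D ∧ d₂ ∣ b * M + w₂ * D')).card : ℝ) := by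
    simp_rw [cnt_eq_sum, sum_mul_sum]
    rw [sum_comm]
    refine sum_congr rfl fun D _ => ?_
    rw [sum_comm]
    refine sum_congr rfl fun D' _ => ?_
    rw [card_filter]
    push_cast
    refine sum_congr rfl fun M _ => ?_
    by_cases h1 : d₁ ∣ b * M + w₁ * D <;> by_cases h2 : d₂ ∣ b * M + w₂ * D' <;>
      simp [h1, h2]
  rw [e1]
  -- for fixed D
  have e2 : ∀ D ∈ Ico lo₁ hi₁, ∑ D' ∈ Ico lo₂ hi₂,
        (((range Q).filter (fun M => d₁ ∣ b * M + w₁ * D ∧ d₂ ∣ b * M + w₂ * D')).card : ℝ)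
      ≤ (((Ico lo₂ hi₂).card : ℝ) / g + 1) * (Q / (Nat.lcm d₁ d₂ : ℕ)) := by
    intro D _
    set S := (Ico lo₂ hi₂).filter (fun D' => ∃ M, d₁ ∣ b * M + w₁ * D ∧ d₂ ∣ b * M + w₂ * D')
      with hS
    have hzero : ∀ D' ∈ Ico lo₂ hi₂, D' ∉ S →
        (((range Q).filter (fun M => d₁ ∣ b * M + w₁ * D ∧ d₂ ∣ b * M + w₂ * D')).card : ℝ)
          = 0 := by
      intro D' hD' hnot
      rw [Nat.cast_eq_zero, card_eq_zero, filter_eq_empty_iff]
      intro M _ hM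
      exact hnot (by rw [hS, mem_filter]; exact ⟨hD', M, hM⟩)
    have hsub : S ⊆ Ico lo₂ hi₂ := filter_subset _ _
    rw [← sum_subset hsub hzero]
    have hone : ∀ D' ∈ S,
        (((range Q).filter (fun M => d₁ ∣ b * M + w₁ * D ∧ d₂ ∣ b * M + w₂ * D')).card : ℝ)
          ≤ Q / (Nat.lcm d₁ d₂ : ℕ) := by
      intro D' _
      refine card_le_of_congr Q _ hlcm hlcmQ _ (filter_subset _ _) ?_
      intro x hx y hy
      rw [mem_filter] at hx hy
      have h1 := congr_of_dvd hb₁ hx.2.1 hy.2.1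
      have h2 := congr_of_dvd hb₂ hx.2.2 hy.2.2
      rw [Nat.modEq_iff_dvd] at h1 h2 ⊢
      exact Int.natCast_dvd.2 (Nat.lcm_dvd (Int.natCast_dvd.1 h1) (Int.natCast_dvd.1 h2))
    refine (sum_le_sum hone).trans ?_
    rw [sum_const, nsmul_eq_mul]
    refine mul_le_mul_of_nonneg_right ?_ (by positivity)
    refine card_le_of_congr_Ico lo₂ hi₂ g hg0 S hsub ?_
    intro x hx y hy
    rw [hS, mem_filter] at hx hy
    obtain ⟨_, M, hM1, hM2⟩ := hx
    obtain ⟨_, M', hM1', hM2'⟩ := hy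
    have h1 : M ≡ M' [MOD g] :=
      (congr_of_dvd hb₁ hM1 hM1').of_dvd (Nat.gcd_dvd_left _ _)
    have h2 : b * M + w₂ * x ≡ b * M' + w₂ * y [MOD g] :=
      ((Nat.modEq_zero_iff_dvd).2 ((Nat.gcd_dvd_right _ _).trans hM2)).trans
        ((Nat.modEq_zero_iff_dvd).2 ((Nat.gcd_dvd_right _ _).trans hM2')).symm
    have h3 : w₂ * x ≡ w₂ * y [MOD g] := Nat.ModEq.add_left_cancel (h1.mul_left b) h2
    exact Nat.ModEq.cancel_left_of_coprime (by rwa [Nat.coprime_comm] at hw) h3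
  refine (sum_le_sum e2).trans (le_of_eq ?_)
  rw [sum_const, nsmul_eq_mul, ← hgl]
  field_simp

end Pool.Agent.Lib.PO69
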